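import Pool.Agent.H87.NS.Defs

/-! Localised kernels. -/

set_option autoImplicit false

open Set Filter Topology MeasureTheory
open scoped ContDiff

namespace Pool.Agent.H87.NS

open Pool.Agent.H16

/-- Smooth, equal to `1` for `s ≤ 1/2` and to `0` for `s ≥ 1`. -/
noncomputable def zt (s : ℝ) : ℝ := Real.smoothTransition (2 - 2 * s)

/-- Radial profile of the localised kernel. -/
noncomputable def gL (ε ρ s : ℝ) : ℝ :=
  zt (s / ρ ^ 2) * (s + ε ^ 2) ^ (-(3/2) : ℝ) - 2 / ρ ^ 2 * deriv zt (s / ρ ^ 2) * (s + ε ^ 2) ^ (-(1/2) : ℝ)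

/-- The smooth remainder. -/
noncomputable def hL (ε ρ s : ℝ) : ℝ :=
  4 * s / ρ ^ 2 * deriv zt (s / ρ ^ 2) * (s + ε ^ 2) ^ (-(3/2) : ℝ)
    - (6 / ρ ^ 2 * deriv zt (s / ρ ^ 2) + 4 * s / ρ ^ 4 * deriv (deriv zt) (s / ρ ^ 2)) * (s + ε ^ 2) ^ (-(1/2) : ℝ)

/-- Minus the partial derivative of `zt (|z|² / ρ²) (|z|² + ε²) ^ (-1/2)`. -/
noncomputable def LK (ε ρ : ℝ) (i : Fin 3) (z : E3) : ℝ := z i * gL ε ρ (‖z‖ ^ 2)

/-- General weights. -/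
structure Wg (χ : E3 → ℝ) : Prop where
  smooth : ContDiff ℝ ∞ χ
  nonneg : ∀ x, 0 ≤ χ x
  le_one : ∀ x, χ x ≤ 1
  bd : ∃ C : ℝ, ∀ x, (∀ i, |pd i χ x| ≤ C) ∧ |lap χ x| ≤ C ∧ |rdr χ x| ≤ C * rsq x

/-- The point of the axis at height `z`. -/
noncomputable def axp (z : ℝ) : E3 := !₂[0, 0, z]

end Pool.Agent.H87.NS
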