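/-
ROW EVg. The energy inequality with general weights. PROOF. Copy the proof of `ev` in NS/EV.lean. The weight `χ` has bounded first derivatives and Laplacian and
`|rdr χ| ≤ C rsq`; it need not be constant near the axis or near infinity. Changes: (1) `ψ = χ φ_n` satisfies `|rdr ψ| ≤ C' rsq` directly; (2) the term
`(2 / rsq) rdr χ` is bounded by `2 C` and measurable (continuous off the axis, a null set), so `j(f) (2/rsq) rdr χ` is integrable in `x` with bounds uniform in
`t`; (3) the last step `- ∫ j'(f) ∑ pd i f pd i χ = - ∑ ∫ pd i (j∘f) pd i χ = ∫ j(f) lap χ` : `j ∘ f`, `pd i (j ∘ f)` are integrable and `pd i χ`, `pd i (pd i χ)`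
are bounded... (only `lap χ` is assumed bounded: use cut-offs `φ_n` again, or integrate by parts before removing the cut-off: with `ψ = χ φ_n` compactly supported,
`- ∫ j'(f) ∑ pd i f pd i ψ = ∫ j(f) lap ψ`, `lap ψ = φ_n lap χ + 2 ∑ pd i χ pd i φ_n + χ lap φ_n`, where `|pd i φ_n| ≤ C/R`, `|lap φ_n| ≤ C/R²`).
For the joint measurability in `(t, x)` of the term with `2 / rsq`: it is the product of a jointly continuous function and a measurable function of `x`; ti_int and
ti_tail are stated for jointly continuous functions; the product `j(f t x) * m(x)` with `m` bounded measurable can be treated by the same proofs (write a version of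
ti_int, ti_tail for `Φ t x * m x`).
-/
import Pool.Agent.H87.NC.Defs
import Pool.Agent.H87.NS.EV

set_option autoImplicit false

open Set Filter Topology MeasureTheory
open scoped ContDiff

namespace Pool.Agent.H87.NS

open Pool.Agent.H16

private theorem EVg_axis_null : volume {x : E3 | rsq x = 0} = 0 := by
  have h : {x : E3 | rsq x = 0} ⊆ ⋃ n : ℕ, {x : E3 | rsq x ≤ 0 ∧ ‖x‖ ≤ n} := by
    intro x hx
    obtain ⟨n, hn⟩ := exists_nat_ge ‖x‖
    exact mem_iUnion.2 ⟨n, le_of_eq hx, hn⟩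
  refine measure_mono_null h (measure_iUnion_null fun n => ?_)
  have h2 := vol_axis (δ := 0) (L := n) le_rfl (Nat.cast_nonneg n)
  simpa using h2

private theorem EVg_pd_nsq (c : ℝ) (i : Fin 3) (x : E3) :
    pd i (fun y : E3 => c * ‖y‖ ^ 2) x = c * (2 * x i) := by
  have h := ((hasStrictFDerivAt_norm_sq x).hasFDerivAt).const_mul c
  unfold pd
  rw [h.fderiv]
  simp [e, EuclideanSpace.inner_single_right]

private theorem EVg_coord_le (x : E3) (i : Fin 3) : |x i| ≤ ‖x‖ := by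
  have h := PiLp.norm_apply_le x i
  simpa using h

private theorem EVg_BL {g : E3 → ℝ} (hg : Continuous g) (hc : HasCompactSupport g) :
    ∃ K, BL K g := by
  obtain ⟨C, hC⟩ := hg.bounded_above_of_compact_support hc
  refine ⟨max C (∫ x, g x ^ 2), fun x => ?_, ?_, le_max_right _ _⟩
  · have h := hC x
    rw [Real.norm_eq_abs] at h
    exact h.trans (le_max_left _ _)
  · have h2 : HasCompactSupport (fun x => g x ^ 2) := by
      refine hc.mono fun x hx => ?_
      rw [Function.mem_support] at hx ⊢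
      intro h
      exact hx (by rw [h]; norm_num)
    have h3 : Continuous (fun x => g x ^ 2) := hg.pow 2
    exact h3.integrable_of_hasCompactSupport h2

private theorem EVg_DB1 {g : E3 → ℝ} (hg : ContDiff ℝ ∞ g) (hc : HasCompactSupport g) :
    ∃ K, DB 1 K g := by
  obtain ⟨K0, h0⟩ := EVg_BL hg.continuous hc
  have h1 : ∀ i, ∃ K, BL K (pd i g) := fun i =>
    EVg_BL (pd_smooth hg i).continuous (hc.fderiv_apply (𝕜 := ℝ) (e i))
  choose K1 hK1 using h1
  have hn : ∀ i, 0 ≤ K1 i := fun i => BL_nonneg (hK1 i)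
  refine ⟨K0 + ∑ i, K1 i, ?_, fun i => ?_⟩
  · exact BL_mono h0 (le_add_of_nonneg_right (Finset.sum_nonneg fun i _ => hn i))
  · refine BL_mono (hK1 i) ?_
    have h2 := Finset.single_le_sum (fun i _ => hn i) (Finset.mem_univ i)
    have h3 := BL_nonneg h0
    linarith

private theorem EVg_rsq_cont : Continuous (rsq : E3 → ℝ) := by
  unfold rsq
  fun_prop

private theorem EVg_rdr_cont {f : E3 → ℝ} (hf : ContDiff ℝ ∞ f) : Continuous (rdr f) := by
  have h0 := (pd_smooth hf 0).continuous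
  have h1 := (pd_smooth hf 1).continuous
  unfold rdr
  fun_prop

private theorem EVg_rsq_nonneg (x : E3) : 0 ≤ rsq x := by
  unfold rsq
  positivity

/-- a smooth step -/
private theorem EVg_step : ∃ (g : ℝ → ℝ) (C : ℝ), ContDiff ℝ ∞ g ∧ (∀ s, 0 ≤ g s) ∧ (∀ s, g s ≤ 1) ∧
    (∀ s ≤ 1, g s = 1) ∧ (∀ s, 2 ≤ s → g s = 0) ∧ (∀ s, |deriv g s| ≤ C) ∧
    (∀ s, 2 < s → deriv g s = 0) ∧ (∀ s, |deriv (deriv g) s| ≤ C) ∧
    (∀ s, 2 < s → deriv (deriv g) s = 0) ∧ 0 ≤ C := by
  set g : ℝ → ℝ := fun s => Real.smoothTransition (2 - s) with hg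
  have hs : ContDiff ℝ ∞ g := Real.smoothTransition.contDiff.comp (contDiff_const.sub contDiff_id)
  have h1 : ∀ s ≤ 1, g s = 1 := fun s h => Real.smoothTransition.one_of_one_le (by linarith)
  have h0 : ∀ s, 2 ≤ s → g s = 0 := fun s h => Real.smoothTransition.zero_of_nonpos (by linarith)
  have d0 : ∀ s, 2 < s → deriv g s = 0 := by
    intro s h
    have e : g =ᶠ[𝓝 s] fun _ => 0 := by
      filter_upwards [lt_mem_nhds h] with y hy using h0 y hy.le
    rw [e.deriv_eq, deriv_const]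
  have d1 : ∀ s, s < 1 → deriv g s = 0 := by
    intro s h
    have e : g =ᶠ[𝓝 s] fun _ => 1 := by
      filter_upwards [gt_mem_nhds h] with y hy using h1 y hy.le
    rw [e.deriv_eq, deriv_const]
  have dd0 : ∀ s, 2 < s → deriv (deriv g) s = 0 := by
    intro s h
    have e : deriv g =ᶠ[𝓝 s] fun _ => 0 := by
      filter_upwards [lt_mem_nhds h] with y hy using d0 y hy
    rw [e.deriv_eq, deriv_const]
  have dd1 : ∀ s, s < 1 → deriv (deriv g) s = 0 := by
    intro s h
    have e : deriv g =ᶠ[𝓝 s] fun _ => 0 := by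
      filter_upwards [gt_mem_nhds h] with y hy using d1 y hy
    rw [e.deriv_eq, deriv_const]
  have hc : HasCompactSupport (deriv g) := by
    refine HasCompactSupport.intro (isCompact_Icc (a := (1 : ℝ)) (b := 2)) fun s hs => ?_
    rw [mem_Icc, not_and_or, not_le, not_le] at hs
    rcases hs with h | h
    · exact d1 s h
    · exact d0 s h
  have hc2 : HasCompactSupport (deriv (deriv g)) := by
    refine HasCompactSupport.intro (isCompact_Icc (a := (1 : ℝ)) (b := 2)) fun s hs => ?_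
    rw [mem_Icc, not_and_or, not_le, not_le] at hs
    rcases hs with h | h
    · exact dd1 s h
    · exact dd0 s h
  have hcont : Continuous (deriv g) := hs.continuous_deriv (by simp)
  have hds : ContDiff ℝ ∞ (deriv g) := (contDiff_infty_iff_deriv.1 hs).2
  have hcont2 : Continuous (deriv (deriv g)) := hds.continuous_deriv (by simp)
  obtain ⟨C, hC⟩ := hcont.bounded_above_of_compact_support hc
  obtain ⟨C2, hC2⟩ := hcont2.bounded_above_of_compact_support hc2
  exact ⟨g, max C C2, hs, fun s => Real.smoothTransition.nonneg _,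
    fun s => Real.smoothTransition.le_one _, h1, h0,
    fun s => (by simpa using hC s : |deriv g s| ≤ C).trans (le_max_left _ _), d0,
    fun s => (by simpa using hC2 s : |deriv (deriv g) s| ≤ C2).trans (le_max_right _ _), dd0,
    ((norm_nonneg _).trans (hC 0)).trans (le_max_left _ _)⟩

private theorem EVg_pd_coord (c : ℝ) (i : Fin 3) (x : E3) :
    pd i (fun y : E3 => c * (2 * y i)) x = c * 2 := by
  have h : HasFDerivAt (fun y : E3 => y i) (EuclideanSpace.proj i : E3 →L[ℝ] ℝ) x :=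
    (EuclideanSpace.proj i : E3 →L[ℝ] ℝ).hasFDerivAt
  have h2 := (h.const_mul 2).const_mul c
  unfold pd
  rw [h2.fderiv]
  simp [e]

private theorem EVg_pd_mul {A B : E3 → ℝ} (hA : ContDiff ℝ 1 A) (hB : ContDiff ℝ 1 B) (i : Fin 3)
    (x : E3) : pd i (fun y => A y * B y) x = A x * pd i B x + B x * pd i A x := by
  unfold pd
  rw [fderiv_fun_mul (hA.differentiable (by simp) x) (hB.differentiable (by simp) x)]
  simp

private theorem EVg_pd_add {A B : E3 → ℝ} (hA : ContDiff ℝ 1 A) (hB : ContDiff ℝ 1 B) (i : Fin 3)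
    (x : E3) : pd i (fun y => A y + B y) x = pd i A x + pd i B x := by
  unfold pd
  rw [fderiv_fun_add (hA.differentiable (by simp) x) (hB.differentiable (by simp) x)]
  simp

/-- the cutoff functions -/
private theorem EVg_cut : ∃ (φ q : ℕ → E3 → ℝ) (κ : ℕ → ℝ), (∀ n, ContDiff ℝ ∞ (φ n)) ∧
    (∀ n, HasCompactSupport (φ n)) ∧ (∀ n x, 0 ≤ φ n x) ∧ (∀ n x, φ n x ≤ 1) ∧
    (∀ x, Tendsto (fun n => φ n x) atTop (𝓝 1)) ∧ (∀ n i x, |pd i (φ n) x| ≤ κ n) ∧
    (∀ n, Continuous (q n)) ∧ (∀ n x, |q n x| ≤ κ n) ∧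
    (∀ n x, rdr (φ n) x = q n x / 2 * rsq x) ∧ (∀ n x, |lap (φ n) x| ≤ κ n) ∧
    Tendsto κ atTop (𝓝 0) := by
  obtain ⟨g, C, gs, g0, g1, gone, gzero, dC, dz, dC2, dz2, hC⟩ := EVg_step
  set c : ℕ → ℝ := fun n => 1 / ((n : ℝ) + 1) with hc
  have cpos : ∀ n, 0 < c n := fun n => by positivity
  have cle : ∀ n, c n ≤ 1 := fun n => by
    rw [hc]
    simp only
    rw [div_le_one (by positivity)]
    have : (0 : ℝ) ≤ n := Nat.cast_nonneg n
    linarith
  have csq : ∀ n, c n ^ 2 ≤ c n := fun n => by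
    have := cpos n
    have := cle n
    nlinarith
  have gds : ContDiff ℝ ∞ (deriv g) := (contDiff_infty_iff_deriv.1 gs).2
  have dcont : Continuous (deriv g) := gs.continuous_deriv (by simp)
  have hns : ∀ n, ContDiff ℝ ∞ (fun y : E3 => c n ^ 2 * ‖y‖ ^ 2) := fun n =>
    contDiff_const.mul (contDiff_norm_sq ℝ)
  have hpd : ∀ n i x, pd i (fun y : E3 => g (c n ^ 2 * ‖y‖ ^ 2)) x =
      deriv g (c n ^ 2 * ‖x‖ ^ 2) * (c n ^ 2 * (2 * x i)) := by
    intro n i x
    rw [comp_pd (f := fun y : E3 => c n ^ 2 * ‖y‖ ^ 2) (H := g)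
      ((hns n).of_le (by simp)) (gs.of_le (by simp)) i x, EVg_pd_nsq]
  have hpd2 : ∀ n i x, pd i (pd i (fun y : E3 => g (c n ^ 2 * ‖y‖ ^ 2))) x =
      deriv g (c n ^ 2 * ‖x‖ ^ 2) * (c n ^ 2 * 2) +
        c n ^ 2 * (2 * x i) * (deriv (deriv g) (c n ^ 2 * ‖x‖ ^ 2) * (c n ^ 2 * (2 * x i))) := by
    intro n i x
    have e1 : pd i (fun y : E3 => g (c n ^ 2 * ‖y‖ ^ 2)) = fun x : E3 =>
        deriv g (c n ^ 2 * ‖x‖ ^ 2) * (c n ^ 2 * (2 * x i)) := funext fun x => hpd n i x
    have hl : ContDiff ℝ 1 (fun y : E3 => c n ^ 2 * (2 * y i)) := by fun_prop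
    rw [e1, EVg_pd_mul (A := fun x : E3 => deriv g (c n ^ 2 * ‖x‖ ^ 2))
      (B := fun x : E3 => c n ^ 2 * (2 * x i)) ((gds.comp (hns n)).of_le (by simp)) hl i x,
      EVg_pd_coord, comp_pd (f := fun y : E3 => c n ^ 2 * ‖y‖ ^ 2) (H := deriv g)
      ((hns n).of_le (by simp)) (gds.of_le (by simp)) i x, EVg_pd_nsq]
  refine ⟨fun n x => g (c n ^ 2 * ‖x‖ ^ 2), fun n x => 4 * c n ^ 2 * deriv g (c n ^ 2 * ‖x‖ ^ 2),
    fun n => 30 * C * c n, fun n => ?_, fun n => ?_, fun n x => g0 _, fun n x => g1 _, fun x => ?_,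
    fun n i x => ?_, fun n => ?_, fun n x => ?_, fun n x => ?_, fun n x => ?_, ?_⟩
  · exact gs.comp (hns n)
  · refine HasCompactSupport.intro (isCompact_closedBall (0 : E3) (2 / c n)) fun x hx => ?_
    rw [Metric.mem_closedBall, dist_zero_right, not_le, div_lt_iff₀ (cpos n)] at hx
    refine gzero _ ?_
    nlinarith
  · refine tendsto_const_nhds.congr' ?_
    obtain ⟨N, hN⟩ := exists_nat_ge ‖x‖
    filter_upwards [eventually_ge_atTop N] with n hn
    have h1 : c n * ‖x‖ ≤ 1 := by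
      rw [hc]
      simp only
      rw [div_mul_eq_mul_div, one_mul, div_le_one (by positivity)]
      have : (N : ℝ) ≤ n := by exact_mod_cast hn
      linarith
    refine (gone _ ?_).symm
    have h2 : 0 ≤ c n * ‖x‖ := mul_nonneg (cpos n).le (norm_nonneg _)
    nlinarith
  · rw [hpd, abs_mul]
    rcases lt_or_ge 2 (c n ^ 2 * ‖x‖ ^ 2) with h | h
    · rw [dz _ h, abs_zero, zero_mul]
      have := cpos n
      positivity
    · have h1 : c n * ‖x‖ ≤ 2 := by
        have h2 : 0 ≤ c n * ‖x‖ := mul_nonneg (cpos n).le (norm_nonneg _)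
        nlinarith
      have h3 : |c n ^ 2 * (2 * x i)| ≤ 4 * c n := by
        rw [abs_mul, abs_mul, abs_of_nonneg (by positivity : (0 : ℝ) ≤ c n ^ 2),
          abs_of_nonneg (by norm_num : (0 : ℝ) ≤ 2)]
        have h4 := EVg_coord_le x i
        calc c n ^ 2 * (2 * |x i|) ≤ c n ^ 2 * (2 * ‖x‖) := by gcongr
          _ = 2 * c n * (c n * ‖x‖) := by ring
          _ ≤ 2 * c n * 2 := by
            have := cpos n
            gcongr
          _ = 4 * c n := by ring
      calc |deriv g (c n ^ 2 * ‖x‖ ^ 2)| * |c n ^ 2 * (2 * x i)| ≤ C * (4 * c n) :=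
            mul_le_mul (dC _) h3 (abs_nonneg _) hC
        _ ≤ 30 * C * c n := by
          have := mul_nonneg hC (cpos n).le
          linarith
  · exact continuous_const.mul (dcont.comp (by fun_prop))
  · rw [abs_mul, abs_of_nonneg (by positivity : (0 : ℝ) ≤ 4 * c n ^ 2)]
    calc 4 * c n ^ 2 * |deriv g (c n ^ 2 * ‖x‖ ^ 2)| ≤ 4 * c n * C := by
          have := cpos n
          have := csq n
          exact mul_le_mul (by linarith) (dC _) (abs_nonneg _) (by positivity)
      _ ≤ 30 * C * c n := by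
        have := mul_nonneg hC (cpos n).le
        linarith
  · unfold rdr rsq
    rw [hpd, hpd]
    ring
  · unfold lap
    have hterm : ∀ i ∈ (Finset.univ : Finset (Fin 3)),
        |pd i (pd i (fun y : E3 => g (c n ^ 2 * ‖y‖ ^ 2))) x| ≤ 10 * C * c n := by
      intro i _
      rw [hpd2]
      have t1 : |deriv g (c n ^ 2 * ‖x‖ ^ 2) * (c n ^ 2 * 2)| ≤ 2 * (C * c n) := by
        rw [abs_mul, abs_of_nonneg (by positivity : (0 : ℝ) ≤ c n ^ 2 * 2)]
        calc |deriv g (c n ^ 2 * ‖x‖ ^ 2)| * (c n ^ 2 * 2) ≤ C * (c n * 2) :=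
              mul_le_mul (dC _) (by linarith [csq n]) (by positivity) hC
          _ = 2 * (C * c n) := by ring
      have t2 : |c n ^ 2 * (2 * x i) * (deriv (deriv g) (c n ^ 2 * ‖x‖ ^ 2) *
          (c n ^ 2 * (2 * x i)))| ≤ 8 * (C * c n) := by
        have e2 : c n ^ 2 * (2 * x i) * (deriv (deriv g) (c n ^ 2 * ‖x‖ ^ 2) *
            (c n ^ 2 * (2 * x i))) = deriv (deriv g) (c n ^ 2 * ‖x‖ ^ 2) *
              (4 * c n ^ 2 * (c n ^ 2 * x i ^ 2)) := by ring
        rw [e2, abs_mul, abs_of_nonneg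
          (by positivity : (0 : ℝ) ≤ 4 * c n ^ 2 * (c n ^ 2 * x i ^ 2))]
        rcases lt_or_ge 2 (c n ^ 2 * ‖x‖ ^ 2) with h | h
        · rw [dz2 _ h, abs_zero, zero_mul]
          have := mul_nonneg hC (cpos n).le
          linarith
        · have h4 : x i ^ 2 ≤ ‖x‖ ^ 2 := by
            rw [← sq_abs (x i)]
            exact pow_le_pow_left₀ (abs_nonneg _) (EVg_coord_le x i) 2
          have h5 : c n ^ 2 * x i ^ 2 ≤ 2 :=
            (mul_le_mul_of_nonneg_left h4 (by positivity)).trans h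
          have h6 : 4 * c n ^ 2 * (c n ^ 2 * x i ^ 2) ≤ 8 * c n := by
            calc 4 * c n ^ 2 * (c n ^ 2 * x i ^ 2) ≤ 4 * c n ^ 2 * 2 :=
                  mul_le_mul_of_nonneg_left h5 (by positivity)
              _ ≤ 8 * c n := by linarith [csq n]
          calc |deriv (deriv g) (c n ^ 2 * ‖x‖ ^ 2)| * (4 * c n ^ 2 * (c n ^ 2 * x i ^ 2)) ≤
              C * (8 * c n) := mul_le_mul (dC2 _) h6 (by positivity) hC
            _ = 8 * (C * c n) := by ring
      refine (abs_add_le _ _).trans ?_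
      linarith
    refine (Finset.abs_sum_le_sum_abs _ _).trans ((Finset.sum_le_sum hterm).trans (le_of_eq ?_))
    rw [Finset.sum_const, Finset.card_univ, Fintype.card_fin, nsmul_eq_mul]
    norm_num
    ring
  · have h := (tendsto_one_div_add_atTop_nhds_zero_nat (𝕜 := ℝ)).const_mul (30 * C)
    rw [mul_zero] at h
    exact h

variable {T : ℝ} {u : ℝ → E3 → E3} {f G : ℝ → E3 → ℝ}

private theorem EVg_slice {Φ : ℝ → E3 → ℝ} (h : JC T Φ) {t : ℝ} (ht : t ∈ Ico 0 T) :
    Continuous (Φ t) := by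
  have h1 : Continuous fun x : E3 => ((t, x) : ℝ × E3) := by fun_prop
  have h2 := ContinuousOn.comp_continuous h h1 (fun x => ⟨ht, mem_univ _⟩)
  exact h2

/-- joint measurability -/
private def EVg_AM (a b : ℝ) (Φ : ℝ → E3 → ℝ) : Prop :=
  AEStronglyMeasurable (fun q : ℝ × E3 => Φ q.1 q.2) ((volume.restrict (Icc a b)).prod volume)

private theorem EVg_am {Φ : ℝ → E3 → ℝ} (hΦ : JC T Φ) {a b : ℝ} (ha : 0 ≤ a) (hb : b < T) :
    EVg_AM a b Φ := by
  have hsub : Icc a b ×ˢ (univ : Set E3) ⊆ Ico 0 T ×ˢ univ :=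
    Set.prod_mono (fun t ht => ⟨ha.trans ht.1, ht.2.trans_lt hb⟩) (le_refl _)
  have h1 : AEStronglyMeasurable (fun q : ℝ × E3 => Φ q.1 q.2)
      ((volume : Measure (ℝ × E3)).restrict (Icc a b ×ˢ univ)) :=
    (ContinuousOn.mono hΦ hsub).aestronglyMeasurable (measurableSet_Icc.prod MeasurableSet.univ)
  rw [Measure.volume_eq_prod, ← Measure.prod_restrict, Measure.restrict_univ] at h1
  exact h1

private theorem EVg_am_const {m : E3 → ℝ} (hm : Measurable m) (a b : ℝ) :
    EVg_AM a b (fun _ x => m x) :=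
  (hm.comp measurable_snd).aestronglyMeasurable

private theorem EVg_bound {Φ : E3 → ℝ} {K : ℝ} (h2 : ∫ x, |Φ x| ≤ K) : ‖∫ x, Φ x‖ ≤ K := by
  refine (norm_integral_le_integral_norm _).trans ?_
  simp only [Real.norm_eq_abs]
  exact h2

private theorem EVg_ti {Φ : ℝ → E3 → ℝ} {a b K : ℝ} (hab : a ≤ b) (hΦ : EVg_AM a b Φ)
    (h : ∀ t ∈ Icc a b, ∫ x, |Φ t x| ≤ K) :
    IntervalIntegrable (fun t => ∫ x, Φ t x) volume a b := by
  rw [intervalIntegrable_iff_integrableOn_Icc_of_le hab]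
  have hm : AEStronglyMeasurable (fun t => ∫ x, Φ t x) (volume.restrict (Icc a b)) :=
    AEStronglyMeasurable.integral_prod_right' hΦ
  refine Integrable.of_bound hm K ?_
  exact ae_restrict_of_forall_mem measurableSet_Icc fun t ht => EVg_bound (h t ht)

private theorem EVg_tail {Φ : ℝ → E3 → ℝ} {a b K : ℝ} (hab : a ≤ b) (hΦ : EVg_AM a b Φ)
    (h : ∀ t ∈ Icc a b, Integrable (Φ t) ∧ ∫ x, |Φ t x| ≤ K)
    {φ : ℕ → E3 → ℝ} (hφ : ∀ n, Continuous (φ n)) (hφ1 : ∀ n x, |φ n x| ≤ 1)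
    (hφl : ∀ x, Tendsto (fun n => φ n x) atTop (𝓝 1)) :
    Tendsto (fun n => ∫ t in a..b, ∫ x, Φ t x * φ n x) atTop (𝓝 (∫ t in a..b, ∫ x, Φ t x)) := by
  have hJ : ∀ n, AEStronglyMeasurable (fun t => ∫ x, Φ t x * φ n x)
      (volume.restrict (Icc a b)) := fun n => by
    have h1 : AEStronglyMeasurable (fun q : ℝ × E3 => Φ q.1 q.2 * φ n q.2)
        ((volume.restrict (Icc a b)).prod volume) :=
      AEStronglyMeasurable.mul hΦ ((hφ n).measurable.comp measurable_snd).aestronglyMeasurable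
    exact AEStronglyMeasurable.integral_prod_right' h1
  have hle : ∀ n t x, |Φ t x * φ n x| ≤ |Φ t x| := by
    intro n t x
    rw [abs_mul]
    exact mul_le_of_le_one_right (abs_nonneg _) (hφ1 n x)
  refine intervalIntegral.tendsto_integral_filter_of_dominated_convergence (fun _ => K) ?_ ?_ ?_ ?_
  · refine Eventually.of_forall fun n => ?_
    rw [uIoc_of_le hab]
    exact (hJ n).mono_measure (Measure.restrict_mono Ioc_subset_Icc_self le_rfl)
  · refine Eventually.of_forall fun n => ae_of_all _ fun t ht => ?_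
    rw [uIoc_of_le hab] at ht
    have ht' : t ∈ Icc a b := ⟨ht.1.le, ht.2⟩
    refine EVg_bound (le_trans ?_ (h t ht').2)
    refine integral_mono_of_nonneg (ae_of_all _ fun x => abs_nonneg _) (h t ht').1.abs
      (ae_of_all _ fun x => hle n t x)
  · exact intervalIntegrable_const
  · refine ae_of_all _ fun t ht => ?_
    rw [uIoc_of_le hab] at ht
    have ht' : t ∈ Icc a b := ⟨ht.1.le, ht.2⟩
    refine tendsto_integral_of_dominated_convergence (fun x => |Φ t x|) ?_ (h t ht').1.abs ?_ ?_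
    · intro n
      exact (h t ht').1.aestronglyMeasurable.mul (hφ n).aestronglyMeasurable
    · intro n
      exact ae_of_all _ fun x => hle n t x
    · refine ae_of_all _ fun x => ?_
      have := (hφl x).const_mul (Φ t x)
      rw [mul_one] at this
      exact this

/-- an integrable function times a bounded one -/
private theorem EVg_jb {F Θ : E3 → ℝ} {K c : ℝ} (hF : Integrable F) (hK : ∫ x, |F x| ≤ K)
    (hΘ : AEStronglyMeasurable Θ volume) (hc : ∀ x, |Θ x| ≤ c) :
    Integrable (fun x => F x * Θ x) ∧ ∫ x, |F x * Θ x| ≤ K * c := by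
  have hc0 : 0 ≤ c := (abs_nonneg _).trans (hc 0)
  have hpt : ∀ x, |F x * Θ x| ≤ |F x| * c := fun x => by
    rw [abs_mul]
    exact mul_le_mul_of_nonneg_left (hc x) (abs_nonneg _)
  have hb : Integrable (fun x => |F x| * c) := hF.abs.mul_const c
  have hi : Integrable (fun x => F x * Θ x) := by
    refine hb.mono' (hF.aestronglyMeasurable.mul hΘ) (Filter.Eventually.of_forall fun x => ?_)
    rw [Real.norm_eq_abs]
    exact hpt x
  refine ⟨hi, (integral_mono hi.abs hb hpt).trans ?_⟩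
  rw [integral_mul_const]
  exact mul_le_mul_of_nonneg_right hK hc0

/-- the terms without derivatives of the test function -/
private noncomputable def EVg_P (j : ℝ → ℝ) (f G χ : E3 → ℝ) (x : E3) : ℝ :=
  (deriv j (f x) * G x - deriv (deriv j) (f x) * gsq f x) * χ x

private theorem EVg_jcP (hf : Evo T u f G) {j : ℝ → ℝ} (hj : JFun j) {χ : E3 → ℝ}
    (hχ : Continuous χ) : JC T (fun t => EVg_P j (f t) (G t) χ) := by
  obtain ⟨h1, h2, h3, h4⟩ := evo_jc hf hj
  exact (ContinuousOn.sub h3 h2).mul (hχ.comp continuous_snd).continuousOn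

private theorem EVg_Pbd (hf : Evo T u f G) {j : ℝ → ℝ} (hj : JFun j) {b : ℝ} (hb : b < T) :
    ∃ D : ℝ, ∀ (χ : E3 → ℝ), Continuous χ → (∀ x, |χ x| ≤ 1) → ∀ t ∈ Icc 0 b,
      Integrable (EVg_P j (f t) (G t) χ) ∧ ∫ x, |EVg_P j (f t) (G t) χ x| ≤ D := by
  obtain ⟨K, hK⟩ := evo_bd hf hj hb
  refine ⟨K + K, fun χ hχ hχ1 t ht => ?_⟩
  obtain ⟨h1, ⟨h2, h2'⟩, ⟨h3, h3'⟩⟩ := hK t ht
  have ht' : t ∈ Ico 0 T := ⟨ht.1, ht.2.trans_lt hb⟩
  have hc := EVg_slice (EVg_jcP hf hj hχ) ht'
  have hpt : ∀ x, |EVg_P j (f t) (G t) χ x| ≤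
      |deriv j (f t x) * G t x| + |deriv (deriv j) (f t x) * gsq (f t) x| := by
    intro x
    unfold EVg_P
    rw [abs_mul]
    refine (mul_le_mul_of_nonneg_left (hχ1 x) (abs_nonneg _)).trans ?_
    rw [mul_one]
    exact abs_sub _ _
  have hbi := h3.abs.add h2.abs
  have hi : Integrable (EVg_P j (f t) (G t) χ) := by
    refine hbi.mono' hc.aestronglyMeasurable (Filter.Eventually.of_forall fun x => ?_)
    rw [Real.norm_eq_abs]
    exact hpt x
  refine ⟨hi, (integral_mono hi.abs hbi hpt).trans ?_⟩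
  have h5 := integral_add h3.abs h2.abs
  simp only [Pi.add_apply] at h5 ⊢
  rw [h5]
  linarith

/-- the integration by parts for a test function with compact support -/
private theorem EVg_lap (hf : Evo T u f G) {j : ℝ → ℝ} (hj : JFun j) {χ : E3 → ℝ}
    (hχ : ContDiff ℝ ∞ χ) (hcs : HasCompactSupport χ) {t : ℝ} (ht : t ∈ Ico 0 T) :
    Integrable (fun x => j (f t x) * lap χ x +
      deriv j (f t x) * (∑ i, pd i (f t) x * pd i χ x)) ∧
    ∫ x, (j (f t x) * lap χ x + deriv j (f t x) * (∑ i, pd i (f t) x * pd i χ x)) = 0 := by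
  obtain ⟨K, hK⟩ := hf.bd t ht.2
  have hfd := (hK t ⟨ht.1, le_rfl⟩).1
  have hfs : ContDiff ℝ 1 (f t) := (hf.smooth t ht).of_le (by simp)
  have hjs : ContDiff ℝ 1 j := hj.smooth.of_le (by simp)
  obtain ⟨K', hK'⟩ := comp_DB hjs hj.zero K
  have hjf := hK' (f t) hfs hfd
  have hjfs : ContDiff ℝ 1 (fun y => j (f t y)) := hjs.comp hfs
  have e1 : (fun x => j (f t x) * lap χ x + deriv j (f t x) * (∑ i, pd i (f t) x * pd i χ x)) =
      fun x => ∑ i, (pd i (pd i χ) x * j (f t x) + pd i χ x * pd i (fun y => j (f t y)) x) := by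
    funext x
    unfold lap
    rw [Finset.mul_sum, Finset.mul_sum, ← Finset.sum_add_distrib]
    refine Finset.sum_congr rfl fun i _ => ?_
    rw [comp_pd hfs hjs i x]
    ring
  have hgs : ∀ i, ContDiff ℝ ∞ (pd i χ) := fun i => pd_smooth hχ i
  have hci : ∀ i, HasCompactSupport (pd i χ) := fun i => hcs.fderiv_apply (𝕜 := ℝ) (e i)
  have i1 : ∀ i, Integrable (fun x => pd i (pd i χ) x * j (f t x)) := fun i => by
    have hc : Continuous (fun x => pd i (pd i χ) x * j (f t x)) :=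
      (pd_smooth (hgs i) i).continuous.mul hjfs.continuous
    have hs : HasCompactSupport (pd i (pd i χ)) := (hci i).fderiv_apply (𝕜 := ℝ) (e i)
    exact hc.integrable_of_hasCompactSupport hs.mul_right
  have i2 : ∀ i, Integrable (fun x => pd i χ x * pd i (fun y => j (f t y)) x) := fun i => by
    have hc : Continuous (fun x => pd i χ x * pd i (fun y => j (f t y)) x) :=
      (hgs i).continuous.mul (pd_cont hjfs i)
    exact hc.integrable_of_hasCompactSupport (hci i).mul_right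
  have i3 : ∀ i ∈ (Finset.univ : Finset (Fin 3)), Integrable (fun x =>
      pd i (pd i χ) x * j (f t x) + pd i χ x * pd i (fun y => j (f t y)) x) := fun i _ =>
    (i1 i).add (i2 i)
  rw [e1]
  refine ⟨integrable_finsetSum _ i3, ?_⟩
  rw [integral_finsetSum _ i3]
  refine Finset.sum_eq_zero fun i _ => ?_
  obtain ⟨K2, hK2⟩ := EVg_DB1 (hgs i) (hci i)
  have h := ibp ((hgs i).of_le (by simp)) hjfs hK2 hjf i
  have h3 := integral_add (i1 i) (i2 i)
  rw [h3, h]
  ring

/-- the bounded factor -/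
private noncomputable def EVg_Th (v : E3 → E3) (χ : E3 → ℝ) (x : E3) : ℝ :=
  adv (v x) χ x + lap χ x - 2 / rsq x * rdr χ x

private theorem EVg_evJ (j : ℝ → ℝ) (v : E3 → E3) (f G χ : E3 → ℝ) (x : E3) :
    evJ j v f G χ x = EVg_P j f G χ x + j (f x) * EVg_Th v χ x := by
  unfold evJ EVg_P EVg_Th
  ring

private theorem EVg_lap_cont {χ : E3 → ℝ} (hχ : ContDiff ℝ ∞ χ) : Continuous (lap χ) := by
  unfold lap
  exact continuous_finsetSum _ fun i _ => (pd_smooth (pd_smooth hχ i) i).continuous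

private theorem EVg_m_meas {χ : E3 → ℝ} (hχ : ContDiff ℝ ∞ χ) :
    Measurable (fun x => 2 / rsq x * rdr χ x) :=
  (measurable_const.div EVg_rsq_cont.measurable).mul (EVg_rdr_cont hχ).measurable

private theorem EVg_adv_le {v : E3} {Ku M : ℝ} {φ : E3 → ℝ} {x : E3} (hv : ‖v‖ ≤ Ku)
    (hM : ∀ i, |pd i φ x| ≤ M) : |adv v φ x| ≤ 3 * (Ku * M) := by
  have hKu : 0 ≤ Ku := (norm_nonneg _).trans hv
  unfold adv
  refine (Finset.abs_sum_le_sum_abs _ _).trans ?_
  have : ∀ i ∈ (Finset.univ : Finset (Fin 3)), |v i * pd i φ x| ≤ Ku * M := fun i _ => by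
    rw [abs_mul]
    exact mul_le_mul ((EVg_coord_le v i).trans hv) (hM i) (abs_nonneg _) hKu
  refine (Finset.sum_le_sum this).trans (le_of_eq ?_)
  rw [Finset.sum_const, Finset.card_univ, Fintype.card_fin, nsmul_eq_mul]
  norm_num

private theorem EVg_adv_jc (hu : Drift T u) {φ : E3 → ℝ} (hφ : ContDiff ℝ ∞ φ) :
    JC T (fun t x => adv (u t x) φ x) := by
  have h3 : ContinuousOn (fun p : ℝ × E3 => adv (u p.1 p.2) φ p.2) (Ico 0 T ×ˢ univ) := by
    unfold adv
    refine continuousOn_finsetSum _ fun i _ => ?_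
    exact ((continuous_coord i).comp_continuousOn hu.cont).mul
      ((pd_smooth hφ i).continuous.comp continuous_snd).continuousOn
  exact h3

/-- bounds for the integrand with a general weight -/
private theorem EVg_main (hu : Drift T u) (hf : Evo T u f G) {j : ℝ → ℝ} (hj : JFun j)
    {χ : E3 → ℝ} (hχ : Wg χ) {a b : ℝ} (ha : 0 ≤ a) (hb : b < T) :
    EVg_AM a b (fun t => evJ j (u t) (f t) (G t) χ) ∧ ∃ K, ∀ t ∈ Icc 0 b,
      Integrable (fun x => evJ j (u t) (f t) (G t) χ x) ∧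
        ∫ x, |evJ j (u t) (f t) (G t) χ x| ≤ K := by
  obtain ⟨C, hC⟩ := hχ.bd
  have hχc : Continuous χ := hχ.smooth.continuous
  have hχ1 : ∀ x, |χ x| ≤ 1 := fun x => abs_le.2 ⟨by linarith [hχ.nonneg x], hχ.le_one x⟩
  have hC0 : 0 ≤ C := (abs_nonneg _).trans ((hC 0).1 0)
  have hm : ∀ x, |2 / rsq x * rdr χ x| ≤ 2 * C := fun x => by
    rcases (EVg_rsq_nonneg x).eq_or_lt with h | h
    · rw [← h, div_zero, zero_mul, abs_zero]
      positivity
    · rw [abs_mul, abs_of_pos (by positivity : 0 < 2 / rsq x)]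
      calc 2 / rsq x * |rdr χ x| ≤ 2 / rsq x * (C * rsq x) :=
            mul_le_mul_of_nonneg_left (hC x).2.2 (by positivity)
        _ = 2 * C := by field_simp
  have hjc := (evo_jc hf hj).1
  constructor
  · have h1 := EVg_am (EVg_jcP hf hj hχc) (a := a) ha hb
    have h2 := EVg_am hjc (a := a) ha hb
    have h3 := EVg_am (JC_add (EVg_adv_jc hu hχ.smooth) (JC_const (EVg_lap_cont hχ.smooth)))
      (a := a) ha hb
    have h4 := EVg_am_const (EVg_m_meas hχ.smooth) a b
    have h5 := AEStronglyMeasurable.add h1 (AEStronglyMeasurable.mul h2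
      (AEStronglyMeasurable.sub h3 h4))
    refine h5.congr (Filter.Eventually.of_forall fun q => ?_)
    simp only [Pi.add_apply, Pi.mul_apply, Pi.sub_apply]
    rw [EVg_evJ]
    rfl
  · obtain ⟨Ku, hKu⟩ := hu.bd b hb
    obtain ⟨K', hK'⟩ := evo_bd hf hj hb
    obtain ⟨D, hD⟩ := EVg_Pbd hf hj hb
    refine ⟨D + K' * (3 * (|Ku| * C) + C + 2 * C), fun t ht => ?_⟩
    have ht' : t ∈ Ico 0 T := ⟨ht.1, ht.2.trans_lt hb⟩
    have hTh : ∀ x, |EVg_Th (u t) χ x| ≤ 3 * (|Ku| * C) + C + 2 * C := fun x => by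
      unfold EVg_Th
      refine (abs_sub _ _).trans (add_le_add ((abs_add_le _ _).trans (add_le_add ?_ (hC x).2.1))
        (hm x))
      exact EVg_adv_le ((hKu t ht x).trans (le_abs_self Ku)) (hC x).1
    have hThm : AEStronglyMeasurable (EVg_Th (u t) χ) volume := by
      have h1 : Measurable (fun x => adv (u t x) χ x + lap χ x) :=
        ((EVg_slice (EVg_adv_jc hu hχ.smooth) ht').add (EVg_lap_cont hχ.smooth)).measurable
      exact (h1.sub (EVg_m_meas hχ.smooth)).aestronglyMeasurable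
    obtain ⟨p1, p2⟩ := hD χ hχc hχ1 t ht
    obtain ⟨r1, r2⟩ := EVg_jb (hK' t ht).1.1 (hK' t ht).1.2 hThm hTh
    have e : (fun x => evJ j (u t) (f t) (G t) χ x) =
        fun x => EVg_P j (f t) (G t) χ x + j (f t x) * EVg_Th (u t) χ x :=
      funext fun x => EVg_evJ _ _ _ _ _ x
    have e2 : (fun x => |evJ j (u t) (f t) (G t) χ x|) =
        fun x => |EVg_P j (f t) (G t) χ x + j (f t x) * EVg_Th (u t) χ x| :=
      funext fun x => by rw [EVg_evJ]
    rw [e, e2]
    refine ⟨p1.add r1, ?_⟩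
    have h1 : ∫ x, |EVg_P j (f t) (G t) χ x + j (f t x) * EVg_Th (u t) χ x| ≤
        ∫ x, (|EVg_P j (f t) (G t) χ x| + |j (f t x) * EVg_Th (u t) χ x|) :=
      integral_mono (p1.add r1).abs (p1.abs.add r1.abs) fun x => abs_add_le _ _
    rw [integral_add p1.abs r1.abs] at h1
    linarith

/-- the Laplacian of a product -/
private theorem EVg_lap_mul {A B : E3 → ℝ} (hA : ContDiff ℝ ∞ A) (hB : ContDiff ℝ ∞ B) (x : E3) :
    lap (fun y => A y * B y) x = A x * lap B x + B x * lap A x +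
      2 * ∑ i, pd i A x * pd i B x := by
  have h1 : ∀ i, pd i (fun y => A y * B y) = fun x => A x * pd i B x + B x * pd i A x := fun i =>
    funext fun x => EVg_pd_mul (hA.of_le (by simp)) (hB.of_le (by simp)) i x
  unfold lap
  rw [Finset.mul_sum, Finset.mul_sum, Finset.mul_sum, ← Finset.sum_add_distrib,
    ← Finset.sum_add_distrib]
  refine Finset.sum_congr rfl fun i _ => ?_
  have a1 : ContDiff ℝ 1 A := hA.of_le (by simp)
  have b1 : ContDiff ℝ 1 B := hB.of_le (by simp)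
  have a2 : ContDiff ℝ 1 (pd i A) := (pd_smooth hA i).of_le (by simp)
  have b2 : ContDiff ℝ 1 (pd i B) := (pd_smooth hB i).of_le (by simp)
  rw [h1 i, EVg_pd_add (A := fun x => A x * pd i B x) (B := fun x => B x * pd i A x)
    (a1.mul b2) (b1.mul a2), EVg_pd_mul a1 b2, EVg_pd_mul b1 a2]
  ring

/-- the error term -/
private noncomputable def EVg_R (j : ℝ → ℝ) (v : E3 → E3) (f χ φ q : E3 → ℝ) (x : E3) : ℝ :=
  j (f x) * (χ x * (adv (v x) φ x + (lap φ x - q x)) + 2 * ∑ i, pd i χ x * pd i φ x)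

private theorem EVg_prod {j : ℝ → ℝ} {v : E3 → E3} {f G χ φ q : E3 → ℝ} (hχ : ContDiff ℝ ∞ χ)
    (hφ : ContDiff ℝ ∞ φ) {x : E3} (hx : rsq x ≠ 0) (hq : rdr φ x = q x / 2 * rsq x) :
    evJ j v f G (fun y => χ y * φ y) x = evJ j v f G χ x * φ x + EVg_R j v f χ φ q x := by
  have c1 : ContDiff ℝ 1 χ := hχ.of_le (by simp)
  have c2 : ContDiff ℝ 1 φ := hφ.of_le (by simp)
  have hpd : ∀ i, pd i (fun y => χ y * φ y) x = χ x * pd i φ x + φ x * pd i χ x :=
    fun i => EVg_pd_mul c1 c2 i x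
  have hrd : rdr (fun y => χ y * φ y) x = χ x * rdr φ x + φ x * rdr χ x := by
    unfold rdr
    rw [hpd, hpd]
    ring
  have had : adv (v x) (fun y => χ y * φ y) x = χ x * adv (v x) φ x + φ x * adv (v x) χ x := by
    unfold adv
    rw [Finset.mul_sum, Finset.mul_sum, ← Finset.sum_add_distrib]
    refine Finset.sum_congr rfl fun i _ => ?_
    rw [hpd]
    ring
  have hq2 : 2 / rsq x * rdr φ x = q x := by
    rw [hq]
    field_simp
  have e1 : 2 / rsq x * (χ x * rdr φ x + φ x * rdr χ x) =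
      χ x * q x + φ x * (2 / rsq x * rdr χ x) := by
    rw [← hq2]
    ring
  unfold evJ EVg_R
  rw [hrd, had, EVg_lap_mul hχ hφ, e1]
  ring

theorem evg (hu : Drift T u) (hf : Evo T u f G) {j : ℝ → ℝ} (hj : JFun j) {χ : E3 → ℝ} (hχ : Wg χ)
    {a b : ℝ} (ha : 0 ≤ a) (hab : a ≤ b) (hb : b < T) :
    ∫ x, j (f b x) * χ x ≤ (∫ x, j (f a x) * χ x) + ∫ t in a..b, ∫ x, evJ j (u t) (f t) (G t) χ x := by
  obtain ⟨C, hC⟩ := hχ.bd
  obtain ⟨hAM, K, hK⟩ := EVg_main hu hf hj hχ (a := a) ha hb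
  obtain ⟨φ, q, κ, φs, φc, φ0, φ1, φl, φpd, qc, qb, qr, φlap, κ0⟩ := EVg_cut
  obtain ⟨Ku, hKu⟩ := hu.bd b hb
  obtain ⟨K', hK'⟩ := evo_bd hf hj hb
  have hC0 : 0 ≤ C := (abs_nonneg _).trans ((hC 0).1 0)
  have hχc : Continuous χ := hχ.smooth.continuous
  have hχ1 : ∀ x, |χ x| ≤ 1 := fun x => abs_le.2 ⟨by linarith [hχ.nonneg x], hχ.le_one x⟩
  have hφ1 : ∀ n x, |φ n x| ≤ 1 := fun n x => abs_le.2 ⟨by linarith [φ0 n x], φ1 n x⟩
  have hκ : ∀ n, 0 ≤ κ n := fun n => (abs_nonneg _).trans (qb n 0)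
  set Φ : ℝ → E3 → ℝ := fun t => evJ j (u t) (f t) (G t) χ with hΦ
  have hΦb : ∀ t ∈ Icc a b, Integrable (Φ t) ∧ ∫ x, |Φ t x| ≤ K := fun t ht =>
    hK t ⟨ha.trans ht.1, ht.2⟩
  -- the error term
  have hEc : ∀ n, JC T (fun t => EVg_R j (u t) (f t) χ (φ n) (q n)) := fun n => by
    have h1 := EVg_lap_cont (φs n)
    have h2 : Continuous (fun x => 2 * ∑ i, pd i χ x * pd i (φ n) x) :=
      continuous_const.mul (continuous_finsetSum _ fun i _ =>
        (pd_smooth hχ.smooth i).continuous.mul (pd_smooth (φs n) i).continuous)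
    exact JC_mul (evo_jc hf hj).1 (JC_add (JC_mul (JC_const hχc)
      (JC_add (EVg_adv_jc hu (φs n)) (JC_const (h1.sub (qc n))))) (JC_const h2))
  have hEb : ∀ n, ∀ t ∈ Icc a b, Integrable (EVg_R j (u t) (f t) χ (φ n) (q n)) ∧
      ∫ x, |EVg_R j (u t) (f t) χ (φ n) (q n) x| ≤
        K' * ((3 * |Ku| + 2 + 6 * C) * κ n) := by
    intro n t ht
    have ht0 : t ∈ Icc 0 b := ⟨ha.trans ht.1, ht.2⟩
    have ht' : t ∈ Ico 0 T := ⟨ht0.1, ht0.2.trans_lt hb⟩
    have h1 := EVg_lap_cont (φs n)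
    have h2 : Continuous (fun x => 2 * ∑ i, pd i χ x * pd i (φ n) x) :=
      continuous_const.mul (continuous_finsetSum _ fun i _ =>
        (pd_smooth hχ.smooth i).continuous.mul (pd_smooth (φs n) i).continuous)
    have hc : Continuous (fun x => χ x * (adv (u t x) (φ n) x + (lap (φ n) x - q n x)) +
        2 * ∑ i, pd i χ x * pd i (φ n) x) :=
      (hχc.mul ((EVg_slice (EVg_adv_jc hu (φs n)) ht').add (h1.sub (qc n)))).add h2
    refine EVg_jb (hK' t ht0).1.1 (hK' t ht0).1.2 hc.aestronglyMeasurable fun x => ?_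
    have g1 : |χ x * (adv (u t x) (φ n) x + (lap (φ n) x - q n x))| ≤
        3 * (|Ku| * κ n) + (κ n + κ n) := by
      rw [abs_mul]
      have g3 : |adv (u t x) (φ n) x + (lap (φ n) x - q n x)| ≤
          3 * (|Ku| * κ n) + (κ n + κ n) :=
        (abs_add_le _ _).trans (add_le_add (EVg_adv_le ((hKu t ht0 x).trans (le_abs_self Ku))
          (fun i => φpd n i x)) ((abs_sub _ _).trans (add_le_add (φlap n x) (qb n x))))
      exact (mul_le_of_le_one_left (abs_nonneg _) (hχ1 x)).trans g3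
    have g2 : |2 * ∑ i, pd i χ x * pd i (φ n) x| ≤ 6 * (C * κ n) := by
      rw [abs_mul, abs_of_nonneg (by norm_num : (0 : ℝ) ≤ 2)]
      have g4 : |∑ i, pd i χ x * pd i (φ n) x| ≤ 3 * (C * κ n) := by
        refine (Finset.abs_sum_le_sum_abs _ _).trans ?_
        have : ∀ i ∈ (Finset.univ : Finset (Fin 3)), |pd i χ x * pd i (φ n) x| ≤ C * κ n :=
          fun i _ => by
            rw [abs_mul]
            exact mul_le_mul ((hC x).1 i) (φpd n i x) (abs_nonneg _) hC0
        refine (Finset.sum_le_sum this).trans (le_of_eq ?_)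
        rw [Finset.sum_const, Finset.card_univ, Fintype.card_fin, nsmul_eq_mul]
        norm_num
      linarith
    refine (abs_add_le _ _).trans ((add_le_add g1 g2).trans (le_of_eq ?_))
    ring
  have hΦφb : ∀ n, ∀ t ∈ Icc a b, Integrable (fun x => Φ t x * φ n x) ∧
      ∫ x, |Φ t x * φ n x| ≤ K := by
    intro n t ht
    have h := EVg_jb (hΦb t ht).1 (hΦb t ht).2 (φs n).continuous.aestronglyMeasurable (hφ1 n)
    rw [mul_one] at h
    exact h
  have hΦφm : ∀ n, EVg_AM a b (fun t x => Φ t x * φ n x) := fun n =>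
    AEStronglyMeasurable.mul hAM (EVg_am_const (φs n).continuous.measurable a b)
  -- the integrand of the energy identity
  have hnull : ∀ᵐ x : E3, rsq x ≠ 0 := by
    rw [ae_iff]
    simpa using EVg_axis_null
  have hev : ∀ n t, (fun x => evJ j (u t) (f t) (G t) (fun y => χ y * φ n y) x) =ᵐ[volume]
      fun x => Φ t x * φ n x + EVg_R j (u t) (f t) χ (φ n) (q n) x := by
    intro n t
    filter_upwards [hnull] with x hx
    exact EVg_prod hχ.smooth (φs n) hx (qr n x)
  have hint : ∀ n, ∀ t ∈ Icc a b, ∫ x, evI j (u t) (f t) (G t) (fun y => χ y * φ n y) x =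
      (∫ x, Φ t x * φ n x) + ∫ x, EVg_R j (u t) (f t) χ (φ n) (q n) x := by
    intro n t ht
    have ht' : t ∈ Ico 0 T := ⟨ha.trans ht.1, ht.2.trans_lt hb⟩
    obtain ⟨g1, g2⟩ := EVg_lap hf hj (χ := fun y => χ y * φ n y) (hχ.smooth.mul (φs n))
      ((φc n).mul_left) ht'
    have i1 : Integrable (fun x => evJ j (u t) (f t) (G t) (fun y => χ y * φ n y) x) :=
      ((hΦφb n t ht).1.add (hEb n t ht).1).congr (hev n t).symm
    have e1 : (fun x => evI j (u t) (f t) (G t) (fun y => χ y * φ n y) x) = fun x =>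
        evJ j (u t) (f t) (G t) (fun y => χ y * φ n y) x -
        (j (f t x) * lap (fun y => χ y * φ n y) x +
          deriv j (f t x) * (∑ i, pd i (f t) x * pd i (fun y => χ y * φ n y) x)) := by
      funext x
      unfold evI evJ
      ring
    rw [e1, integral_sub i1 g1, g2, sub_zero, integral_congr_ae (hev n t)]
    exact integral_add (hΦφb n t ht).1 (hEb n t ht).1
  have huI : uIcc a b ⊆ Icc a b := by
    rw [uIcc_of_le hab]
  -- the inequality for the cut off weight
  have h1 : ∀ n, ∫ x, j (f b x) * (χ x * φ n x) ≤ (∫ x, j (f a x) * (χ x * φ n x)) +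
      ((∫ t in a..b, ∫ x, Φ t x * φ n x) +
        K' * ((3 * |Ku| + 2 + 6 * C) * κ n) * |b - a|) := by
    intro n
    have hCr : ∀ x, |rdr (fun y => χ y * φ n y) x| ≤ (C + κ n) * rsq x := by
      intro x
      have hrd : rdr (fun y => χ y * φ n y) x = χ x * rdr (φ n) x + φ n x * rdr χ x := by
        unfold rdr
        rw [EVg_pd_mul (hχ.smooth.of_le (by simp)) ((φs n).of_le (by simp)),
          EVg_pd_mul (hχ.smooth.of_le (by simp)) ((φs n).of_le (by simp))]
        ring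
      rw [hrd, qr]
      refine (abs_add_le _ _).trans ?_
      rw [abs_mul, abs_mul, abs_mul, abs_of_nonneg (EVg_rsq_nonneg x), abs_div,
        abs_of_nonneg (by norm_num : (0 : ℝ) ≤ 2)]
      have g1 : |χ x| * (|q n x| / 2 * rsq x) ≤ 1 * (κ n * rsq x) := by
        refine mul_le_mul (hχ1 x) (mul_le_mul_of_nonneg_right ?_ (EVg_rsq_nonneg x)) ?_ zero_le_one
        · have := qb n x
          have := hκ n
          linarith
        · have := EVg_rsq_nonneg x
          positivity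
      have g2 : |φ n x| * |rdr χ x| ≤ 1 * (C * rsq x) :=
        mul_le_mul (hφ1 n x) (hC x).2.2 (abs_nonneg _) zero_le_one
      linarith
    have h := ev_axis hu hf hj (ψ := fun y => χ y * φ n y) (hχ.smooth.mul (φs n))
      ((φc n).mul_left) (fun x => mul_nonneg (hχ.nonneg x) (φ0 n x)) hCr ha hab hb
    refine h.trans (add_le_add le_rfl ?_)
    have h2 : ∫ t in a..b, ∫ x, evI j (u t) (f t) (G t) (fun y => χ y * φ n y) x =
        ∫ t in a..b, ((∫ x, Φ t x * φ n x) + ∫ x, EVg_R j (u t) (f t) χ (φ n) (q n) x) :=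
      intervalIntegral.integral_congr fun t ht => hint n t (huI ht)
    rw [h2, intervalIntegral.integral_add (EVg_ti hab (hΦφm n) fun t ht => (hΦφb n t ht).2)
      (EVg_ti hab (EVg_am (hEc n) ha hb) fun t ht => (hEb n t ht).2)]
    refine add_le_add le_rfl ?_
    have h3 := intervalIntegral.norm_integral_le_of_norm_le_const (a := a) (b := b)
      (C := K' * ((3 * |Ku| + 2 + 6 * C) * κ n))
      (f := fun t => ∫ x, EVg_R j (u t) (f t) χ (φ n) (q n) x) (fun t ht => by
        have ht' : t ∈ Icc a b := huI (uIoc_subset_uIcc ht)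
        exact EVg_bound (hEb n t ht').2)
    exact (le_abs_self _).trans h3
  -- limits
  have hbI : b ∈ Ico 0 T := ⟨ha.trans hab, hb⟩
  have haI : a ∈ Ico 0 T := ⟨ha, hab.trans_lt hb⟩
  have hlim : ∀ t ∈ Ico 0 T, Tendsto (fun n => ∫ x, j (f t x) * (χ x * φ n x)) atTop
      (𝓝 (∫ x, j (f t x) * χ x)) := by
    intro t ht
    have hi := (evo_int hf hj ht).1
    refine tendsto_integral_of_dominated_convergence (fun x => |j (f t x)|) (fun n => ?_) hi.abs
      (fun n => Filter.Eventually.of_forall fun x => ?_)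
      (Filter.Eventually.of_forall fun x => ?_)
    · exact hi.aestronglyMeasurable.mul (hχc.mul (φs n).continuous).aestronglyMeasurable
    · rw [Real.norm_eq_abs, abs_mul, abs_mul]
      refine mul_le_of_le_one_right (abs_nonneg _) ?_
      exact mul_le_one₀ (hχ1 x) (abs_nonneg _) (hφ1 n x)
    · have h := ((φl x).const_mul (χ x)).const_mul (j (f t x))
      rw [mul_one] at h
      exact h
  have hlim2 := EVg_tail hab hAM hΦb (fun n => (φs n).continuous) hφ1 φl
  have hlim3 : Tendsto (fun n => K' * ((3 * |Ku| + 2 + 6 * C) * κ n) * |b - a|) atTop (𝓝 0) := by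
    have h := ((κ0.const_mul (3 * |Ku| + 2 + 6 * C)).const_mul K').mul_const |b - a|
    rw [mul_zero, mul_zero, zero_mul] at h
    exact h
  have hfin := le_of_tendsto_of_tendsto' (hlim b hbI)
    ((hlim a haI).add (hlim2.add hlim3)) h1
  rw [add_zero] at hfin
  exact hfin

theorem evg_ii (hu : Drift T u) (hf : Evo T u f G) {j : ℝ → ℝ} (hj : JFun j) {χ : E3 → ℝ} (hχ : Wg χ)
    {a b : ℝ} (ha : 0 ≤ a) (hab : a ≤ b) (hb : b < T) :
    IntervalIntegrable (fun t => ∫ x, evJ j (u t) (f t) (G t) χ x) volume a b ∧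
    ∀ t ∈ Icc a b, Integrable (fun x => evJ j (u t) (f t) (G t) χ x) := by
  obtain ⟨h1, K, hK⟩ := EVg_main hu hf hj hχ (a := a) ha hb
  exact ⟨EVg_ti hab h1 fun t ht => (hK t ⟨ha.trans ht.1, ht.2⟩).2,
    fun t ht => (hK t ⟨ha.trans ht.1, ht.2⟩).1⟩

end Pool.Agent.H87.NS
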