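/-
ROW HLoc. Local Hardy inequality and local form bound. PROOF. hardy_loc: let `η` be smooth, `0 ≤ η ≤ 1`, `η = 1` on `ball y ρ`, `η = 0` outside `ball y (2ρ)`,
`|pd i η| ≤ C₁ / ρ` (`η(x) = φ((x - y)/ρ)` with a fixed `φ`, e.g. `ContDiffBump`, or `Real.smoothTransition (4 - ‖x-y‖²/ρ²)`-type). hardy for `η G` (centre `y`):
`∫_{ball y ρ} G²/‖x-y‖² ≤ ∫ (ηG)²/‖x-y‖² ≤ 4 ∫ gsq (η G) ≤ 8 ∫_{ball y (2ρ)} (gsq G + 3 C₁² G² / ρ²)`.
S1_loc: for `x` off the axis (axis_null), `|W(x)| G(x)² ≤ c ∫_{‖x-y‖<ρ} |Om(y)| G(x)² / ‖x-y‖² dy + B G(x)²`. By Tonelli (`lintegral`) and hardy_loc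
`∫∫_{‖x-y‖<ρ} |Om(y)| G(x)²/‖x-y‖² dy dx = ∫ |Om(y)| ∫_{x ∈ ball y ρ} G(x)²/‖x-y‖² ≤ C ∫ |Om(y)| ∫_{x ∈ ball y (2ρ)} (gsq G + G²/ρ²)
= C ∫ (gsq G(x) + G(x)²/ρ²) (∫_{y ∈ ball x (2ρ)} |Om(y)|) dx ≤ C m ∫ (gsq G + G²/ρ²)`.
-/
import Pool.Agent.H87.NS.S1

set_option autoImplicit false

open Set Filter Topology MeasureTheory
open scoped ContDiff

namespace Pool.Agent.H87.NS

open Pool.Agent.H16

/-- the profile of the cutoff function -/
noncomputable def HLoc_psi (t : ℝ) : ℝ := Real.smoothTransition ((4 - t) / 3)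

theorem HLoc_psi_smooth : ContDiff ℝ 1 HLoc_psi := by
  unfold HLoc_psi
  exact Real.smoothTransition.contDiff.comp ((contDiff_const.sub contDiff_id).div_const 3)

theorem HLoc_psi_bd : ∃ M : ℝ, 0 ≤ M ∧ ∀ t, 0 ≤ t → |deriv HLoc_psi t| ≤ M := by
  obtain ⟨M, hM⟩ := (isCompact_Icc (a := (0 : ℝ)) (b := 4)).exists_bound_of_continuousOn
    (HLoc_psi_smooth.continuous_deriv le_rfl).continuousOn
  have hM0 : 0 ≤ M := (norm_nonneg _).trans (hM 0 ⟨le_rfl, by norm_num⟩)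
  refine ⟨M, hM0, fun t ht => ?_⟩
  rcases le_or_gt t 4 with h | h
  · exact hM t ⟨ht, h⟩
  · have h1 : deriv HLoc_psi t = 0 := by
      have h2 : HLoc_psi =ᶠ[𝓝 t] fun _ => 0 := by
        filter_upwards [lt_mem_nhds h] with s hs
        exact Real.smoothTransition.zero_of_nonpos (by linarith)
      rw [h2.deriv_eq]
      simp
    rw [h1, abs_zero]
    exact hM0

/-- the cutoff function -/
noncomputable def HLoc_eta (y : E3) (ρ : ℝ) (x : E3) : ℝ := HLoc_psi (‖x - y‖ ^ 2 * (ρ ^ 2)⁻¹)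

theorem HLoc_eta_smooth (y : E3) (ρ : ℝ) : ContDiff ℝ 1 (HLoc_eta y ρ) := by
  unfold HLoc_eta
  exact HLoc_psi_smooth.comp (((contDiff_id.sub contDiff_const).norm_sq ℝ).mul contDiff_const)

theorem HLoc_eta_nonneg (y : E3) (ρ : ℝ) (x : E3) : 0 ≤ HLoc_eta y ρ x :=
  Real.smoothTransition.nonneg _

theorem HLoc_eta_le (y : E3) (ρ : ℝ) (x : E3) : HLoc_eta y ρ x ≤ 1 :=
  Real.smoothTransition.le_one _

theorem HLoc_eta_one {y : E3} {ρ : ℝ} (hρ : 0 < ρ) {x : E3} (hx : ‖x - y‖ < ρ) :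
    HLoc_eta y ρ x = 1 := by
  refine Real.smoothTransition.one_of_one_le ?_
  have h1 : ‖x - y‖ ^ 2 * (ρ ^ 2)⁻¹ ≤ 1 := by
    rw [← div_eq_mul_inv, div_le_one (by positivity)]
    exact pow_le_pow_left₀ (norm_nonneg _) hx.le 2
  linarith

theorem HLoc_eta_zero {y : E3} {ρ : ℝ} (hρ : 0 < ρ) {x : E3} (hx : 2 * ρ ≤ ‖x - y‖) :
    HLoc_eta y ρ x = 0 := by
  refine Real.smoothTransition.zero_of_nonpos ?_
  have h1 : 4 ≤ ‖x - y‖ ^ 2 * (ρ ^ 2)⁻¹ := by
    rw [← div_eq_mul_inv, le_div_iff₀ (by positivity)]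
    have := pow_le_pow_left₀ (by positivity) hx 2
    nlinarith
  linarith

theorem HLoc_eta_pd (y : E3) (ρ : ℝ) (x : E3) (i : Fin 3) :
    pd i (HLoc_eta y ρ) x = deriv HLoc_psi (‖x - y‖ ^ 2 * (ρ ^ 2)⁻¹) * (2 * (x - y) i * (ρ ^ 2)⁻¹) := by
  have h0 : ContDiff ℝ 1 (fun x : E3 => ‖x - y‖ ^ 2 * (ρ ^ 2)⁻¹) :=
    ((contDiff_id.sub contDiff_const).norm_sq ℝ).mul contDiff_const
  have h1 := comp_pd h0 HLoc_psi_smooth i x
  have h2 : pd i (fun x : E3 => ‖x - y‖ ^ 2 * (ρ ^ 2)⁻¹) x = 2 * (x - y) i * (ρ ^ 2)⁻¹ := by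
    have h3 : HasFDerivAt (fun x : E3 => x - y) (ContinuousLinearMap.id ℝ E3) x :=
      (hasFDerivAt_id x).sub_const y
    have h4 := (h3.norm_sq).mul_const ((ρ ^ 2)⁻¹)
    unfold pd
    rw [h4.fderiv]
    simp [e, EuclideanSpace.inner_single_right]
    ring
  rw [← h2]
  exact h1

theorem HLoc_abs_coord (z : E3) (i : Fin 3) : |z i| ≤ ‖z‖ := by
  have h := PiLp.norm_apply_le z i
  rwa [Real.norm_eq_abs] at h

theorem HLoc_eta_pd_zero {y : E3} {ρ : ℝ} (hρ : 0 < ρ) {x : E3} (hx : 2 * ρ ≤ ‖x - y‖) (i : Fin 3) :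
    pd i (HLoc_eta y ρ) x = 0 := by
  have h1 : IsLocalMin (HLoc_eta y ρ) x := by
    refine Eventually.of_forall (fun z => ?_)
    rw [HLoc_eta_zero hρ hx]
    exact HLoc_eta_nonneg y ρ z
  unfold pd
  rw [h1.fderiv_eq_zero]
  rfl

theorem HLoc_eta_pd_le {M : ℝ} (hM : ∀ t, 0 ≤ t → |deriv HLoc_psi t| ≤ M) {y : E3} {ρ : ℝ}
    (hρ : 0 < ρ) (x : E3) (i : Fin 3) : pd i (HLoc_eta y ρ) x ^ 2 ≤ 16 * M ^ 2 / ρ ^ 2 := by
  rcases le_or_gt (2 * ρ) ‖x - y‖ with h | h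
  · rw [HLoc_eta_pd_zero hρ h, zero_pow two_ne_zero]
    positivity
  · rw [HLoc_eta_pd]
    have h1 := hM (‖x - y‖ ^ 2 * (ρ ^ 2)⁻¹) (by positivity)
    have h2 : |2 * (x - y) i * (ρ ^ 2)⁻¹| ≤ 4 / ρ := by
      rw [abs_mul, abs_mul, abs_of_pos (by positivity : (0 : ℝ) < (ρ ^ 2)⁻¹), abs_two]
      have h3 : |(x - y) i| ≤ 2 * ρ := (HLoc_abs_coord _ _).trans h.le
      calc 2 * |(x - y) i| * (ρ ^ 2)⁻¹ ≤ 2 * (2 * ρ) * (ρ ^ 2)⁻¹ :=
            mul_le_mul_of_nonneg_right (mul_le_mul_of_nonneg_left h3 (by norm_num)) (by positivity)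
        _ = 4 / ρ := by field_simp; norm_num
    have hM0 : 0 ≤ M := (abs_nonneg _).trans h1
    have h4 : |deriv HLoc_psi (‖x - y‖ ^ 2 * (ρ ^ 2)⁻¹) * (2 * (x - y) i * (ρ ^ 2)⁻¹)| ≤ M * (4 / ρ) := by
      rw [abs_mul]
      exact mul_le_mul h1 h2 (abs_nonneg _) hM0
    have h5 := pow_le_pow_left₀ (abs_nonneg _) h4 2
    rw [sq_abs] at h5
    refine h5.trans (le_of_eq ?_)
    field_simp
    norm_num

theorem HLoc_BL {f : E3 → ℝ} (hf : Continuous f) (hc : HasCompactSupport f) : ∃ K, BL K f := by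
  obtain ⟨K, hK⟩ := hf.bounded_above_of_compact_support hc
  have h2 : Integrable (fun x => f x ^ 2) := by
    refine (hf.pow 2).integrable_of_hasCompactSupport ?_
    have h3 : f ^ 2 = f * f := pow_two f
    rw [h3]
    exact hc.mul_right
  refine ⟨max K (∫ x, f x ^ 2), fun x => ?_, h2, le_max_right _ _⟩
  have h4 := hK x
  rw [Real.norm_eq_abs] at h4
  exact h4.trans (le_max_left _ _)

theorem HLoc_DB {f : E3 → ℝ} (hf : ContDiff ℝ 1 f) (hc : HasCompactSupport f) : ∃ K, DB 1 K f := by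
  obtain ⟨K, hK⟩ := HLoc_BL hf.continuous hc
  have h1 : ∀ i, ∃ K, BL K (pd i f) := by
    intro i
    refine HLoc_BL (pd_cont hf i) ?_
    have h2 : HasCompactSupport (fun x => fderiv ℝ f x (e i)) := hc.fderiv_apply ℝ (e i)
    exact h2
  choose K' hK' using h1
  have hK0 := BL_nonneg hK
  have hK'0 : ∀ i, 0 ≤ K' i := fun i => BL_nonneg (hK' i)
  have hsum : ∀ i, K' i ≤ ∑ j, K' j := fun i =>
    Finset.single_le_sum (fun j _ => hK'0 j) (Finset.mem_univ i)
  have hs0 : 0 ≤ ∑ j, K' j := Finset.sum_nonneg (fun j _ => hK'0 j)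
  refine ⟨K + ∑ j, K' j, BL_mono hK (by linarith), fun i => ?_⟩
  exact BL_mono (hK' i) (by linarith [hsum i])

theorem HLoc_ball (x y : E3) (ρ : ℝ) : y ∈ Metric.ball x ρ ↔ ‖x - y‖ < ρ := by
  rw [Metric.mem_ball, dist_comm, dist_eq_norm]

theorem HLoc_ind (f : E3 → ℝ) (x : E3) (ρ : ℝ) (y : E3) :
    (Metric.ball x ρ).indicator f y = if ‖x - y‖ < ρ then f y else 0 := by
  by_cases h : ‖x - y‖ < ρ
  · rw [if_pos h, Set.indicator_of_mem ((HLoc_ball x y ρ).2 h)]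
  · rw [if_neg h, Set.indicator_of_notMem (fun h' => h ((HLoc_ball x y ρ).1 h'))]

theorem HLoc_set (f : E3 → ℝ) (x : E3) (ρ : ℝ) :
    ∫ y in Metric.ball x ρ, f y = ∫ y, if ‖x - y‖ < ρ then f y else 0 := by
  rw [← integral_indicator measurableSet_ball]
  exact integral_congr_ae (Eventually.of_forall fun y => HLoc_ind f x ρ y)

theorem HLoc_set' (f : E3 → ℝ) (y : E3) (ρ : ℝ) :
    ∫ x in Metric.ball y ρ, f x = ∫ x, if ‖x - y‖ < ρ then f x else 0 := by
  rw [HLoc_set]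
  simp only [norm_sub_rev y]

theorem HLoc_gsq_int {G : E3 → ℝ} {K : ℝ} (hK : DB 1 K G) (ρ : ℝ) :
    Integrable (fun x => gsq G x + G x ^ 2 / ρ ^ 2) :=
  (gsq_int hK).1.add ((DB_BL hK).2.1.div_const _)

theorem hardy_loc : ∃ C : ℝ, 0 < C ∧ ∀ (G : E3 → ℝ) (K : ℝ), ContDiff ℝ 1 G → DB 1 K G → ∀ (ρ : ℝ), 0 < ρ → ∀ y : E3,
    ∫ x in Metric.ball y ρ, G x ^ 2 / ‖x - y‖ ^ 2 ≤ C * ∫ x in Metric.ball y (2 * ρ), (gsq G x + G x ^ 2 / ρ ^ 2) := by
  obtain ⟨M, hM0, hM⟩ := HLoc_psi_bd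
  refine ⟨8 * (1 + 48 * M ^ 2), by positivity, fun G K hG hK ρ hρ y => ?_⟩
  have hη := HLoc_eta_smooth y ρ
  have hηc : HasCompactSupport (HLoc_eta y ρ) := by
    refine HasCompactSupport.intro (isCompact_closedBall y (2 * ρ)) (fun x hx => ?_)
    refine HLoc_eta_zero hρ ?_
    rw [Metric.mem_closedBall, dist_eq_norm] at hx
    exact (not_le.1 hx).le
  obtain ⟨K', hK'⟩ := HLoc_DB (hη.mul hG) (hηc.mul_right)
  have hh := hardy (hη.mul hG) hK' y
  simp only [norm_sub_rev y] at hh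
  have hgi := HLoc_gsq_int hK ρ
  have hpt : ∀ x, gsq (fun x => HLoc_eta y ρ x * G x) x ≤
      if ‖x - y‖ < 2 * ρ then 2 * (1 + 48 * M ^ 2) * (gsq G x + G x ^ 2 / ρ ^ 2) else 0 := by
    intro x
    have hpd : ∀ i, pd i (fun x => HLoc_eta y ρ x * G x) x =
        HLoc_eta y ρ x * pd i G x + G x * pd i (HLoc_eta y ρ) x := by
      intro i
      unfold pd
      rw [fderiv_fun_mul (hη.differentiable one_ne_zero x) (hG.differentiable one_ne_zero x)]
      rfl
    unfold gsq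
    simp only [hpd]
    split_ifs with hx
    · have h1 : ∀ i ∈ (Finset.univ : Finset (Fin 3)),
          (HLoc_eta y ρ x * pd i G x + G x * pd i (HLoc_eta y ρ) x) ^ 2 ≤
          2 * pd i G x ^ 2 + 32 * M ^ 2 * (G x ^ 2 / ρ ^ 2) := by
        intro i _
        have h2 := HLoc_eta_pd_le hM hρ x i (y := y)
        have h3 : HLoc_eta y ρ x ^ 2 ≤ 1 := by
          have := pow_le_pow_left₀ (HLoc_eta_nonneg y ρ x) (HLoc_eta_le y ρ x) 2
          simpa using this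
        have h4 : (HLoc_eta y ρ x * pd i G x + G x * pd i (HLoc_eta y ρ) x) ^ 2 ≤
            2 * (HLoc_eta y ρ x ^ 2 * pd i G x ^ 2) + 2 * (G x ^ 2 * pd i (HLoc_eta y ρ) x ^ 2) := by
          linarith only [sq_nonneg (HLoc_eta y ρ x * pd i G x - G x * pd i (HLoc_eta y ρ) x)]
        have h5 : HLoc_eta y ρ x ^ 2 * pd i G x ^ 2 ≤ 1 * pd i G x ^ 2 :=
          mul_le_mul_of_nonneg_right h3 (sq_nonneg _)
        have h6 : G x ^ 2 * pd i (HLoc_eta y ρ) x ^ 2 ≤ G x ^ 2 * (16 * M ^ 2 / ρ ^ 2) :=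
          mul_le_mul_of_nonneg_left h2 (sq_nonneg _)
        have h7 : G x ^ 2 * (16 * M ^ 2 / ρ ^ 2) = 16 * M ^ 2 * (G x ^ 2 / ρ ^ 2) := by ring
        rw [h7] at h6
        linarith
      refine (Finset.sum_le_sum h1).trans ?_
      rw [Finset.sum_add_distrib, ← Finset.mul_sum]
      simp only [Finset.sum_const, Finset.card_univ, Fintype.card_fin, nsmul_eq_mul]
      have h8 : 0 ≤ ∑ i, pd i G x ^ 2 := Finset.sum_nonneg fun i _ => sq_nonneg _
      have h9 : 0 ≤ G x ^ 2 / ρ ^ 2 := by positivity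
      have h10 : 0 ≤ M ^ 2 * ∑ i, pd i G x ^ 2 := mul_nonneg (sq_nonneg _) h8
      push_cast
      linarith only [h9, h10]
    · have hx' : 2 * ρ ≤ ‖x - y‖ := not_lt.1 hx
      refine le_of_eq (Finset.sum_eq_zero fun i _ => ?_)
      rw [HLoc_eta_zero hρ hx', HLoc_eta_pd_zero hρ hx']
      ring
  have hgi2 : Integrable (fun x => if ‖x - y‖ < 2 * ρ then
      2 * (1 + 48 * M ^ 2) * (gsq G x + G x ^ 2 / ρ ^ 2) else 0) := by
    have h1 := (hgi.const_mul (2 * (1 + 48 * M ^ 2))).indicator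
      (measurableSet_ball (x := y) (ε := 2 * ρ))
    refine h1.congr (Eventually.of_forall fun x => ?_)
    refine (HLoc_ind _ y (2 * ρ) x).trans ?_
    rw [norm_sub_rev y x]
  have h1 : ∫ x, gsq (fun x => HLoc_eta y ρ x * G x) x ≤
      2 * (1 + 48 * M ^ 2) * ∫ x in Metric.ball y (2 * ρ), (gsq G x + G x ^ 2 / ρ ^ 2) := by
    rw [← integral_const_mul, HLoc_set']
    exact integral_mono (gsq_int hK').1 hgi2 hpt
  have h2 : ∫ x in Metric.ball y ρ, G x ^ 2 / ‖x - y‖ ^ 2 ≤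
      ∫ x, (HLoc_eta y ρ x * G x) ^ 2 / ‖x - y‖ ^ 2 := by
    rw [← integral_indicator measurableSet_ball]
    refine integral_mono_of_nonneg (Eventually.of_forall fun x => ?_) hh.1
      (Eventually.of_forall fun x => ?_)
    · exact Set.indicator_nonneg (fun x _ => by positivity) x
    · show (Metric.ball y ρ).indicator (fun x => G x ^ 2 / ‖x - y‖ ^ 2) x ≤ _
      rw [HLoc_ind, norm_sub_rev y x]
      split_ifs with hx
      · simp only
        rw [HLoc_eta_one hρ hx, one_mul]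
      · positivity
  calc ∫ x in Metric.ball y ρ, G x ^ 2 / ‖x - y‖ ^ 2
      ≤ ∫ x, (HLoc_eta y ρ x * G x) ^ 2 / ‖x - y‖ ^ 2 := h2
    _ ≤ 4 * ∫ x, gsq (fun x => HLoc_eta y ρ x * G x) x := hh.2
    _ ≤ 4 * (2 * (1 + 48 * M ^ 2) * ∫ x in Metric.ball y (2 * ρ), (gsq G x + G x ^ 2 / ρ ^ 2)) :=
        mul_le_mul_of_nonneg_left h1 (by norm_num)
    _ = 8 * (1 + 48 * M ^ 2) * ∫ x in Metric.ball y (2 * ρ), (gsq G x + G x ^ 2 / ρ ^ 2) := by ring

/-- the singular kernel cut off at distance `ρ` -/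
theorem HLoc_near (ρ : ℝ) (x : E3) :
    Integrable (fun y : E3 => if ‖x - y‖ < ρ then 1 / ‖x - y‖ ^ 2 else 0) := by
  have h1 := hint_near_int x
  have h2 : Integrable (fun y : E3 => (Metric.ball x ρ).indicator (fun _ => (1 : ℝ)) y) := by
    rw [integrable_indicator_iff measurableSet_ball]
    exact integrableOn_const (by exact measure_ball_lt_top.ne)
  refine (h1.add h2).mono' ?_ (Eventually.of_forall fun y => ?_)
  · refine (Measurable.ite ?_ ?_ measurable_const).aestronglyMeasurable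
    · exact (isOpen_lt ((continuous_const.sub continuous_id).norm) continuous_const).measurableSet
    · exact measurable_const.div ((continuous_const.sub continuous_id).norm.pow 2).measurable
  · simp only [Pi.add_apply]
    rw [HLoc_ind]
    by_cases h3 : ‖x - y‖ < ρ
    · rw [if_pos h3, if_pos h3, Real.norm_of_nonneg (by positivity)]
      by_cases h4 : ‖x - y‖ < 1
      · rw [if_pos h4]; linarith
      · rw [if_neg h4]
        have h5 : 1 ≤ ‖x - y‖ ^ 2 := by nlinarith [not_lt.1 h4]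
        have h6 : 1 / ‖x - y‖ ^ 2 ≤ 1 := by
          rw [div_le_one (by linarith)]
          exact h5
        linarith
    · rw [if_neg h3, if_neg h3]
      by_cases h4 : ‖x - y‖ < 1
      · rw [if_pos h4]
        simp only [norm_zero, add_zero]
        positivity
      · rw [if_neg h4]; simp

theorem HLoc_near_const (ρ : ℝ) (x : E3) :
    ∫ y : E3, (if ‖x - y‖ < ρ then 1 / ‖x - y‖ ^ 2 else 0) =
      ∫ z : E3, (if ‖z‖ < ρ then 1 / ‖z‖ ^ 2 else 0) :=
  integral_sub_left_eq_self (fun z : E3 => if ‖z‖ < ρ then 1 / ‖z‖ ^ 2 else 0) volume x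

theorem S1_loc : ∃ C : ℝ, 0 < C ∧ ∀ (W Om G : E3 → ℝ) (K₁ K₂ K c B m ρ : ℝ), Continuous W → (∀ x, |W x| ≤ K₁) →
    Continuous Om → (∀ x, |Om x| ≤ K₂) → ContDiff ℝ 1 G → DB 1 K G → 0 ≤ c → 0 ≤ B → 0 < ρ →
    (∀ x, 0 < rad x → |W x| ≤ c * (∫ y in Metric.ball x ρ, |Om y| / ‖x - y‖ ^ 2) + B) →
    (∀ x, ∫ y in Metric.ball x (2 * ρ), |Om y| ≤ m) →
    ∫ x, |W x| * G x ^ 2 ≤ C * c * m * ((∫ x, gsq G x) + (∫ x, G x ^ 2) / ρ ^ 2) + B * ∫ x, G x ^ 2 := by
  obtain ⟨C, hC, hL⟩ := hardy_loc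
  refine ⟨C, hC, fun W Om G K₁ K₂ K c B m ρ hW hWb hOm hOmb hG hK hc hB hρ hker hm => ?_⟩
  have hG2 : Integrable (fun x => G x ^ 2) := (DB_BL hK).2.1
  have hGc : Continuous G := hG.continuous
  have hK₂ : 0 ≤ K₂ := (abs_nonneg _).trans (hOmb 0)
  have hopen : ∀ r : ℝ, MeasurableSet {p : E3 × E3 | ‖p.1 - p.2‖ < r} := fun r =>
    (isOpen_lt ((continuous_fst.sub continuous_snd).norm) continuous_const).measurableSet
  have hOmm : Measurable fun p : E3 × E3 => |Om p.2| := (hOm.comp continuous_snd).abs.measurable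
  -- the first kernel
  have hmeas : Measurable fun p : E3 × E3 =>
      if ‖p.1 - p.2‖ < ρ then |Om p.2| * (G p.1 ^ 2 / ‖p.1 - p.2‖ ^ 2) else 0 := by
    refine Measurable.ite (hopen ρ) ?_ measurable_const
    have h2 : Measurable fun p : E3 × E3 => G p.1 ^ 2 := ((hGc.comp continuous_fst).pow 2).measurable
    have h3 : Measurable fun p : E3 × E3 => ‖p.1 - p.2‖ ^ 2 :=
      ((continuous_fst.sub continuous_snd).norm.pow 2).measurable
    exact hOmm.mul (h2.div h3)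
  have hk0 : ∀ x y : E3, 0 ≤ (if ‖x - y‖ < ρ then |Om y| * (G x ^ 2 / ‖x - y‖ ^ 2) else 0) := by
    intro x y
    split_ifs
    · positivity
    · exact le_rfl
  have hkle : ∀ x y : E3, (if ‖x - y‖ < ρ then |Om y| * (G x ^ 2 / ‖x - y‖ ^ 2) else 0) ≤
      (K₂ * G x ^ 2) * (if ‖x - y‖ < ρ then 1 / ‖x - y‖ ^ 2 else 0) := by
    intro x y
    split_ifs
    · calc |Om y| * (G x ^ 2 / ‖x - y‖ ^ 2) ≤ K₂ * (G x ^ 2 / ‖x - y‖ ^ 2) :=
          mul_le_mul_of_nonneg_right (hOmb y) (by positivity)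
        _ = (K₂ * G x ^ 2) * (1 / ‖x - y‖ ^ 2) := by ring
    · rw [mul_zero]
  have hslice : ∀ x : E3, Integrable (fun y : E3 =>
      if ‖x - y‖ < ρ then |Om y| * (G x ^ 2 / ‖x - y‖ ^ 2) else 0) := by
    intro x
    refine ((HLoc_near ρ x).const_mul (K₂ * G x ^ 2)).mono'
      (hmeas.comp (measurable_prodMk_left (x := x))).aestronglyMeasurable
      (Eventually.of_forall fun y => ?_)
    rw [Real.norm_of_nonneg (hk0 x y)]
    exact hkle x y
  have hprod : Integrable (fun p : E3 × E3 =>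
      if ‖p.1 - p.2‖ < ρ then |Om p.2| * (G p.1 ^ 2 / ‖p.1 - p.2‖ ^ 2) else 0)
      (volume.prod volume) := by
    rw [integrable_prod_iff hmeas.aestronglyMeasurable]
    refine ⟨Eventually.of_forall fun x => hslice x, ?_⟩
    have e2 : AEStronglyMeasurable (fun x : E3 => ∫ y : E3,
        ‖(if ‖x - y‖ < ρ then |Om y| * (G x ^ 2 / ‖x - y‖ ^ 2) else 0)‖) volume :=
      (hmeas.norm.stronglyMeasurable.integral_prod_right' (ν := (volume : Measure E3))).aestronglyMeasurable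
    refine Integrable.mono' ((hG2.const_mul K₂).mul_const
      (∫ z : E3, (if ‖z‖ < ρ then 1 / ‖z‖ ^ 2 else 0))) e2 (Eventually.of_forall fun x => ?_)
    have h0 : 0 ≤ ∫ y : E3, ‖(if ‖x - y‖ < ρ then |Om y| * (G x ^ 2 / ‖x - y‖ ^ 2) else 0)‖ :=
      integral_nonneg fun y => norm_nonneg _
    rw [Real.norm_of_nonneg h0, ← HLoc_near_const ρ x, ← integral_const_mul]
    refine integral_mono (hslice x).norm ((HLoc_near ρ x).const_mul _) (fun y => ?_)
    simp only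
    rw [Real.norm_of_nonneg (hk0 x y)]
    exact hkle x y
  -- the second kernel
  set g : E3 → ℝ := fun x => gsq G x + G x ^ 2 / ρ ^ 2 with hg
  have hgc : Continuous g := by
    have h1 : Continuous (gsq G) := by
      unfold gsq
      exact continuous_finsetSum _ fun i _ => (pd_cont hG i).pow 2
    exact h1.add ((hGc.pow 2).div_const _)
  have hgi : Integrable g := HLoc_gsq_int hK ρ
  have hg0 : ∀ x, 0 ≤ g x := fun x => add_nonneg (gsq_nonneg _ _) (by positivity)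
  have hmeas2 : Measurable fun p : E3 × E3 =>
      if ‖p.1 - p.2‖ < 2 * ρ then |Om p.2| * g p.1 else 0 :=
    Measurable.ite (hopen (2 * ρ)) (hOmm.mul (hgc.comp continuous_fst).measurable) measurable_const
  have hOmi : ∀ x : E3, Integrable (fun y : E3 => if ‖x - y‖ < 2 * ρ then |Om y| else 0) := by
    intro x
    have h1 : IntegrableOn (fun y => |Om y|) (Metric.closedBall x (2 * ρ)) :=
      hOm.abs.continuousOn.integrableOn_compact (isCompact_closedBall _ _)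
    have h2 : IntegrableOn (fun y => |Om y|) (Metric.ball x (2 * ρ)) :=
      h1.mono_set Metric.ball_subset_closedBall
    refine ((integrable_indicator_iff measurableSet_ball).2 h2).congr
      (Eventually.of_forall fun y => ?_)
    exact HLoc_ind _ x (2 * ρ) y
  have hslice2 : ∀ x : E3, ∫ y : E3, (if ‖x - y‖ < 2 * ρ then |Om y| * g x else 0) =
      (∫ y in Metric.ball x (2 * ρ), |Om y|) * g x := by
    intro x
    rw [HLoc_set, ← integral_mul_const]
    refine integral_congr_ae (Eventually.of_forall fun y => ?_)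
    simp only [ite_mul, zero_mul]
  have hk20 : ∀ x y : E3, 0 ≤ (if ‖x - y‖ < 2 * ρ then |Om y| * g x else 0) := by
    intro x y
    split_ifs
    · exact mul_nonneg (abs_nonneg _) (hg0 x)
    · exact le_rfl
  have hprod2 : Integrable (fun p : E3 × E3 =>
      if ‖p.1 - p.2‖ < 2 * ρ then |Om p.2| * g p.1 else 0) (volume.prod volume) := by
    rw [integrable_prod_iff hmeas2.aestronglyMeasurable]
    refine ⟨Eventually.of_forall fun x => ?_, ?_⟩
    · refine ((hOmi x).mul_const (g x)).congr (Eventually.of_forall fun y => ?_)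
      simp only [ite_mul, zero_mul]
    · have e2 : AEStronglyMeasurable (fun x : E3 => ∫ y : E3,
          ‖(if ‖x - y‖ < 2 * ρ then |Om y| * g x else 0)‖) volume :=
        (hmeas2.norm.stronglyMeasurable.integral_prod_right' (ν := (volume : Measure E3))).aestronglyMeasurable
      refine Integrable.mono' (hgi.const_mul m) e2 (Eventually.of_forall fun x => ?_)
      have h0 : 0 ≤ ∫ y : E3, ‖(if ‖x - y‖ < 2 * ρ then |Om y| * g x else 0)‖ :=
        integral_nonneg fun y => norm_nonneg _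
      rw [Real.norm_of_nonneg h0]
      have h1 : ∫ y : E3, ‖(if ‖x - y‖ < 2 * ρ then |Om y| * g x else 0)‖ =
          (∫ y in Metric.ball x (2 * ρ), |Om y|) * g x := by
        rw [← hslice2 x]
        refine integral_congr_ae (Eventually.of_forall fun y => ?_)
        exact Real.norm_of_nonneg (hk20 x y)
      rw [h1]
      exact mul_le_mul_of_nonneg_right (hm x) (hg0 x)
  -- the estimate
  have hL1 : Integrable (fun x => |W x| * G x ^ 2) := by
    refine Integrable.mono' (hG2.const_mul K₁) (hW.abs.mul (hGc.pow 2)).aestronglyMeasurable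
      (Eventually.of_forall fun x => ?_)
    rw [Real.norm_of_nonneg (mul_nonneg (abs_nonneg _) (sq_nonneg _))]
    exact mul_le_mul_of_nonneg_right (hWb x) (sq_nonneg _)
  have h1 : ∫ x, |W x| * G x ^ 2 ≤ ∫ x, (c * (∫ y,
      (if ‖x - y‖ < ρ then |Om y| * (G x ^ 2 / ‖x - y‖ ^ 2) else 0)) + B * G x ^ 2) := by
    refine integral_mono_ae hL1 ((hprod.integral_prod_left.const_mul c).add (hG2.const_mul B)) ?_
    filter_upwards [axis_null] with x hx
    have h2 : (∫ y in Metric.ball x ρ, |Om y| / ‖x - y‖ ^ 2) * G x ^ 2 =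
        ∫ y, (if ‖x - y‖ < ρ then |Om y| * (G x ^ 2 / ‖x - y‖ ^ 2) else 0) := by
      rw [HLoc_set, ← integral_mul_const]
      refine integral_congr_ae (Eventually.of_forall fun y => ?_)
      simp only [ite_mul, zero_mul]
      split_ifs
      · ring
      · rfl
    calc |W x| * G x ^ 2 ≤ (c * (∫ y in Metric.ball x ρ, |Om y| / ‖x - y‖ ^ 2) + B) * G x ^ 2 :=
          mul_le_mul_of_nonneg_right (hker x hx) (sq_nonneg _)
      _ = c * ((∫ y in Metric.ball x ρ, |Om y| / ‖x - y‖ ^ 2) * G x ^ 2) + B * G x ^ 2 := by ring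
      _ = _ := by rw [h2]
  refine h1.trans ?_
  rw [integral_add (hprod.integral_prod_left.const_mul c) (hG2.const_mul B), integral_const_mul,
    integral_const_mul]
  refine add_le_add ?_ le_rfl
  have h2 : ∫ x, ∫ y, (if ‖x - y‖ < ρ then |Om y| * (G x ^ 2 / ‖x - y‖ ^ 2) else 0) =
      ∫ y, ∫ x, (if ‖x - y‖ < ρ then |Om y| * (G x ^ 2 / ‖x - y‖ ^ 2) else 0) :=
    integral_integral_swap (f := fun x y =>
      if ‖x - y‖ < ρ then |Om y| * (G x ^ 2 / ‖x - y‖ ^ 2) else 0) hprod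
  have h3 : ∫ y, ∫ x, (if ‖x - y‖ < ρ then |Om y| * (G x ^ 2 / ‖x - y‖ ^ 2) else 0) ≤
      ∫ y, C * ∫ x, (if ‖x - y‖ < 2 * ρ then |Om y| * g x else 0) := by
    refine integral_mono_ae hprod.integral_prod_right (hprod2.integral_prod_right.const_mul C)
      (Eventually.of_forall fun y => ?_)
    simp only
    have h4 : ∫ x, (if ‖x - y‖ < ρ then |Om y| * (G x ^ 2 / ‖x - y‖ ^ 2) else 0) =
        |Om y| * ∫ x in Metric.ball y ρ, G x ^ 2 / ‖x - y‖ ^ 2 := by
      rw [HLoc_set', ← integral_const_mul]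
      refine integral_congr_ae (Eventually.of_forall fun x => ?_)
      simp only [mul_ite, mul_zero]
    have h5 : ∫ x, (if ‖x - y‖ < 2 * ρ then |Om y| * g x else 0) =
        |Om y| * ∫ x in Metric.ball y (2 * ρ), g x := by
      rw [HLoc_set', ← integral_const_mul]
      refine integral_congr_ae (Eventually.of_forall fun x => ?_)
      simp only [mul_ite, mul_zero]
    rw [h4, h5]
    calc |Om y| * ∫ x in Metric.ball y ρ, G x ^ 2 / ‖x - y‖ ^ 2
        ≤ |Om y| * (C * ∫ x in Metric.ball y (2 * ρ), g x) :=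
          mul_le_mul_of_nonneg_left (hL G K hG hK ρ hρ y) (abs_nonneg _)
      _ = C * (|Om y| * ∫ x in Metric.ball y (2 * ρ), g x) := by ring
  have h6 : ∫ x, ∫ y, (if ‖x - y‖ < 2 * ρ then |Om y| * g x else 0) =
      ∫ y, ∫ x, (if ‖x - y‖ < 2 * ρ then |Om y| * g x else 0) :=
    integral_integral_swap (f := fun x y => if ‖x - y‖ < 2 * ρ then |Om y| * g x else 0) hprod2
  have h7 : ∫ x, ∫ y, (if ‖x - y‖ < 2 * ρ then |Om y| * g x else 0) ≤ m * ∫ x, g x := by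
    rw [← integral_const_mul]
    refine integral_mono hprod2.integral_prod_left (hgi.const_mul m) (fun x => ?_)
    simp only
    rw [hslice2 x]
    exact mul_le_mul_of_nonneg_right (hm x) (hg0 x)
  have h8 : ∫ x, g x = (∫ x, gsq G x) + (∫ x, G x ^ 2) / ρ ^ 2 := by
    rw [hg, integral_add (gsq_int hK).1 (hG2.div_const _), integral_div]
  rw [h2]
  calc c * ∫ y, ∫ x, (if ‖x - y‖ < ρ then |Om y| * (G x ^ 2 / ‖x - y‖ ^ 2) else 0)
      ≤ c * ∫ y, C * ∫ x, (if ‖x - y‖ < 2 * ρ then |Om y| * g x else 0) :=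
        mul_le_mul_of_nonneg_left h3 hc
    _ = c * C * ∫ x, ∫ y, (if ‖x - y‖ < 2 * ρ then |Om y| * g x else 0) := by
        rw [integral_const_mul, ← h6]; ring
    _ ≤ c * C * (m * ∫ x, g x) := mul_le_mul_of_nonneg_left h7 (by positivity)
    _ = C * c * m * ((∫ x, gsq G x) + (∫ x, G x ^ 2) / ρ ^ 2) := by rw [h8]; ring

end Pool.Agent.H87.NS
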