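/-
ROW KL2. PROOF. kid_gen: the same as Pool.Agent.H87.NS.kernel_identity (file NS/KId.lean), whose proof uses only: `MK ε i` smooth, `DB 1`, the symmetry MK_sym and MK_div
(for the left side). Copy it for a general family `M`. kernel_limit_loc: as NS/KLim.lean: substitute `y = x - ε s`:
the integral is `∫ g(x - ε s) 3 zt(ε² ‖s‖² / ρ²) (1 + ‖s‖²) ^ (-5/2) ds → g(x) c0` as `ε → 0+` by dominated convergence (`zt → 1` pointwise, `0 ≤ zt ≤ 1`).
-/
import Pool.Agent.H87.NC.KL1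
import Pool.Agent.H87.NS.KId
import Pool.Agent.H87.NS.KLim

set_option autoImplicit false

open Set Filter Topology MeasureTheory
open scoped ContDiff

namespace Pool.Agent.H87.NS

open Pool.Agent.H16

theorem kid_gen {v : E3 → E3} (hv : ContDiff ℝ ∞ v)
    (hdiv : ∀ x, ∑ i : Fin 3, fderiv ℝ v x (e i) i = 0) {K : ℝ}
    (hK : ∀ j : Fin 3, DB 1 K (fun x => v x j)) {M : Fin 3 → E3 → ℝ} (hM : ∀ i, ContDiff ℝ ∞ (M i))
    (hMD : ∀ i, ∃ K, DB 1 K (M i)) (hsym : ∀ i k z, pd k (M i) z = pd i (M k) z) (x : E3) :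
    ∫ y, v y 0 * (∑ i, pd i (M i) (x - y))
      = ∫ y, (curl v y 1 * M 2 (x - y) - curl v y 2 * M 1 (x - y)) := by
  have hM0 := hM
  have hMD0 := hMD
  clear hM hMD
  have hpd : ∀ (i j : Fin 3) (y : E3), fderiv ℝ v y (e i) j = pd i (fun z => v z j) y :=
    fun i j y => KId_fderiv hv y (e i) j
  have hvj : ∀ j : Fin 3, ContDiff ℝ ∞ (fun z => v z j) := fun j =>
    (EuclideanSpace.proj j : E3 →L[ℝ] ℝ).contDiff.comp hv
  have hvj1 : ∀ j : Fin 3, ContDiff ℝ 1 (fun z => v z j) := fun j => (hvj j).of_le (by simp)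
  have hM : ∀ i : Fin 3, ContDiff ℝ ∞ (fun z => M i (x - z)) := fun i =>
    (hM0 i).comp (contDiff_const.sub contDiff_id)
  have hM1 : ∀ i : Fin 3, ContDiff ℝ 1 (fun z => M i (x - z)) := fun i =>
    (hM i).of_le (by simp)
  have hMD : ∀ i : Fin 3, ∃ K, DB 1 K (fun z => M i (x - z)) := by
    intro i
    obtain ⟨K', hK'⟩ := hMD0 i
    exact ⟨K', KId_DB (hM0 i) hK' x⟩
  choose KM hKM using hMD
  have hMp : ∀ (i k : Fin 3) (y : E3),
      pd k (fun z => M i (x - z)) y = - pd k (M i) (x - y) :=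
    fun i k y => KId_pd (hM0 i) x k y
  -- integrability
  have int1 : ∀ (j i k : Fin 3), Integrable (fun y => v y j * pd k (fun z => M i (x - z)) y) :=
    fun j i k => BL_mul (hvj j).continuous (pd_cont (hM1 i) k) (hK j).1 ((hKM i).2 k)
  have int2 : ∀ (j i k : Fin 3), Integrable (fun y => pd k (fun z => v z j) y * M i (x - y)) :=
    fun j i k => BL_mul (pd_cont (hvj1 j) k) (hM i).continuous ((hK j).2 k) (hKM i).1
  -- integration by parts
  have hib : ∀ (j i k : Fin 3), ∫ y, v y j * pd k (fun z => M i (x - z)) y =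
      - ∫ y, pd k (fun z => v z j) y * M i (x - y) :=
    fun j i k => ibp (hvj1 j) (hM1 i) (hK j) (hKM i) k
  -- the left side
  have hL : ∫ y, v y 0 * (∑ i, pd i (M i) (x - y)) =
      (∫ y, pd 0 (fun z => v z 0) y * M 0 (x - y)) +
      (∫ y, pd 1 (fun z => v z 0) y * M 1 (x - y)) +
      (∫ y, pd 2 (fun z => v z 0) y * M 2 (x - y)) := by
    have h1 : ∀ y, v y 0 * (∑ i, pd i (M i) (x - y)) =
        -(v y 0 * pd 0 (fun z => M 0 (x - z)) y) +
        -(v y 0 * pd 1 (fun z => M 1 (x - z)) y) +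
        -(v y 0 * pd 2 (fun z => M 2 (x - z)) y) := by
      intro y
      rw [Fin.sum_univ_three, hMp, hMp, hMp]
      ring
    simp_rw [h1]
    have n : ∀ j i k : Fin 3,
        Integrable (fun y => -(v y j * pd k (fun z => M i (x - z)) y)) :=
      fun j i k => (int1 j i k).neg
    rw [KId_add3 (n 0 0 0) (n 0 1 1) (n 0 2 2), integral_neg, integral_neg, integral_neg,
      hib, hib, hib, neg_neg, neg_neg, neg_neg]
  -- the right side
  have hR : ∫ y, (curl v y 1 * M 2 (x - y) - curl v y 2 * M 1 (x - y)) =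
      (∫ y, pd 2 (fun z => v z 0) y * M 2 (x - y)) -
      (∫ y, pd 0 (fun z => v z 2) y * M 2 (x - y)) -
      (∫ y, pd 0 (fun z => v z 1) y * M 1 (x - y)) +
      (∫ y, pd 1 (fun z => v z 0) y * M 1 (x - y)) := by
    have h1 : ∀ y, curl v y 1 * M 2 (x - y) - curl v y 2 * M 1 (x - y) =
        pd 2 (fun z => v z 0) y * M 2 (x - y) - pd 0 (fun z => v z 2) y * M 2 (x - y) -
        pd 0 (fun z => v z 1) y * M 1 (x - y) + pd 1 (fun z => v z 0) y * M 1 (x - y) := by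
      intro y
      have e1 : curl v y 1 = pd 2 (fun z => v z 0) y - pd 0 (fun z => v z 2) y := by
        rw [← hpd, ← hpd]; rfl
      have e2 : curl v y 2 = pd 0 (fun z => v z 1) y - pd 1 (fun z => v z 0) y := by
        rw [← hpd, ← hpd]; rfl
      rw [e1, e2]
      ring
    simp_rw [h1]
    exact KId_add4 (int2 0 2 2) (int2 2 2 0) (int2 1 1 0) (int2 0 1 1)
  -- the remaining sum vanishes
  have hs : ∀ i : Fin 3, ∫ y, pd 0 (fun z => v z i) y * M i (x - y) =
      ∫ y, pd i (fun z => v z i) y * M 0 (x - y) := by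
    intro i
    have h1 := hib i i 0
    have h2 := hib i 0 i
    have h3 : ∫ y, v y i * pd 0 (fun z => M i (x - z)) y =
        ∫ y, v y i * pd i (fun z => M 0 (x - z)) y := by
      refine integral_congr_ae (Filter.Eventually.of_forall fun y => ?_)
      change v y i * pd 0 (fun z => M i (x - z)) y = v y i * pd i (fun z => M 0 (x - z)) y
      rw [hMp, hMp, hsym i 0]
    linarith
  have hz : (∫ y, pd 0 (fun z => v z 0) y * M 0 (x - y)) +
      (∫ y, pd 1 (fun z => v z 1) y * M 0 (x - y)) +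
      (∫ y, pd 2 (fun z => v z 2) y * M 0 (x - y)) = 0 := by
    rw [← KId_add3 (int2 0 0 0) (int2 1 0 1) (int2 2 0 2)]
    have h1 : ∀ y, pd 0 (fun z => v z 0) y * M 0 (x - y) +
        pd 1 (fun z => v z 1) y * M 0 (x - y) + pd 2 (fun z => v z 2) y * M 0 (x - y)
        = 0 := by
      intro y
      have h2 := hdiv y
      rw [Fin.sum_univ_three, hpd, hpd, hpd] at h2
      rw [← add_mul, ← add_mul, h2, zero_mul]
    simp_rw [h1]
    exact integral_zero _ _
  have s1 := hs 1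
  have s2 := hs 2
  rw [hL, hR]
  linarith

theorem kernel_limit_loc {g : E3 → ℝ} (hg : Continuous g) {K : ℝ} (hK : ∀ x, |g x| ≤ K) {B ρ : ℝ} (hρ : 0 < ρ)
    (x : E3) (h : ∀ ε > 0, |∫ y, g y * (3 * ε ^ 2 * (zt (‖x - y‖ ^ 2 / ρ ^ 2)
      * (‖x - y‖ ^ 2 + ε ^ 2) ^ (-(5/2) : ℝ)))| ≤ B) :
    c0 * |g x| ≤ B := by
  have hz : Continuous zt := zt_smooth.continuous
  have h1 := kernel_limit (g := fun y => g y * zt (‖x - y‖ ^ 2 / ρ ^ 2)) (K := K) (B := B)
    (hg.mul (hz.comp (by fun_prop))) (fun y => by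
      have h2 := zt_bd (‖x - y‖ ^ 2 / ρ ^ 2)
      rw [abs_mul, abs_of_nonneg h2.1]
      exact (mul_le_of_le_one_right (abs_nonneg _) h2.2.1).trans (hK y)) x (fun ε hε => by
      have h2 := h ε hε
      have h3 : ∀ y, g y * (3 * ε ^ 2 * (zt (‖x - y‖ ^ 2 / ρ ^ 2)
          * (‖x - y‖ ^ 2 + ε ^ 2) ^ (-(5/2) : ℝ))) = g y * zt (‖x - y‖ ^ 2 / ρ ^ 2) *
          (3 * ε ^ 2 * (‖x - y‖ ^ 2 + ε ^ 2) ^ (-(5/2) : ℝ)) := fun y => by ring
      simp only [h3] at h2
      exact h2)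
  have h4 : zt (‖x - x‖ ^ 2 / ρ ^ 2) = 1 := (zt_bd _).2.2.1 (by simp)
  simp only [h4, mul_one] at h1
  exact h1

end Pool.Agent.H87.NS
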