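/-
ROW KL1. The localised kernels. Write `P = s + ε²`, `τ = s / ρ²`. `zt` is smooth, `zt = 1` on `(-∞, 1/2]`, `zt = 0` on `[1, ∞)`, `0 ≤ zt ≤ 1`; `zt'`, `zt''` and
`zt'''` are continuous, vanish outside `[1/2, 1]`, hence are bounded by a constant `C₁`.
PROOF. `gL' (s) = 2 ρ⁻² zt' P^(-3/2) - (3/2) zt P^(-5/2) - 2 ρ⁻⁴ zt'' P^(-1/2)`.
LK_smooth: for `s > -ε²` `gL ε ρ` is smooth; compose with `s = ‖z‖²`. LK_zero: `gL = 0` for `s ≥ ρ²`. LK_DB: `LK` is smooth with compact support (`‖z‖ ≤ ρ`), so `LK` and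
its partial derivatives are bounded and square integrable. LK_pd (helper): `pd k (LK i) z = δ_ik gL(‖z‖²) + 2 z_i z_k gL'(‖z‖²)`, symmetric. LK_div:
`3 gL + 2 s gL' = 3 ε² zt P^(-5/2) + hL` (`s = P - ε²`).
gL_diff: `|gL'(s)| ≤ C s^(-5/2)` for `s > 0` (where `zt', zt''` do not vanish, `ρ⁻² ≤ s⁻¹`; `P ≥ s`), so by the mean value inequality for `gL - ` and
`(2C/3) s^(-3/2)` (monotonicity: `s ↦ (2C/3) s^(-3/2) ± gL(s)` is nonincreasing on `(0, ∞)`),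
`|gL(s) - gL(s')| ≤ (2C/3) (s^(-3/2) - s'^(-3/2))` for `0 < s ≤ s'`. hL_lip: `hL` is zero for `s ≤ ρ²/2` and for `s ≥ ρ²`, and on `[ρ²/2, ρ²]`
its derivative is a sum of terms bounded by `C ρ⁻⁵` (each of `ρ⁻² P^(-3/2)`, `s ρ⁻⁴ P^(-3/2)`, `s ρ⁻² P^(-5/2)`, `ρ⁻⁴ P^(-1/2)`, `s ρ⁻⁶ P^(-1/2)` is `≤ C ρ⁻⁵` for
`ρ²/2 ≤ s ≤ ρ²`, `P ≥ s`). hL_bd follows (`hL(ρ²) = 0`).
-/
import Pool.Agent.H87.NC.Defs
import Pool.Agent.H87.NS.KInt

set_option autoImplicit false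

open Set Filter Topology MeasureTheory
open scoped ContDiff

namespace Pool.Agent.H87.NS

open Pool.Agent.H16

theorem zt_smooth : ContDiff ℝ ∞ zt := by
  unfold zt
  exact Real.smoothTransition.contDiff.comp (contDiff_const.sub (contDiff_const.mul contDiff_id))

theorem zt_bd (s : ℝ) : 0 ≤ zt s ∧ zt s ≤ 1 ∧ (s ≤ 1 / 2 → zt s = 1) ∧ (1 ≤ s → zt s = 0) := by
  unfold zt
  refine ⟨Real.smoothTransition.nonneg _, Real.smoothTransition.le_one _, fun h => ?_, fun h => ?_⟩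
  · exact Real.smoothTransition.one_of_one_le (by linarith)
  · exact Real.smoothTransition.zero_of_nonpos (by linarith)

theorem KL1_ds {f : ℝ → ℝ} (hf : ContDiff ℝ ∞ f) : ContDiff ℝ ∞ (deriv f) :=
  (contDiff_infty_iff_deriv.1 hf).2

theorem KL1_d1 : ContDiff ℝ ∞ (deriv zt) := KL1_ds zt_smooth

theorem KL1_d2 : ContDiff ℝ ∞ (deriv (deriv zt)) := KL1_ds KL1_d1

theorem KL1_d3 : ContDiff ℝ ∞ (deriv (deriv (deriv zt))) := KL1_ds KL1_d2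

/-- a function whose derivative vanishes outside the transition interval -/
def KL1_out (f : ℝ → ℝ) : Prop := (∀ s, s ≤ 1 / 2 → f s = 0) ∧ ∀ s, 1 ≤ s → f s = 0

theorem KL1_close {f : ℝ → ℝ} (hf : Continuous f) (h1 : ∀ s, s < 1 / 2 → f s = 0)
    (h2 : ∀ s, 1 < s → f s = 0) : KL1_out f := by
  have hc : IsClosed {s | f s = 0} := isClosed_eq hf continuous_const
  constructor
  · intro s hs
    have h3 : Iio (1 / 2 : ℝ) ⊆ {s | f s = 0} := fun s hs => h1 s hs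
    have h4 := hc.closure_subset_iff.2 h3
    rw [closure_Iio] at h4
    exact h4 hs
  · intro s hs
    have h3 : Ioi (1 : ℝ) ⊆ {s | f s = 0} := fun s hs => h2 s hs
    have h4 := hc.closure_subset_iff.2 h3
    rw [closure_Ioi] at h4
    exact h4 hs

theorem KL1_out_deriv {f : ℝ → ℝ} (hf : ContDiff ℝ ∞ f) (h : KL1_out f) :
    KL1_out (deriv f) := by
  refine KL1_close (KL1_ds hf).continuous ?_ ?_
  · intro s hs
    have h1 : f =ᶠ[𝓝 s] fun _ => 0 := by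
      filter_upwards [Iio_mem_nhds hs] with x hx
      exact h.1 x (le_of_lt hx)
    rw [h1.deriv_eq, deriv_const]
  · intro s hs
    have h1 : f =ᶠ[𝓝 s] fun _ => 0 := by
      filter_upwards [Ioi_mem_nhds hs] with x hx
      exact h.2 x (le_of_lt hx)
    rw [h1.deriv_eq, deriv_const]

theorem KL1_o1 : KL1_out (deriv zt) := by
  refine KL1_close KL1_d1.continuous ?_ ?_
  · intro s hs
    have h1 : zt =ᶠ[𝓝 s] fun _ => 1 := by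
      filter_upwards [Iio_mem_nhds hs] with x hx
      exact (zt_bd x).2.2.1 (le_of_lt hx)
    rw [h1.deriv_eq, deriv_const]
  · intro s hs
    have h1 : zt =ᶠ[𝓝 s] fun _ => 0 := by
      filter_upwards [Ioi_mem_nhds hs] with x hx
      exact (zt_bd x).2.2.2 (le_of_lt hx)
    rw [h1.deriv_eq, deriv_const]

theorem KL1_o2 : KL1_out (deriv (deriv zt)) := KL1_out_deriv KL1_d1 KL1_o1

theorem KL1_o3 : KL1_out (deriv (deriv (deriv zt))) := KL1_out_deriv KL1_d2 KL1_o2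

theorem KL1_bdd {f : ℝ → ℝ} (hf : Continuous f) (h : KL1_out f) : ∃ C, ∀ s, |f s| ≤ C := by
  obtain ⟨C, hC⟩ := (isCompact_Icc (a := (1 / 2 : ℝ)) (b := 1)).exists_bound_of_continuousOn
    hf.continuousOn
  refine ⟨max C 0, fun s => ?_⟩
  by_cases h1 : s ∈ Icc (1 / 2 : ℝ) 1
  · exact (hC s h1).trans (le_max_left _ _)
  · have h2 : f s = 0 := by
      by_contra hne
      apply h1
      constructor
      · by_contra h3
        push Not at h3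
        exact hne (h.1 s h3.le)
      · by_contra h3
        push Not at h3
        exact hne (h.2 s h3.le)
    rw [h2, abs_zero]
    exact le_max_right _ _

theorem KL1_const : ∃ C : ℝ, 1 ≤ C ∧ ∀ s, |deriv zt s| ≤ C ∧ |deriv (deriv zt) s| ≤ C ∧
    |deriv (deriv (deriv zt)) s| ≤ C := by
  obtain ⟨C1, h1⟩ := KL1_bdd KL1_d1.continuous KL1_o1
  obtain ⟨C2, h2⟩ := KL1_bdd KL1_d2.continuous KL1_o2
  obtain ⟨C3, h3⟩ := KL1_bdd KL1_d3.continuous KL1_o3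
  refine ⟨max 1 (max C1 (max C2 C3)), le_max_left _ _, fun s => ⟨?_, ?_, ?_⟩⟩
  · exact (h1 s).trans ((le_max_left _ _).trans (le_max_right _ _))
  · exact (h2 s).trans ((le_max_left _ _).trans ((le_max_right _ _).trans (le_max_right _ _)))
  · exact (h3 s).trans ((le_max_right _ _).trans ((le_max_right _ _).trans (le_max_right _ _)))

theorem KL1_comp {f : ℝ → ℝ} (hf : ContDiff ℝ ∞ f) (ρ s : ℝ) :
    HasDerivAt (fun s => f (s / ρ ^ 2)) (deriv f (s / ρ ^ 2) * (1 / ρ ^ 2)) s := by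
  have h1 : HasDerivAt f (deriv f (s / ρ ^ 2)) (s / ρ ^ 2) :=
    (hf.differentiable (by simp) _).hasDerivAt
  exact h1.comp s ((hasDerivAt_id s).div_const (ρ ^ 2))

theorem KL1_pow {ε s : ℝ} (hs : 0 < s + ε ^ 2) (q : ℝ) :
    HasDerivAt (fun s => (s + ε ^ 2) ^ q) (q * (s + ε ^ 2) ^ (q - 1)) s := by
  have h1 := ((hasDerivAt_id s).add_const (ε ^ 2)).rpow_const (p := q) (Or.inl hs.ne')
  refine h1.congr_deriv ?_
  simp only [id]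
  ring

/-- the derivative of the profile -/
noncomputable def KL1_g1 (ε ρ s : ℝ) : ℝ :=
  2 / ρ ^ 2 * deriv zt (s / ρ ^ 2) * (s + ε ^ 2) ^ (-(3/2) : ℝ)
    - 3 / 2 * zt (s / ρ ^ 2) * (s + ε ^ 2) ^ (-(5/2) : ℝ)
    - 2 / ρ ^ 4 * deriv (deriv zt) (s / ρ ^ 2) * (s + ε ^ 2) ^ (-(1/2) : ℝ)

theorem KL1_gd {ε ρ s : ℝ} (hs : 0 < s + ε ^ 2) (hρ : 0 < ρ) :
    HasDerivAt (gL ε ρ) (KL1_g1 ε ρ s) s := by
  have a1 := KL1_comp zt_smooth ρ s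
  have a2 := KL1_comp KL1_d1 ρ s
  have p1 := KL1_pow hs (-(3/2))
  have p2 := KL1_pow hs (-(1/2))
  have e1 : (-(3/2) : ℝ) - 1 = -(5/2) := by norm_num
  have e2 : (-(1/2) : ℝ) - 1 = -(3/2) := by norm_num
  rw [e1] at p1
  rw [e2] at p2
  have h := (a1.mul p1).sub ((a2.const_mul (2 / ρ ^ 2)).mul p2)
  refine h.congr_deriv ?_
  unfold KL1_g1
  field_simp
  ring

theorem KL1_gcont {f : ℝ → ℝ} (hf : ContDiff ℝ ∞ f) (ρ : ℝ) :
    ContDiff ℝ ∞ (fun z : E3 => f (‖z‖ ^ 2 / ρ ^ 2)) :=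
  hf.comp ((contDiff_norm_sq ℝ).div_const _)

theorem LK_smooth {ε ρ : ℝ} (hε : 0 < ε) (hρ : 0 < ρ) (i : Fin 3) : ContDiff ℝ ∞ (LK ε ρ i) := by
  have h1 : ContDiff ℝ ∞ (fun z : E3 => z i) := by fun_prop
  have h2 := (KL1_gcont zt_smooth ρ).mul (KInt_rpow_smooth hε (-(3/2)))
  have h3 := ((contDiff_const (c := 2 / ρ ^ 2)).mul (KL1_gcont KL1_d1 ρ)).mul
    (KInt_rpow_smooth hε (-(1/2)))
  exact h1.mul (h2.sub h3)

theorem gL_zero {ε ρ s : ℝ} (hρ : 0 < ρ) (hs : ρ ^ 2 ≤ s) : gL ε ρ s = 0 := by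
  have h1 : 1 ≤ s / ρ ^ 2 := (one_le_div (by positivity)).2 hs
  unfold gL
  rw [(zt_bd _).2.2.2 h1, KL1_o1.2 _ h1]
  ring

theorem KL1_pd {ε ρ : ℝ} (hε : 0 < ε) (hρ : 0 < ρ) (i k : Fin 3) (z : E3) :
    pd k (LK ε ρ i) z = (if i = k then gL ε ρ (‖z‖ ^ 2) else 0)
      + 2 * z i * z k * KL1_g1 ε ρ (‖z‖ ^ 2) := by
  have hP := KInt_P_pos hε z
  have h1 : HasFDerivAt (fun z : E3 => z i) (EuclideanSpace.proj i : E3 →L[ℝ] ℝ) z :=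
    (EuclideanSpace.proj i : E3 →L[ℝ] ℝ).hasFDerivAt
  have h2 : HasFDerivAt (fun z : E3 => ‖z‖ ^ 2) (2 • (innerSL ℝ z : E3 →L[ℝ] ℝ)) z :=
    (hasStrictFDerivAt_norm_sq z).hasFDerivAt
  have h4 : HasFDerivAt (fun z : E3 => gL ε ρ (‖z‖ ^ 2))
      (KL1_g1 ε ρ (‖z‖ ^ 2) • (2 • (innerSL ℝ z : E3 →L[ℝ] ℝ))) z := by
    have h3 : HasDerivAt (gL ε ρ) (KL1_g1 ε ρ (‖z‖ ^ 2)) (‖z‖ ^ 2) := KL1_gd hP hρ
    exact h3.comp_hasFDerivAt z h2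
  have h5 := h1.mul h4
  have h6 : fderiv ℝ (LK ε ρ i) z = _ := h5.fderiv
  unfold pd
  rw [h6]
  have h7 : inner ℝ z (e k) = z k := by
    simp [e, EuclideanSpace.inner_single_right]
  have h8 : (EuclideanSpace.proj i : E3 →L[ℝ] ℝ) (e k) = if i = k then 1 else 0 := e_apply k i
  simp only [add_apply, smul_apply, smul_eq_mul,
    innerSL_apply_apply, nsmul_eq_mul, h7, h8]
  by_cases hik : i = k
  · simp only [hik, if_true]
    push_cast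
    ring
  · simp only [hik, if_false]
    push_cast
    ring

theorem KL1_BL {f : E3 → ℝ} (hf : Continuous f) (hc : HasCompactSupport f) : ∃ K, BL K f := by
  obtain ⟨C, hC⟩ := hc.exists_bound_of_continuous hf
  have hc2 : HasCompactSupport fun x => f x ^ 2 := by
    have : (fun x => f x ^ 2) = fun x => f x * f x := by
      ext x
      ring
    rw [this]
    exact hc.mul_left
  have hcont : Continuous fun x => f x ^ 2 := hf.pow 2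
  refine ⟨max C (∫ x, f x ^ 2), fun x => (hC x).trans (le_max_left _ _),
    hcont.integrable_of_hasCompactSupport hc2, le_max_right _ _⟩

theorem LK_DB {ε ρ : ℝ} (hε : 0 < ε) (hρ : 0 < ρ) (i : Fin 3) : ∃ K, DB 1 K (LK ε ρ i) := by
  have hsm := LK_smooth hε hρ i
  have hcs : HasCompactSupport (LK ε ρ i) := by
    refine HasCompactSupport.intro (isCompact_closedBall (0 : E3) ρ) ?_
    intro z hz
    rw [Metric.mem_closedBall, dist_zero_right, not_le] at hz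
    unfold LK
    rw [gL_zero hρ (pow_le_pow_left₀ hρ.le hz.le 2), mul_zero]
  have hpc : ∀ k, Continuous (pd k (LK ε ρ i)) := by
    intro k
    have h := hsm.continuous_fderiv (by simp)
    exact h.clm_apply continuous_const
  have hps : ∀ k, HasCompactSupport (pd k (LK ε ρ i)) := by
    intro k
    refine (hcs.fderiv ℝ).mono ?_
    intro x hx hx'
    apply hx
    change fderiv ℝ (LK ε ρ i) x (e k) = 0
    rw [hx']
    rfl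
  obtain ⟨K, hK⟩ := KL1_BL hsm.continuous hcs
  choose K' hK' using fun k => KL1_BL (hpc k) (hps k)
  have hnn : ∀ {L : ℝ} {f : E3 → ℝ}, BL L f → 0 ≤ L := fun h => (abs_nonneg _).trans (h.1 0)
  refine ⟨K + ∑ k, K' k, ?_, fun k => ?_⟩
  · refine KInt_BL_mono hK ?_
    have : 0 ≤ ∑ k, K' k := Finset.sum_nonneg fun k _ => hnn (hK' k)
    linarith
  · refine KInt_BL_mono (hK' k) ?_
    have h1 : K' k ≤ ∑ k, K' k :=
      Finset.single_le_sum (f := K') (fun k _ => hnn (hK' k)) (Finset.mem_univ k)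
    have h2 := hnn hK
    linarith

theorem LK_sym {ε ρ : ℝ} (hε : 0 < ε) (hρ : 0 < ρ) (i k : Fin 3) (z : E3) :
    pd k (LK ε ρ i) z = pd i (LK ε ρ k) z := by
  rw [KL1_pd hε hρ, KL1_pd hε hρ]
  by_cases hik : i = k
  · subst hik; rfl
  · have hki : ¬ k = i := fun h => hik h.symm
    simp only [hik, hki, if_false]
    ring

theorem LK_div {ε ρ : ℝ} (hε : 0 < ε) (hρ : 0 < ρ) (z : E3) :
    ∑ i, pd i (LK ε ρ i) z
      = 3 * ε ^ 2 * (zt (‖z‖ ^ 2 / ρ ^ 2) * (‖z‖ ^ 2 + ε ^ 2) ^ (-(5/2) : ℝ)) + hL ε ρ (‖z‖ ^ 2) := by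
  have hP := KInt_P_pos hε z
  have hn : ‖z‖ ^ 2 = z 0 ^ 2 + z 1 ^ 2 + z 2 ^ 2 := norm_sq_eq z
  have hs := KInt_rpow_step hP
  have e1 : ∑ i, pd i (LK ε ρ i) z =
      3 * gL ε ρ (‖z‖ ^ 2) + 2 * ‖z‖ ^ 2 * KL1_g1 ε ρ (‖z‖ ^ 2) := by
    simp only [Fin.sum_univ_three, KL1_pd hε hρ, if_true]
    generalize gL ε ρ (‖z‖ ^ 2) = G
    generalize KL1_g1 ε ρ (‖z‖ ^ 2) = G1
    rw [hn]
    ring
  rw [e1]
  unfold gL KL1_g1 hL
  generalize ‖z‖ ^ 2 = S at *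
  generalize deriv zt (S / ρ ^ 2) = a
  generalize deriv (deriv zt) (S / ρ ^ 2) = b
  generalize zt (S / ρ ^ 2) = t
  generalize (S + ε ^ 2) ^ (-(1/2) : ℝ) = R
  have e2 : t * (S + ε ^ 2) ^ (-(3/2) : ℝ) = t * ((S + ε ^ 2) * (S + ε ^ 2) ^ (-(5/2) : ℝ)) := by
    rw [← hs]
  rw [e2]
  generalize (S + ε ^ 2) ^ (-(5/2) : ℝ) = Q
  generalize (S + ε ^ 2) ^ (-(3/2) : ℝ) = W
  field_simp
  ring

theorem KL1_prod {a x C M : ℝ} (ha : |a| ≤ C) (hx : 0 ≤ x) (hxM : x ≤ M) : |a * x| ≤ C * M := by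
  rw [abs_mul, abs_of_nonneg hx]
  exact mul_le_mul ha hxM hx ((abs_nonneg a).trans ha)

theorem KL1_g1_le {C : ℝ} (hC1 : 1 ≤ C) (hC : ∀ s, |deriv zt s| ≤ C ∧ |deriv (deriv zt) s| ≤ C ∧
    |deriv (deriv (deriv zt)) s| ≤ C) {ε ρ s : ℝ} (hρ : 0 < ρ) (hs : 0 < s) :
    |KL1_g1 ε ρ s| ≤ 6 * C * s ^ (-(5/2) : ℝ) := by
  have hC0 : 0 ≤ C := by linarith
  have hS : 0 < s ^ (-(5/2) : ℝ) := Real.rpow_pos_of_pos hs _
  have hP : s ≤ s + ε ^ 2 := by linarith [sq_nonneg ε]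
  have hP0 : 0 < s + ε ^ 2 := by linarith
  by_cases h1 : 1 ≤ s / ρ ^ 2
  · unfold KL1_g1
    rw [(zt_bd _).2.2.2 h1, KL1_o1.2 _ h1, KL1_o2.2 _ h1]
    have e : 2 / ρ ^ 2 * 0 * (s + ε ^ 2) ^ (-(3/2) : ℝ) - 3 / 2 * 0 * (s + ε ^ 2) ^ (-(5/2) : ℝ)
      - 2 / ρ ^ 4 * 0 * (s + ε ^ 2) ^ (-(1/2) : ℝ) = 0 := by ring
    rw [e, abs_zero]
    positivity
  · push Not at h1
    have hr : 1 / ρ ^ 2 ≤ s⁻¹ := by
      rw [div_lt_one (by positivity)] at h1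
      rw [one_div]
      exact inv_anti₀ hs h1.le
    have hr4 : 1 / ρ ^ 4 ≤ s⁻¹ * s⁻¹ := by
      have e : 1 / ρ ^ 4 = (1 / ρ ^ 2) * (1 / ρ ^ 2) := by
        field_simp
      rw [e]
      exact mul_le_mul hr hr (by positivity) (by positivity)
    have q1 : (s + ε ^ 2) ^ (-(1/2) : ℝ) ≤ s ^ (-(1/2) : ℝ) :=
      Real.rpow_le_rpow_of_nonpos hs hP (by norm_num)
    have q3 : (s + ε ^ 2) ^ (-(3/2) : ℝ) ≤ s ^ (-(3/2) : ℝ) :=
      Real.rpow_le_rpow_of_nonpos hs hP (by norm_num)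
    have q5 : (s + ε ^ 2) ^ (-(5/2) : ℝ) ≤ s ^ (-(5/2) : ℝ) :=
      Real.rpow_le_rpow_of_nonpos hs hP (by norm_num)
    have n1 : 0 ≤ (s + ε ^ 2) ^ (-(1/2) : ℝ) := (Real.rpow_pos_of_pos hP0 _).le
    have n3 : 0 ≤ (s + ε ^ 2) ^ (-(3/2) : ℝ) := (Real.rpow_pos_of_pos hP0 _).le
    have n5 : 0 ≤ (s + ε ^ 2) ^ (-(5/2) : ℝ) := (Real.rpow_pos_of_pos hP0 _).le
    have m3 : s⁻¹ * s ^ (-(3/2) : ℝ) = s ^ (-(5/2) : ℝ) := by
      rw [← Real.rpow_neg_one, ← Real.rpow_add hs]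
      norm_num
    have m1 : s⁻¹ * s⁻¹ * s ^ (-(1/2) : ℝ) = s ^ (-(5/2) : ℝ) := by
      rw [← Real.rpow_neg_one, ← Real.rpow_add hs, ← Real.rpow_add hs]
      norm_num
    have b1 : |deriv zt (s / ρ ^ 2) * (1 / ρ ^ 2 * (s + ε ^ 2) ^ (-(3/2) : ℝ))| ≤
        C * s ^ (-(5/2) : ℝ) := by
      refine KL1_prod (hC _).1 (by positivity) ?_
      rw [← m3]
      exact mul_le_mul hr q3 n3 (by positivity)
    have b2 : |deriv (deriv zt) (s / ρ ^ 2) * (1 / ρ ^ 4 * (s + ε ^ 2) ^ (-(1/2) : ℝ))| ≤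
        C * s ^ (-(5/2) : ℝ) := by
      refine KL1_prod (hC _).2.1 (by positivity) ?_
      rw [← m1]
      exact mul_le_mul hr4 q1 n1 (by positivity)
    have b3 : |zt (s / ρ ^ 2) * (s + ε ^ 2) ^ (-(5/2) : ℝ)| ≤ C * s ^ (-(5/2) : ℝ) := by
      refine KL1_prod ?_ n5 q5
      rw [abs_of_nonneg (zt_bd _).1]
      exact (zt_bd _).2.1.trans hC1
    have e : KL1_g1 ε ρ s =
        2 * (deriv zt (s / ρ ^ 2) * (1 / ρ ^ 2 * (s + ε ^ 2) ^ (-(3/2) : ℝ))) -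
        3 / 2 * (zt (s / ρ ^ 2) * (s + ε ^ 2) ^ (-(5/2) : ℝ)) -
        2 * (deriv (deriv zt) (s / ρ ^ 2) * (1 / ρ ^ 4 * (s + ε ^ 2) ^ (-(1/2) : ℝ))) := by
      unfold KL1_g1
      ring
    rw [e]
    rw [abs_le] at b1 b2 b3 ⊢
    have hCS : 0 ≤ C * s ^ (-(5/2) : ℝ) := by positivity
    constructor
    · linarith [b1.1, b2.2, b3.2]
    · linarith [b1.2, b2.1, b3.1]

theorem gL_diff : ∃ C : ℝ, 0 < C ∧ ∀ ε ρ s s' : ℝ, 0 < ε → 0 < ρ → 0 < s → s ≤ s' →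
    |gL ε ρ s - gL ε ρ s'| ≤ C * (s ^ (-(3/2) : ℝ) - s' ^ (-(3/2) : ℝ)) := by
  obtain ⟨C, hC1, hC⟩ := KL1_const
  refine ⟨4 * C, by linarith, ?_⟩
  intro ε ρ s s' hε hρ hs hss
  have hF : ∀ x : ℝ, 0 < x → HasDerivAt (fun x : ℝ => 4 * C * x ^ (-(3/2) : ℝ))
      (-(6 * C * x ^ (-(5/2) : ℝ))) x := by
    intro x hx
    have h1 := (Real.hasDerivAt_rpow_const (x := x) (p := -(3/2)) (Or.inl hx.ne')).const_mul (4 * C)
    refine h1.congr_deriv ?_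
    have e1 : (-(3/2) : ℝ) - 1 = -(5/2) := by norm_num
    rw [e1]
    ring
  have hG : ∀ x : ℝ, 0 < x → HasDerivAt (gL ε ρ) (KL1_g1 ε ρ x) x := fun x hx =>
    KL1_gd (by positivity) hρ
  have hb : ∀ x : ℝ, 0 < x → |KL1_g1 ε ρ x| ≤ 6 * C * x ^ (-(5/2) : ℝ) := fun x hx =>
    KL1_g1_le hC1 hC hρ hx
  have hanti : ∀ σ : ℝ, σ = 1 ∨ σ = -1 →
      AntitoneOn (fun x => 4 * C * x ^ (-(3/2) : ℝ) + σ * gL ε ρ x) (Ioi 0) := by
    intro σ hσ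
    have hd : ∀ x : ℝ, 0 < x → HasDerivAt (fun x => 4 * C * x ^ (-(3/2) : ℝ) + σ * gL ε ρ x)
        (-(6 * C * x ^ (-(5/2) : ℝ)) + σ * KL1_g1 ε ρ x) x := fun x hx =>
      (hF x hx).add ((hG x hx).const_mul σ)
    refine antitoneOn_of_deriv_nonpos (convex_Ioi 0) ?_ ?_ ?_
    · intro x hx
      exact (hd x hx).continuousAt.continuousWithinAt
    · rw [interior_Ioi]
      intro x hx
      exact (hd x hx).differentiableAt.differentiableWithinAt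
    · rw [interior_Ioi]
      intro x hx
      rw [(hd x hx).deriv]
      have h1 := abs_le.1 (hb x hx)
      rcases hσ with h | h
      · rw [h]; linarith [h1.2]
      · rw [h]; linarith [h1.1]
  have hs' : s' ∈ Ioi (0 : ℝ) := lt_of_lt_of_le hs hss
  have h1 := hanti 1 (Or.inl rfl) (show s ∈ Ioi (0 : ℝ) from hs) hs' hss
  have h2 := hanti (-1) (Or.inr rfl) (show s ∈ Ioi (0 : ℝ) from hs) hs' hss
  simp only at h1 h2
  rw [abs_le]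
  constructor
  · linarith only [h1]
  · linarith

theorem hL_cont {ε ρ : ℝ} (hε : 0 < ε) (hρ : 0 < ρ) : Continuous (fun z : E3 => hL ε ρ (‖z‖ ^ 2)) := by
  have hn : Continuous fun z : E3 => ‖z‖ ^ 2 := by fun_prop
  have c1 := (KL1_gcont KL1_d1 ρ).continuous
  have c2 := (KL1_gcont KL1_d2 ρ).continuous
  have p3 := (KInt_rpow_smooth hε (-(3/2))).continuous
  have p1 := (KInt_rpow_smooth hε (-(1/2))).continuous
  unfold hL
  refine ((((continuous_const.mul hn).div_const _).mul c1).mul p3).sub ?_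
  exact ((continuous_const.mul c1).add (((continuous_const.mul hn).div_const _).mul c2)).mul p1

/-- the derivative of the remainder -/
noncomputable def KL1_h1 (ε ρ s : ℝ) : ℝ :=
  4 / ρ ^ 2 * (deriv zt (s / ρ ^ 2) * (s + ε ^ 2) ^ (-(3/2) : ℝ)
      + s / ρ ^ 2 * deriv (deriv zt) (s / ρ ^ 2) * (s + ε ^ 2) ^ (-(3/2) : ℝ)
      - 3 / 2 * s * deriv zt (s / ρ ^ 2) * (s + ε ^ 2) ^ (-(5/2) : ℝ))
    - 6 / ρ ^ 2 * (deriv (deriv zt) (s / ρ ^ 2) / ρ ^ 2 * (s + ε ^ 2) ^ (-(1/2) : ℝ)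
      - 1 / 2 * deriv zt (s / ρ ^ 2) * (s + ε ^ 2) ^ (-(3/2) : ℝ))
    - 4 / ρ ^ 4 * (deriv (deriv zt) (s / ρ ^ 2) * (s + ε ^ 2) ^ (-(1/2) : ℝ)
      + s / ρ ^ 2 * deriv (deriv (deriv zt)) (s / ρ ^ 2) * (s + ε ^ 2) ^ (-(1/2) : ℝ)
      - 1 / 2 * s * deriv (deriv zt) (s / ρ ^ 2) * (s + ε ^ 2) ^ (-(3/2) : ℝ))

theorem KL1_hd {ε ρ s : ℝ} (hs : 0 < s + ε ^ 2) (hρ : 0 < ρ) :
    HasDerivAt (hL ε ρ) (KL1_h1 ε ρ s) s := by
  have a1 := KL1_comp KL1_d1 ρ s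
  have a2 := KL1_comp KL1_d2 ρ s
  have p1 := KL1_pow hs (-(3/2))
  have p2 := KL1_pow hs (-(1/2))
  have e1 : (-(3/2) : ℝ) - 1 = -(5/2) := by norm_num
  have e2 : (-(1/2) : ℝ) - 1 = -(3/2) := by norm_num
  rw [e1] at p1
  rw [e2] at p2
  have l1 : HasDerivAt (fun s : ℝ => 4 * s / ρ ^ 2) (4 * 1 / ρ ^ 2) s :=
    ((hasDerivAt_id s).const_mul 4).div_const _
  have l2 : HasDerivAt (fun s : ℝ => 4 * s / ρ ^ 4) (4 * 1 / ρ ^ 4) s :=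
    ((hasDerivAt_id s).const_mul 4).div_const _
  have h := ((l1.mul a1).mul p1).sub (((a1.const_mul (6 / ρ ^ 2)).add (l2.mul a2)).mul p2)
  refine h.congr_deriv ?_
  unfold KL1_h1
  simp only [Pi.mul_apply, Pi.add_apply]
  generalize deriv zt (s / ρ ^ 2) = a
  generalize deriv (deriv zt) (s / ρ ^ 2) = b
  generalize deriv (deriv (deriv zt)) (s / ρ ^ 2) = c
  generalize (s + ε ^ 2) ^ (-(1/2) : ℝ) = u
  generalize (s + ε ^ 2) ^ (-(3/2) : ℝ) = v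
  generalize (s + ε ^ 2) ^ (-(5/2) : ℝ) = w
  field_simp
  ring

theorem KL1_half {ρ P : ℝ} (hρ : 0 < ρ) (hP : (ρ / 2) ^ 2 ≤ P) :
    ρ * P ^ (-(1/2) : ℝ) ≤ 2 ∧ ρ ^ 3 * P ^ (-(3/2) : ℝ) ≤ 8 ∧ ρ ^ 5 * P ^ (-(5/2) : ℝ) ≤ 32 := by
  have h0 : 0 < ρ / 2 := by positivity
  have key : ∀ n : ℕ, ρ ^ n * P ^ (-((n : ℝ) / 2)) ≤ 2 ^ n := by
    intro n
    have h1 : P ^ (-((n : ℝ) / 2)) ≤ ((ρ / 2) ^ 2) ^ (-((n : ℝ) / 2)) :=
      Real.rpow_le_rpow_of_nonpos (by positivity) hP (by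
        have : (0 : ℝ) ≤ n := Nat.cast_nonneg n
        linarith)
    have h2 : ((ρ / 2) ^ 2) ^ (-((n : ℝ) / 2)) = ((ρ / 2) ^ n)⁻¹ := by
      rw [← Real.rpow_natCast (ρ / 2) 2, ← Real.rpow_mul h0.le, ← Real.rpow_natCast (ρ / 2) n,
        ← Real.rpow_neg h0.le]
      congr 1
      push_cast
      ring
    rw [h2] at h1
    calc ρ ^ n * P ^ (-((n : ℝ) / 2)) ≤ ρ ^ n * ((ρ / 2) ^ n)⁻¹ :=
          mul_le_mul_of_nonneg_left h1 (by positivity)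
      _ = 2 ^ n := by
          rw [div_pow]
          field_simp
  have k1 := key 1
  have k3 := key 3
  have k5 := key 5
  norm_num at k1 k3 k5
  refine ⟨?_, ?_, ?_⟩
  · exact k1
  · exact k3
  · exact k5

theorem KL1_h1_le {C : ℝ} (hC1 : 1 ≤ C) (hC : ∀ s, |deriv zt s| ≤ C ∧ |deriv (deriv zt) s| ≤ C ∧
    |deriv (deriv (deriv zt)) s| ≤ C) {ε ρ s : ℝ} (hρ : 0 < ρ) (hs : 0 ≤ s) :
    |KL1_h1 ε ρ s| ≤ 324 * C / ρ ^ 5 := by
  have hC0 : 0 ≤ C := by linarith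
  by_cases hin : 1 / 2 ≤ s / ρ ^ 2 ∧ s / ρ ^ 2 ≤ 1
  · have hP : (ρ / 2) ^ 2 ≤ s + ε ^ 2 := by
      have h1 : 1 / 2 * ρ ^ 2 ≤ s := (le_div_iff₀ (by positivity)).1 hin.1
      have h2 : 0 ≤ ρ ^ 2 := by positivity
      have h3 : (ρ / 2) ^ 2 = ρ ^ 2 / 4 := by ring
      rw [h3]
      linarith [sq_nonneg ε]
    have hP0 : 0 < s + ε ^ 2 := lt_of_lt_of_le (by positivity) hP
    obtain ⟨k1, k3, k5⟩ := KL1_half hρ hP
    obtain ⟨c1, c2, c3⟩ := hC (s / ρ ^ 2)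
    have n1 : 0 ≤ (s + ε ^ 2) ^ (-(1/2) : ℝ) := (Real.rpow_pos_of_pos hP0 _).le
    have n3 : 0 ≤ (s + ε ^ 2) ^ (-(3/2) : ℝ) := (Real.rpow_pos_of_pos hP0 _).le
    have n5 : 0 ≤ (s + ε ^ 2) ^ (-(5/2) : ℝ) := (Real.rpow_pos_of_pos hP0 _).le
    have hid : KL1_h1 ε ρ s * ρ ^ 5 =
        4 * (deriv zt (s / ρ ^ 2) * (ρ ^ 3 * (s + ε ^ 2) ^ (-(3/2) : ℝ))
          + deriv (deriv zt) (s / ρ ^ 2) * (s / ρ ^ 2 * (ρ ^ 3 * (s + ε ^ 2) ^ (-(3/2) : ℝ)))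
          - 3 / 2 * (deriv zt (s / ρ ^ 2) * (s / ρ ^ 2 * (ρ ^ 5 * (s + ε ^ 2) ^ (-(5/2) : ℝ)))))
        - 6 * (deriv (deriv zt) (s / ρ ^ 2) * (ρ * (s + ε ^ 2) ^ (-(1/2) : ℝ))
          - 1 / 2 * (deriv zt (s / ρ ^ 2) * (ρ ^ 3 * (s + ε ^ 2) ^ (-(3/2) : ℝ))))
        - 4 * (deriv (deriv zt) (s / ρ ^ 2) * (ρ * (s + ε ^ 2) ^ (-(1/2) : ℝ))
          + deriv (deriv (deriv zt)) (s / ρ ^ 2) * (s / ρ ^ 2 * (ρ * (s + ε ^ 2) ^ (-(1/2) : ℝ)))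
          - 1 / 2 * (deriv (deriv zt) (s / ρ ^ 2) *
            (s / ρ ^ 2 * (ρ ^ 3 * (s + ε ^ 2) ^ (-(3/2) : ℝ))))) := by
      unfold KL1_h1
      generalize deriv zt (s / ρ ^ 2) = a
      generalize deriv (deriv zt) (s / ρ ^ 2) = b
      generalize deriv (deriv (deriv zt)) (s / ρ ^ 2) = c
      generalize (s + ε ^ 2) ^ (-(1/2) : ℝ) = u
      generalize (s + ε ^ 2) ^ (-(3/2) : ℝ) = v
      generalize (s + ε ^ 2) ^ (-(5/2) : ℝ) = w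
      field_simp
    have t0 : 0 ≤ s / ρ ^ 2 := by positivity
    have b1 := KL1_prod c1 (by positivity) k3
    have b2 := KL1_prod c2 (show 0 ≤ s / ρ ^ 2 * (ρ ^ 3 * (s + ε ^ 2) ^ (-(3/2) : ℝ)) by positivity)
      (show s / ρ ^ 2 * (ρ ^ 3 * (s + ε ^ 2) ^ (-(3/2) : ℝ)) ≤ 1 * 8 from
        mul_le_mul hin.2 k3 (by positivity) zero_le_one)
    have b3 := KL1_prod c1 (show 0 ≤ s / ρ ^ 2 * (ρ ^ 5 * (s + ε ^ 2) ^ (-(5/2) : ℝ)) by positivity)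
      (show s / ρ ^ 2 * (ρ ^ 5 * (s + ε ^ 2) ^ (-(5/2) : ℝ)) ≤ 1 * 32 from
        mul_le_mul hin.2 k5 (by positivity) zero_le_one)
    have b4 := KL1_prod c2 (by positivity) k1
    have b5 := KL1_prod c3 (show 0 ≤ s / ρ ^ 2 * (ρ * (s + ε ^ 2) ^ (-(1/2) : ℝ)) by positivity)
      (show s / ρ ^ 2 * (ρ * (s + ε ^ 2) ^ (-(1/2) : ℝ)) ≤ 1 * 2 from
        mul_le_mul hin.2 k1 (by positivity) zero_le_one)
    rw [le_div_iff₀ (by positivity)]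
    have habs : |KL1_h1 ε ρ s| * ρ ^ 5 = |KL1_h1 ε ρ s * ρ ^ 5| := by
      rw [abs_mul, abs_of_pos (show 0 < ρ ^ 5 by positivity)]
    rw [habs, hid]
    rw [abs_le] at b1 b2 b3 b4 b5 ⊢
    obtain ⟨x1, y1⟩ := b1
    obtain ⟨x2, y2⟩ := b2
    obtain ⟨x3, y3⟩ := b3
    obtain ⟨x4, y4⟩ := b4
    obtain ⟨x5, y5⟩ := b5
    constructor
    · linarith only [x1, x2, y3, y4, y5]
    · linarith
  · have hz : deriv zt (s / ρ ^ 2) = 0 ∧ deriv (deriv zt) (s / ρ ^ 2) = 0 ∧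
        deriv (deriv (deriv zt)) (s / ρ ^ 2) = 0 := by
      rw [not_and_or, not_le, not_le] at hin
      rcases hin with h | h
      · exact ⟨KL1_o1.1 _ h.le, KL1_o2.1 _ h.le, KL1_o3.1 _ h.le⟩
      · exact ⟨KL1_o1.2 _ h.le, KL1_o2.2 _ h.le, KL1_o3.2 _ h.le⟩
    have h0 : KL1_h1 ε ρ s = 0 := by
      unfold KL1_h1
      rw [hz.1, hz.2.1, hz.2.2]
      ring
    rw [h0, abs_zero]
    positivity

theorem hL_bd : ∃ C : ℝ, 0 < C ∧ ∀ ε ρ : ℝ, 0 < ε → 0 < ρ →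
    (∀ s s' : ℝ, 0 ≤ s → 0 ≤ s' → |hL ε ρ s - hL ε ρ s'| ≤ C / ρ ^ 5 * |s - s'|) ∧
    (∀ s : ℝ, 0 ≤ s → |hL ε ρ s| ≤ C / ρ ^ 3) ∧ (∀ s : ℝ, ρ ^ 2 ≤ s → hL ε ρ s = 0) := by
  obtain ⟨C, hC1, hC⟩ := KL1_const
  refine ⟨324 * C, by linarith, ?_⟩
  intro ε ρ hε hρ
  have hlip : ∀ s s' : ℝ, 0 ≤ s → 0 ≤ s' →
      |hL ε ρ s - hL ε ρ s'| ≤ 324 * C / ρ ^ 5 * |s - s'| := by
    intro s s' hs hs'
    have h1 := (convex_Ici (0 : ℝ)).norm_image_sub_le_of_norm_hasDerivWithin_le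
      (f := hL ε ρ) (f' := KL1_h1 ε ρ) (C := 324 * C / ρ ^ 5)
      (fun x hx => (KL1_hd (by have : (0 : ℝ) ≤ x := hx
                               positivity) hρ).hasDerivWithinAt)
      (fun x hx => KL1_h1_le hC1 hC hρ hx) (show s' ∈ Ici (0 : ℝ) from hs')
      (show s ∈ Ici (0 : ℝ) from hs)
    exact h1
  have hzero : ∀ s : ℝ, ρ ^ 2 ≤ s → hL ε ρ s = 0 := by
    intro s hs
    have h1 : 1 ≤ s / ρ ^ 2 := (one_le_div (by positivity)).2 hs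
    unfold hL
    rw [KL1_o1.2 _ h1, KL1_o2.2 _ h1]
    ring
  refine ⟨hlip, ?_, hzero⟩
  intro s hs
  by_cases h : ρ ^ 2 ≤ s
  · rw [hzero s h, abs_zero]
    positivity
  · push Not at h
    have h1 := hlip s (ρ ^ 2) hs (by positivity)
    rw [hzero _ le_rfl, sub_zero] at h1
    have h2 : |s - ρ ^ 2| ≤ ρ ^ 2 := by
      rw [abs_le]
      constructor
      · linarith
      · have : 0 < ρ ^ 2 := by positivity
        linarith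
    calc |hL ε ρ s| ≤ 324 * C / ρ ^ 5 * |s - ρ ^ 2| := h1
      _ ≤ 324 * C / ρ ^ 5 * ρ ^ 2 := mul_le_mul_of_nonneg_left h2 (by positivity)
      _ = 324 * C / ρ ^ 3 := by
          field_simp

end Pool.Agent.H87.NS
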