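/-
ROW KL4. PROOF. As NS/KSym.lean (kernel_sym), with `LK` in place of `MK`: same symmetries, (a), (b), (c) unchanged (`LK ε ρ i z = z i * gL ε ρ (‖z‖²)`), and (d):
with `s = ‖x - y‖² = (r - y₀)² + q`, `s' = ‖x - σ₀ y‖² = (r + y₀)² + q`, `q = y₁² + d²`, `d = x₂ - y₂`:
`|y₀| |d| |gL(s) - gL(s')| ≤ C |y₀| |d| |s^(-3/2) - s'^(-3/2)| ≤ 12 C r (s⁻¹ + s'⁻¹)` by gL_diff and kernel_ineq (case `q > 0`, i.e. off a null set), and
the left side is `0` if both `s, s' ≥ ρ²` (gL_zero). So it is `≤ 24 C r (s⁻¹ 1_{s < ρ²} + s'⁻¹ 1_{s' < ρ²})` (if `s ≤ s'` then `s⁻¹ + s'⁻¹ ≤ 2 s⁻¹`). Integrate; the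
integral of the second term equals the first (change of variables `σ₀`). `‖x-y‖² < ρ²` iff `y ∈ ball x ρ`.
-/
import Pool.Agent.H87.NC.KL1
import Pool.Agent.H87.NS.KSym

set_option autoImplicit false

open Set Filter Topology MeasureTheory
open scoped ContDiff

namespace Pool.Agent.H87.NS

open Pool.Agent.H16

theorem KL4_pt {C : ℝ} (hC0 : 0 < C) (hC : ∀ ε ρ s s' : ℝ, 0 < ε → 0 < ρ → 0 < s → s ≤ s' →
    |gL ε ρ s - gL ε ρ s'| ≤ C * (s ^ (-(3/2) : ℝ) - s' ^ (-(3/2) : ℝ))) {ε ρ : ℝ} (hε : 0 < ε) (hρ : 0 < ρ)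
    {r y q d : ℝ} (hr : 0 < r) (hq : d ^ 2 ≤ q) {s s' : ℝ} (hs : 0 < s) (hs' : 0 < s')
    (h1 : (r - y) ^ 2 + q = s) (h2 : (r + y) ^ 2 + q = s') :
    |y| * |d| * |gL ε ρ s - gL ε ρ s'| ≤
      24 * C * r * ((if s < ρ ^ 2 then s⁻¹ else 0) + (if s' < ρ ^ 2 then s'⁻¹ else 0)) := by
  have hi : 0 < s⁻¹ := inv_pos.2 hs
  have hi' : 0 < s'⁻¹ := inv_pos.2 hs'
  have hR : 0 ≤ 24 * C * r * ((if s < ρ ^ 2 then s⁻¹ else 0) + (if s' < ρ ^ 2 then s'⁻¹ else 0)) := by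
    apply mul_nonneg (by positivity)
    split_ifs <;> positivity
  rcases (sq_nonneg d).eq_or_lt with hd | hd
  · have hd0 : d = 0 := by
      have := hd.symm
      exact pow_eq_zero_iff two_ne_zero |>.1 this
    rw [hd0, abs_zero, mul_zero, zero_mul]
    exact hR
  · have hk := kernel_ineq (y := y) hr hq (hd.trans_le hq)
    rw [h1, h2] at hk
    have hy : 0 ≤ |y| * |d| := by positivity
    rcases le_total s s' with h | h
    · rcases lt_or_ge s (ρ ^ 2) with h3 | h3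
      · have e1 : |gL ε ρ s - gL ε ρ s'| ≤ C * |s ^ (-(3/2) : ℝ) - s' ^ (-(3/2) : ℝ)| :=
          (hC ε ρ s s' hε hρ hs h).trans (mul_le_mul_of_nonneg_left (le_abs_self _) hC0.le)
        have e2 : s'⁻¹ ≤ s⁻¹ := inv_anti₀ hs h
        have e3 : |y| * |d| * |gL ε ρ s - gL ε ρ s'| ≤ C * (12 * r * (s⁻¹ + s'⁻¹)) := by
          calc |y| * |d| * |gL ε ρ s - gL ε ρ s'| ≤ |y| * |d| * (C * |s ^ (-(3/2) : ℝ) - s' ^ (-(3/2) : ℝ)|) :=
                mul_le_mul_of_nonneg_left e1 hy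
            _ = C * (|y| * |d| * |s ^ (-(3/2) : ℝ) - s' ^ (-(3/2) : ℝ)|) := by ring
            _ ≤ _ := mul_le_mul_of_nonneg_left hk hC0.le
        have e4 : C * (12 * r * (s⁻¹ + s'⁻¹)) ≤ 24 * C * r * s⁻¹ := by
          have : C * (12 * r * (s⁻¹ + s'⁻¹)) ≤ C * (12 * r * (s⁻¹ + s⁻¹)) := by gcongr
          linarith
        have e5 : 24 * C * r * s⁻¹ ≤ 24 * C * r * ((if s < ρ ^ 2 then s⁻¹ else 0) + (if s' < ρ ^ 2 then s'⁻¹ else 0)) := by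
          apply mul_le_mul_of_nonneg_left _ (by positivity)
          rw [if_pos h3]
          split_ifs <;> linarith
        exact (e3.trans e4).trans e5
      · rw [gL_zero hρ h3, gL_zero hρ (h3.trans h), sub_zero, abs_zero, mul_zero]
        exact hR
    · rcases lt_or_ge s' (ρ ^ 2) with h3 | h3
      · have e1 : |gL ε ρ s - gL ε ρ s'| ≤ C * |s ^ (-(3/2) : ℝ) - s' ^ (-(3/2) : ℝ)| := by
          rw [abs_sub_comm, abs_sub_comm (s ^ (-(3/2) : ℝ))]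
          exact (hC ε ρ s' s hε hρ hs' h).trans (mul_le_mul_of_nonneg_left (le_abs_self _) hC0.le)
        have e2 : s⁻¹ ≤ s'⁻¹ := inv_anti₀ hs' h
        have e3 : |y| * |d| * |gL ε ρ s - gL ε ρ s'| ≤ C * (12 * r * (s⁻¹ + s'⁻¹)) := by
          calc |y| * |d| * |gL ε ρ s - gL ε ρ s'| ≤ |y| * |d| * (C * |s ^ (-(3/2) : ℝ) - s' ^ (-(3/2) : ℝ)|) :=
                mul_le_mul_of_nonneg_left e1 hy
            _ = C * (|y| * |d| * |s ^ (-(3/2) : ℝ) - s' ^ (-(3/2) : ℝ)|) := by ring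
            _ ≤ _ := mul_le_mul_of_nonneg_left hk hC0.le
        have e4 : C * (12 * r * (s⁻¹ + s'⁻¹)) ≤ 24 * C * r * s'⁻¹ := by
          have : C * (12 * r * (s⁻¹ + s'⁻¹)) ≤ C * (12 * r * (s'⁻¹ + s'⁻¹)) := by gcongr
          linarith
        have e5 : 24 * C * r * s'⁻¹ ≤ 24 * C * r * ((if s < ρ ^ 2 then s⁻¹ else 0) + (if s' < ρ ^ 2 then s'⁻¹ else 0)) := by
          apply mul_le_mul_of_nonneg_left _ (by positivity)
          rw [if_pos h3]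
          split_ifs <;> linarith
        exact (e3.trans e4).trans e5
      · rw [gL_zero hρ h3, gL_zero hρ (h3.trans h), sub_zero, abs_zero, mul_zero]
        exact hR

theorem kernel_sym_loc : ∃ C : ℝ, 0 < C ∧ ∀ (v : E3 → E3) (K : ℝ), AxF v → (∀ j : Fin 3, DB 1 K (fun x => curl v x j)) →
    ContDiff ℝ ∞ (sO v) → BL K (sO v) → ∀ (ε ρ : ℝ), 0 < ε → 0 < ρ → ∀ x : E3, 0 < x 0 → x 1 = 0 →
    |∫ y, (curl v y 1 * LK ε ρ 2 (x - y) - curl v y 2 * LK ε ρ 1 (x - y))|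
      ≤ C * x 0 * ∫ y in Metric.ball x ρ, |sO v y| / ‖x - y‖ ^ 2 := by
  obtain ⟨C, hC0, hC⟩ := gL_diff
  refine ⟨24 * C, by positivity, ?_⟩
  intro v K hv hK hO hOK ε ρ hε hρ x hx0 hx1
  have hw := curl_axF hv
  have hwc : ∀ j : Fin 3, Continuous (fun y => curl v y j) := fun j =>
    (continuous_coord j).comp hw.smooth.continuous
  have hMc : ∀ j : Fin 3, Continuous (fun y => LK ε ρ j (x - y)) := fun j =>
    (LK_smooth hε hρ j).continuous.comp (continuous_const.sub continuous_id)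
  have hI : ∀ i j : Fin 3, Integrable (fun y => curl v y i * LK ε ρ j (x - y)) := by
    intro i j
    obtain ⟨K', hK'⟩ := LK_DB hε hρ j
    exact BL_mul (hwc i) (hMc j) (DB_BL (hK i)) (KSym_trBL (DB_BL hK') x)
  set s := KSym_sg 1 (-1) (by norm_num) (by norm_num) with hs
  set t := KSym_sg (-1) 1 (by norm_num) (by norm_num) with ht
  have hn : ∀ y : E3, ‖x - s y‖ ^ 2 = ‖x - y‖ ^ 2 := by
    intro y
    rw [norm_sq_eq, norm_sq_eq]
    change (x 0 - 1 * y 0) ^ 2 + (x 1 - (-1) * y 1) ^ 2 + (x 2 - y 2) ^ 2 =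
      (x 0 - y 0) ^ 2 + (x 1 - y 1) ^ 2 + (x 2 - y 2) ^ 2
    rw [hx1]
    ring
  have hM1 : ∀ y : E3, LK ε ρ 1 (x - s y) = - LK ε ρ 1 (x - y) := by
    intro y
    unfold LK
    rw [hn]
    change (x 1 - (-1) * y 1) * _ = - ((x 1 - y 1) * _)
    rw [hx1]
    ring
  have hM2 : ∀ y : E3, LK ε ρ 2 (x - s y) = LK ε ρ 2 (x - y) := by
    intro y
    unfold LK
    rw [hn]
    rfl
  have key := KSym_avg (F := fun y => curl v y 1 * LK ε ρ 2 (x - y) - curl v y 2 * LK ε ρ 1 (x - y))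
    (G := fun y => 2 * y 0 * sO v y * LK ε ρ 2 (x - y))
    (H := fun y => 2 * y 0 * sO v y * (LK ε ρ 2 (x - y) - LK ε ρ 2 (x - t y))) s t ((hI 1 2).sub (hI 2 1))
    (by
      intro y
      obtain ⟨h1, h2⟩ := KSym_w hv y
      change curl v y 1 * LK ε ρ 2 (x - y) - curl v y 2 * LK ε ρ 1 (x - y) +
        (curl v (s y) 1 * LK ε ρ 2 (x - s y) - curl v (s y) 2 * LK ε ρ 1 (x - s y)) =
        2 * y 0 * sO v y * LK ε ρ 2 (x - y)
      rw [hM1, hM2, ← h2, h1]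
      ring)
    (by
      intro y
      change 2 * y 0 * sO v y * LK ε ρ 2 (x - y) + 2 * (t y) 0 * sO v (t y) * LK ε ρ 2 (x - t y) =
        2 * y 0 * sO v y * (LK ε ρ 2 (x - y) - LK ε ρ 2 (x - t y))
      rw [ht, KSym_sg_zero, KSym_O hv]
      ring)
  set B : E3 → ℝ := (Metric.ball x ρ).indicator (fun y => |sO v y| / ‖x - y‖ ^ 2) with hB
  have hBv : ∀ y, B y = |sO v y| * (if ‖x - y‖ ^ 2 < ρ ^ 2 then (‖x - y‖ ^ 2)⁻¹ else 0) := by
    intro y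
    have h0 : y ∈ Metric.ball x ρ ↔ ‖x - y‖ ^ 2 < ρ ^ 2 := by
      rw [Metric.mem_ball, dist_comm, dist_eq_norm]
      exact (sq_lt_sq₀ (norm_nonneg _) hρ.le).symm
    by_cases h : ‖x - y‖ ^ 2 < ρ ^ 2
    · rw [hB, indicator_of_mem (h0.2 h), if_pos h, div_eq_mul_inv]
    · rw [hB, indicator_of_notMem (fun h1 => h (h0.1 h1)), if_neg h, mul_zero]
  have hid : Integrable B := (int_div hO.continuous hOK x).indicator measurableSet_ball
  have hid2 : Integrable (fun y => B (t y)) := KSym_covI t hid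
  have hBt : ∀ y, B (t y) = |sO v y| * (if ‖x - t y‖ ^ 2 < ρ ^ 2 then (‖x - t y‖ ^ 2)⁻¹ else 0) := by
    intro y
    rw [hBv, ht, KSym_O hv]
  have hie : ∫ y, B (t y) = ∫ y, B y := KSym_cov t B
  have hbi : Integrable (fun y => 48 * C * x 0 * (B y + B (t y))) :=
    (hid.add hid2).const_mul _
  have hb : ∀ᵐ y : E3, ‖2 * y 0 * sO v y * (LK ε ρ 2 (x - y) - LK ε ρ 2 (x - t y))‖ ≤
      48 * C * x 0 * (B y + B (t y)) := by
    have hn1 : ∀ᵐ y : E3, y ≠ x := Measure.ae_ne volume x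
    have hn2 : ∀ᵐ y : E3, y ≠ t x := Measure.ae_ne volume (t x)
    filter_upwards [hn1, hn2] with y hy1 hy2
    have hp1 : 0 < ‖x - y‖ ^ 2 := by
      have := norm_pos_iff.2 (sub_ne_zero.2 hy1.symm)
      positivity
    have hty : x - t y ≠ 0 := by
      intro h
      apply hy2
      have h5 : t y = x := (sub_eq_zero.1 h).symm
      rw [← h5]
      apply ext3
      · change y 0 = -1 * (-1 * y 0)
        ring
      · change y 1 = 1 * (1 * y 1)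
        ring
      · rfl
    have hp2 : 0 < ‖x - t y‖ ^ 2 := by
      have := norm_pos_iff.2 hty
      positivity
    have hq : (x 2 - y 2) ^ 2 ≤ y 1 ^ 2 + (x 2 - y 2) ^ 2 := by nlinarith [sq_nonneg (y 1)]
    have hP1 : (x 0 - y 0) ^ 2 + (y 1 ^ 2 + (x 2 - y 2) ^ 2) = ‖x - y‖ ^ 2 := by
      rw [norm_sq_eq]
      change _ = (x 0 - y 0) ^ 2 + (x 1 - y 1) ^ 2 + (x 2 - y 2) ^ 2
      rw [hx1]
      ring
    have hP2 : (x 0 + y 0) ^ 2 + (y 1 ^ 2 + (x 2 - y 2) ^ 2) = ‖x - t y‖ ^ 2 := by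
      rw [norm_sq_eq]
      change _ = (x 0 - (-1) * y 0) ^ 2 + (x 1 - 1 * y 1) ^ 2 + (x 2 - y 2) ^ 2
      rw [hx1]
      ring
    have hk := KL4_pt hC0 hC hε hρ (y := y 0) hx0 hq hp1 hp2 hP1 hP2
    have hA : LK ε ρ 2 (x - y) - LK ε ρ 2 (x - t y) =
        (x 2 - y 2) * (gL ε ρ (‖x - y‖ ^ 2) - gL ε ρ (‖x - t y‖ ^ 2)) := by
      unfold LK
      change (x 2 - y 2) * _ - (x 2 - y 2) * _ = _
      ring
    rw [hA, Real.norm_eq_abs, abs_mul, abs_mul, abs_mul, abs_mul, abs_two, hBv y, hBt y]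
    calc 2 * |y 0| * |sO v y| * (|x 2 - y 2| * |gL ε ρ (‖x - y‖ ^ 2) - gL ε ρ (‖x - t y‖ ^ 2)|)
        = 2 * |sO v y| * (|y 0| * |x 2 - y 2| * |gL ε ρ (‖x - y‖ ^ 2) - gL ε ρ (‖x - t y‖ ^ 2)|) := by ring
      _ ≤ 2 * |sO v y| * (24 * C * x 0 * ((if ‖x - y‖ ^ 2 < ρ ^ 2 then (‖x - y‖ ^ 2)⁻¹ else 0) +
          (if ‖x - t y‖ ^ 2 < ρ ^ 2 then (‖x - t y‖ ^ 2)⁻¹ else 0))) :=
          mul_le_mul_of_nonneg_left hk (by positivity)
      _ = 48 * C * x 0 * (|sO v y| * (if ‖x - y‖ ^ 2 < ρ ^ 2 then (‖x - y‖ ^ 2)⁻¹ else 0) +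
          |sO v y| * (if ‖x - t y‖ ^ 2 < ρ ^ 2 then (‖x - t y‖ ^ 2)⁻¹ else 0)) := by ring
  have hfin := norm_integral_le_of_norm_le hbi hb
  have hBi : ∫ y, B y = ∫ y in Metric.ball x ρ, |sO v y| / ‖x - y‖ ^ 2 := by
    rw [hB, integral_indicator measurableSet_ball]
  rw [← key, integral_const_mul, integral_add hid hid2, hie, hBi, Real.norm_eq_abs, abs_mul,
    abs_of_pos (show (0 : ℝ) < 4 by norm_num)] at hfin
  linarith

end Pool.Agent.H87.NS
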