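/-
ROW KL5. PROOF. Let `π y = (-y₀, -y₁, y₂) = rot π y`: `(v (π y)) 0 = - v y 0` (AxF.ax). Measure preserving, so
`I = ∫ v₀(y) hL(‖x-y‖²) dy = (1/2) ∫ v₀(y) (hL(‖x-y‖²) - hL(‖x-π y‖²)) dy`, and `‖x-π y‖² - ‖x-y‖² = 4 x₀ y₀` (`x₁ = 0`). The bracket vanishes unless
`‖x-y‖ < ρ` or `‖x-π y‖ < ρ`; if `x₀ ≤ ρ` then `|y₀| ≤ 2 ρ` there and it is `≤ C ρ⁻⁵ 8 x₀ ρ`; if `x₀ > ρ` it is `≤ 2 C ρ⁻³ ≤ 2 C x₀ ρ⁻⁴` (hL_bd). So
`|I| ≤ 4 C x₀ ρ⁻⁴ (∫_{B(x,ρ)} |v₀| + ∫_{π B(x,ρ)} |v₀|) = 8 C x₀ ρ⁻⁴ ∫_{B(x,ρ)} |v₀| ≤ 8 C x₀ ρ⁻⁴ (vol B(x,ρ))^(1/2) (∫ ‖v‖²)^(1/2)` (Cauchy-Schwarz), and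
`vol B(x, ρ) = (4/3) π ρ³ ≤ 5 ρ³` (`EuclideanSpace.volume_ball_fin_three` or `Measure.addHaar_ball`, any constant will do). `ρ⁻⁴ ρ^(3/2) = ρ^(-5/2)`.
The statement is with `√(1 / ρ ^ 5)` for `ρ^(-5/2)`.
-/
import Pool.Agent.H87.NC.KL1
import Pool.Agent.H87.NS.IBP

set_option autoImplicit false

open Set Filter Topology MeasureTheory
open scoped ContDiff

namespace Pool.Agent.H87.NS

open Pool.Agent.H16

/-- the rotation by `π` about the axis -/
private noncomputable def KL5_P : E3 ≃ₗᵢ[ℝ] E3 :=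
  LinearIsometryEquiv.piLpCongrRight 2
    (fun i : Fin 3 => if i = 2 then LinearIsometryEquiv.refl ℝ ℝ else LinearIsometryEquiv.neg ℝ)

private theorem KL5_P0 (y : E3) : KL5_P y 0 = - y 0 := by
  simp [KL5_P]

private theorem KL5_P1 (y : E3) : KL5_P y 1 = - y 1 := by
  simp [KL5_P]

private theorem KL5_P2 (y : E3) : KL5_P y 2 = y 2 := by
  simp [KL5_P]

private theorem KL5_rot (y : E3) : KL5_P y = rot Real.pi y := by
  ext i
  fin_cases i
  · change KL5_P y 0 = rot Real.pi y 0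
    rw [KL5_P0]
    simp [rot]
  · change KL5_P y 1 = rot Real.pi y 1
    rw [KL5_P1]
    simp [rot]
  · change KL5_P y 2 = rot Real.pi y 2
    rw [KL5_P2]
    simp [rot]

private theorem KL5_v {v : E3 → E3} (hv : AxF v) (y : E3) : v (KL5_P y) 0 = - v y 0 := by
  rw [KL5_rot, hv.ax]
  simp [rot]

private theorem KL5_norm (x : E3) : ‖x‖ ^ 2 = x 0 ^ 2 + x 1 ^ 2 + x 2 ^ 2 := by
  rw [EuclideanSpace.norm_sq_eq, Fin.sum_univ_three]
  simp only [Real.norm_eq_abs, sq_abs]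

private theorem KL5_diff {x : E3} (hx1 : x 1 = 0) (y : E3) :
    ‖x - KL5_P y‖ ^ 2 - ‖x - y‖ ^ 2 = 4 * x 0 * y 0 := by
  rw [KL5_norm, KL5_norm]
  simp only [PiLp.sub_apply, KL5_P0, KL5_P1, KL5_P2, hx1]
  ring

private theorem KL5_coord (x : E3) (i : Fin 3) : |x i| ≤ ‖x‖ := by
  have := PiLp.norm_apply_le x i
  rwa [Real.norm_eq_abs] at this

private theorem KL5_cs {f : E3 → ℝ} (hf : Continuous f) (hi : Integrable (fun x => f x ^ 2)) (x : E3) (ρ : ℝ) :
    ∫ y, |f y| * (Metric.ball x ρ).indicator (fun _ => (1 : ℝ)) y ≤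
      √(∫ y, f y ^ 2) * √((volume (Metric.ball x ρ)).toReal) := by
  have hm : MemLp (fun x => |f x|) (ENNReal.ofReal 2) := by
    rw [ENNReal.ofReal_ofNat]
    refine (memLp_two_iff_integrable_sq hf.abs.aestronglyMeasurable).2 ?_
    refine hi.congr (Filter.Eventually.of_forall fun x => ?_)
    exact (sq_abs (f x)).symm
  have hm2 : MemLp ((Metric.ball x ρ).indicator (fun _ => (1 : ℝ))) (ENNReal.ofReal 2)
      (volume : Measure E3) :=
    memLp_indicator_const _ measurableSet_ball _ (Or.inr measure_ball_lt_top.ne)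
  have h1 := MeasureTheory.integral_mul_le_Lp_mul_Lq_of_nonneg (μ := (volume : Measure E3))
    Real.HolderConjugate.two_two
    (f := fun x => |f x|) (g := (Metric.ball x ρ).indicator (fun _ => (1 : ℝ)))
    (Filter.Eventually.of_forall fun x => abs_nonneg _)
    (Filter.Eventually.of_forall fun x => Set.indicator_nonneg (fun _ _ => zero_le_one) _) hm hm2
  have h2 : ∀ y : ℝ, |y| ^ (2 : ℝ) = y ^ 2 := by
    intro y
    rw [Real.rpow_two, sq_abs]
  have h3 : ∫ a, (Metric.ball x ρ).indicator (fun _ => (1 : ℝ)) a ^ (2 : ℝ) =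
      (volume (Metric.ball x ρ)).toReal := by
    have h4 : (fun a : E3 => (Metric.ball x ρ).indicator (fun _ => (1 : ℝ)) a ^ (2 : ℝ)) =
        (Metric.ball x ρ).indicator (fun _ => (1 : ℝ)) := by
      funext a
      by_cases ha : a ∈ Metric.ball x ρ
      · rw [Set.indicator_of_mem ha, Real.one_rpow]
      · rw [Set.indicator_of_notMem ha, Real.zero_rpow two_ne_zero]
    rw [h4, integral_indicator measurableSet_ball, setIntegral_const, smul_eq_mul, mul_one]
    rfl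
  simp only [h2] at h1
  rw [h3] at h1
  rw [Real.sqrt_eq_rpow, Real.sqrt_eq_rpow]
  exact h1

theorem kernel_q : ∃ C : ℝ, 0 < C ∧ ∀ v : E3 → E3, AxF v → Integrable (fun x => ‖v x‖ ^ 2) →
    ∀ (ε ρ : ℝ), 0 < ε → 0 < ρ → ∀ x : E3, 0 < x 0 → x 1 = 0 →
    |∫ y, v y 0 * hL ε ρ (‖x - y‖ ^ 2)| ≤ C * x 0 * (√(1 / ρ ^ 5) * √(∫ y, ‖v y‖ ^ 2)) := by
  obtain ⟨C, hC, hb⟩ := hL_bd
  set c : ℝ := (volume (Metric.ball (0 : E3) 1)).toReal with hc
  have hc0 : 0 ≤ c := ENNReal.toReal_nonneg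
  refine ⟨8 * C * √c + 1, by positivity, ?_⟩
  intro v hv hvi ε ρ hε hρ x hx0 hx1
  obtain ⟨hlip, hbd, hzero⟩ := hb ε ρ hε hρ
  have hvc : Continuous v := hv.smooth.continuous
  have hv0c : Continuous (fun y => v y 0) :=
    (EuclideanSpace.proj (𝕜 := ℝ) (ι := Fin 3) (0 : Fin 3)).continuous.comp hvc
  have hv0i : Integrable (fun y => v y 0 ^ 2) := by
    refine Integrable.mono' hvi (hv0c.pow 2).aestronglyMeasurable ?_
    refine Filter.Eventually.of_forall fun y => ?_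
    rw [Real.norm_eq_abs, abs_of_nonneg (sq_nonneg _)]
    have := pow_le_pow_left₀ (abs_nonneg _) (KL5_coord (v y) 0) 2
    rwa [sq_abs] at this
  have hv0le : ∫ y, v y 0 ^ 2 ≤ ∫ y, ‖v y‖ ^ 2 := by
    refine integral_mono hv0i hvi fun y => ?_
    have := pow_le_pow_left₀ (abs_nonneg _) (KL5_coord (v y) 0) 2
    rwa [sq_abs] at this
  have hhc : Continuous (fun y => hL ε ρ (‖x - y‖ ^ 2)) :=
    (hL_cont hε hρ).comp (continuous_const.sub continuous_id)
  have hfz : ∀ y, y ∉ Metric.closedBall x ρ → hL ε ρ (‖x - y‖ ^ 2) = 0 := by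
    intro y hy
    rw [Metric.mem_closedBall, dist_comm, dist_eq_norm, not_le] at hy
    exact hzero _ (pow_le_pow_left₀ hρ.le hy.le 2)
  set f : E3 → ℝ := fun y => v y 0 * hL ε ρ (‖x - y‖ ^ 2) with hf
  have hfc : Continuous f := hv0c.mul hhc
  have hfi : Integrable f := by
    refine hfc.integrable_of_hasCompactSupport ?_
    refine HasCompactSupport.intro (isCompact_closedBall x ρ) fun y hy => ?_
    rw [hf]
    simp only [hfz y hy, mul_zero]
  have hfP : ∀ y, f (KL5_P y) = - (v y 0 * hL ε ρ (‖x - KL5_P y‖ ^ 2)) := by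
    intro y
    simp only [hf, KL5_v hv]
    ring
  have hfPi : Integrable (fun y => f (KL5_P y)) :=
    (KL5_P.measurePreserving.integrable_comp_emb KL5_P.toMeasurableEquiv.measurableEmbedding).2 hfi
  have hI : ∫ y, f (KL5_P y) = ∫ y, f y := KL5_P.measurePreserving.integral_comp' (f := KL5_P.toMeasurableEquiv) f
  have h2I : 2 * ∫ y, f y = ∫ y, (f y + f (KL5_P y)) := by
    rw [integral_add hfi hfPi, hI]
    ring
  -- the weight
  set w : E3 → ℝ := fun y => |v y 0| * (Metric.ball x ρ).indicator (fun _ => (1 : ℝ)) y with hw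
  have hwi : Integrable w := by
    have h1 : w = (Metric.ball x ρ).indicator (fun y => |v y 0|) := by
      funext y
      simp only [hw]
      by_cases hy : y ∈ Metric.ball x ρ
      · rw [Set.indicator_of_mem hy, Set.indicator_of_mem hy, mul_one]
      · rw [Set.indicator_of_notMem hy, Set.indicator_of_notMem hy, mul_zero]
    rw [h1, integrable_indicator_iff measurableSet_ball]
    exact (hv0c.abs.continuousOn.integrableOn_compact (isCompact_closedBall x ρ)).mono_set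
      Metric.ball_subset_closedBall
  have hwPi : Integrable (fun y => w (KL5_P y)) :=
    (KL5_P.measurePreserving.integrable_comp_emb KL5_P.toMeasurableEquiv.measurableEmbedding).2 hwi
  have hwI : ∫ y, w (KL5_P y) = ∫ y, w y := KL5_P.measurePreserving.integral_comp' (f := KL5_P.toMeasurableEquiv) w
  set M : ℝ := 8 * C * x 0 / ρ ^ 4 with hM
  have hM0 : 0 ≤ M := by positivity
  have hpt : ∀ y, |f y + f (KL5_P y)| ≤ M * (w y + w (KL5_P y)) := by
    intro y
    have e1 : f y + f (KL5_P y) =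
        v y 0 * (hL ε ρ (‖x - y‖ ^ 2) - hL ε ρ (‖x - KL5_P y‖ ^ 2)) := by
      rw [hfP]
      simp only [hf]
      ring
    have e2 : w (KL5_P y) = |v y 0| * (Metric.ball x ρ).indicator (fun _ => (1 : ℝ)) (KL5_P y) := by
      simp only [hw, KL5_v hv, abs_neg]
    have e3 : M * (w y + w (KL5_P y)) = |v y 0| * (M * ((Metric.ball x ρ).indicator (fun _ => (1 : ℝ)) y +
        (Metric.ball x ρ).indicator (fun _ => (1 : ℝ)) (KL5_P y))) := by
      rw [e2]
      simp only [hw]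
      ring
    rw [e1, e3, abs_mul]
    refine mul_le_mul_of_nonneg_left ?_ (abs_nonneg _)
    have hi1 : 0 ≤ (Metric.ball x ρ).indicator (fun _ => (1 : ℝ)) y :=
      Set.indicator_nonneg (fun _ _ => zero_le_one) _
    have hi2 : 0 ≤ (Metric.ball x ρ).indicator (fun _ => (1 : ℝ)) (KL5_P y) :=
      Set.indicator_nonneg (fun _ _ => zero_le_one) _
    have key : (y ∈ Metric.ball x ρ ∨ KL5_P y ∈ Metric.ball x ρ) →
        |hL ε ρ (‖x - y‖ ^ 2) - hL ε ρ (‖x - KL5_P y‖ ^ 2)| ≤ M := by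
      intro hin
      rcases le_or_gt (x 0) ρ with hxr | hxr
      · have hy0 : |y 0| ≤ 2 * ρ := by
          rcases hin with h1 | h1
          · rw [Metric.mem_ball, dist_eq_norm] at h1
            have h2 := (KL5_coord (y - x) 0).trans h1.le
            rw [PiLp.sub_apply, abs_le] at h2
            rw [abs_le]
            constructor <;> linarith [h2.1, h2.2]
          · rw [Metric.mem_ball, dist_eq_norm] at h1
            have h2 := (KL5_coord (KL5_P y - x) 0).trans h1.le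
            rw [PiLp.sub_apply, KL5_P0, abs_le] at h2
            rw [abs_le]
            constructor <;> linarith [h2.1, h2.2]
        have h3 := hlip (‖x - y‖ ^ 2) (‖x - KL5_P y‖ ^ 2) (by positivity) (by positivity)
        have h4 : |‖x - y‖ ^ 2 - ‖x - KL5_P y‖ ^ 2| ≤ 8 * x 0 * ρ := by
          rw [abs_sub_comm, KL5_diff hx1, abs_mul, abs_of_pos (by positivity : 0 < 4 * x 0)]
          nlinarith only [hx0, hy0]
        refine h3.trans ((mul_le_mul_of_nonneg_left h4 (by positivity)).trans (le_of_eq ?_))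
        rw [hM]
        field_simp
      · have h1 := hbd (‖x - y‖ ^ 2) (by positivity)
        have h2 := hbd (‖x - KL5_P y‖ ^ 2) (by positivity)
        have h3 : |hL ε ρ (‖x - y‖ ^ 2) - hL ε ρ (‖x - KL5_P y‖ ^ 2)| ≤ C / ρ ^ 3 + C / ρ ^ 3 :=
          (abs_sub _ _).trans (add_le_add h1 h2)
        refine h3.trans ?_
        have h4 : C / ρ ^ 3 + C / ρ ^ 3 = 2 * C * ρ / ρ ^ 4 := by
          field_simp
          ring
        rw [h4, hM]
        refine div_le_div_of_nonneg_right ?_ (by positivity)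
        have h5 : C * ρ ≤ C * x 0 := mul_le_mul_of_nonneg_left hxr.le hC.le
        have h6 : 0 < C * x 0 := by positivity
        linarith only [h5, h6]
    by_cases h1 : y ∈ Metric.ball x ρ
    · have h2 := key (Or.inl h1)
      rw [Set.indicator_of_mem h1]
      nlinarith only [hM0, hi2, h2]
    · by_cases h2 : KL5_P y ∈ Metric.ball x ρ
      · have h3 := key (Or.inr h2)
        rw [Set.indicator_of_mem h2]
        nlinarith only [hM0, hi1, h3]
      · have h3 : hL ε ρ (‖x - y‖ ^ 2) = 0 := by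
          rw [Metric.mem_ball, dist_comm, dist_eq_norm, not_lt] at h1
          exact hzero _ (pow_le_pow_left₀ hρ.le h1 2)
        have h4 : hL ε ρ (‖x - KL5_P y‖ ^ 2) = 0 := by
          rw [Metric.mem_ball, dist_comm, dist_eq_norm, not_lt] at h2
          exact hzero _ (pow_le_pow_left₀ hρ.le h2 2)
        rw [h3, h4, sub_zero, abs_zero]
        positivity
  have hfin : |2 * ∫ y, f y| ≤ M * (2 * ∫ y, w y) := by
    rw [h2I]
    calc |∫ y, (f y + f (KL5_P y))| ≤ ∫ y, |f y + f (KL5_P y)| := abs_integral_le_integral_abs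
      _ ≤ ∫ y, M * (w y + w (KL5_P y)) := by
        refine integral_mono (hfi.add hfPi).abs ((hwi.add hwPi).const_mul M) hpt
      _ = M * (2 * ∫ y, w y) := by
        rw [integral_const_mul, integral_add hwi hwPi, hwI]
        ring
  have hcs := KL5_cs hv0c hv0i x ρ
  have hvol : (volume (Metric.ball x ρ)).toReal = ρ ^ 3 * c := by
    rw [MeasureTheory.Measure.addHaar_ball volume x hρ.le, ENNReal.toReal_mul, hc,
      ENNReal.toReal_ofReal (by positivity)]
    simp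
  rw [hvol] at hcs
  have hA : √(∫ y, v y 0 ^ 2) ≤ √(∫ y, ‖v y‖ ^ 2) := Real.sqrt_le_sqrt hv0le
  have h5 : ∫ y, w y ≤ √(∫ y, ‖v y‖ ^ 2) * √(ρ ^ 3 * c) :=
    hcs.trans (mul_le_mul_of_nonneg_right hA (Real.sqrt_nonneg _))
  have h6 : |∫ y, f y| ≤ M * (√(∫ y, ‖v y‖ ^ 2) * √(ρ ^ 3 * c)) := by
    rw [abs_mul, abs_of_pos (by norm_num : (0 : ℝ) < 2)] at hfin
    have h7 := mul_le_mul_of_nonneg_left h5 hM0
    linarith
  have h7 : √(ρ ^ 3 * c) = ρ ^ 4 * √(1 / ρ ^ 5) * √c := by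
    rw [Real.sqrt_mul (by positivity)]
    congr 1
    have h8 : ρ ^ 3 = (ρ ^ 4) ^ 2 * (1 / ρ ^ 5) := by
      field_simp
    rw [h8, Real.sqrt_mul (by positivity), Real.sqrt_sq (by positivity)]
  rw [h7] at h6
  have h8 : M * (√(∫ y, ‖v y‖ ^ 2) * (ρ ^ 4 * √(1 / ρ ^ 5) * √c)) =
      8 * C * √c * x 0 * (√(1 / ρ ^ 5) * √(∫ y, ‖v y‖ ^ 2)) := by
    rw [hM]
    field_simp
  rw [h8] at h6
  refine h6.trans ?_
  have h9 : 0 ≤ x 0 * (√(1 / ρ ^ 5) * √(∫ y, ‖v y‖ ^ 2)) := by positivity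
  linarith only [h9]

end Pool.Agent.H87.NS
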