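/-
ROW KL6. PROOF. At `x = (r, 0, x₂)`, `r > 0`: kid_gen with `M = LK ε ρ` and LK_div:
`∫ v₀(y) (3 ε² zt P^(-5/2)) (x-y) dy = ∫ (curl₁ LK₂ - curl₂ LK₁) - ∫ v₀(y) hL(‖x-y‖²) dy` (integrability: `v₀` and the kernels are bounded and square
integrable), so by kernel_sym_loc and kernel_q its absolute value is `≤ C r (∫_{B(x,ρ)} |sO v| / ‖x-y‖² + √(1/ρ⁵) √(∫ ‖v‖²))` for every `ε > 0`; kernel_limit_loc gives
`c0 |v x 0| ≤ ...`; `|v x 0| = r |sW v x|` (flux_eq). Divide by `c0 r`. General `x`, `0 < rad x`: rotate as in NS/KerW.lean (ker_all): the ball is mapped to the ball.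
-/
import Pool.Agent.H87.NC.KL2
import Pool.Agent.H87.NC.KL4
import Pool.Agent.H87.NC.KL5
import Pool.Agent.H87.NS.KerW

set_option autoImplicit false

open Set Filter Topology MeasureTheory
open scoped ContDiff

namespace Pool.Agent.H87.NS

open Pool.Agent.H16

theorem KL6_plane : ∃ C : ℝ, 0 < C ∧ ∀ (v : E3 → E3) (K : ℝ), AxF v →
    (∀ j : Fin 3, DB 1 K (fun x => v x j)) →
    (∀ j : Fin 3, DB 1 K (fun x => curl v x j)) → ContDiff ℝ ∞ (sO v) → BL K (sO v) →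
    Integrable (fun x => ‖v x‖ ^ 2) → ∀ ρ : ℝ, 0 < ρ → ∀ x : E3, 0 < x 0 → x 1 = 0 →
    |sW v x| ≤ C * (∫ y in Metric.ball x ρ, |sO v y| / ‖x - y‖ ^ 2)
      + C * (√(1 / ρ ^ 5) * √(∫ y, ‖v y‖ ^ 2)) := by
  obtain ⟨C1, hC1, k1⟩ := kernel_sym_loc
  obtain ⟨C2, hC2, k2⟩ := kernel_q
  have hc := c0_pos
  refine ⟨(C1 + C2) / c0, by positivity, ?_⟩
  intro v K hv hK hK' hO hOK hvI ρ hρ x hx0 hx1
  set I1 := ∫ y in Metric.ball x ρ, |sO v y| / ‖x - y‖ ^ 2 with hI1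
  set J1 := √(1 / ρ ^ 5) * √(∫ y, ‖v y‖ ^ 2) with hJ1
  have hI0 : 0 ≤ I1 := integral_nonneg fun y => by positivity
  have hJ0 : 0 ≤ J1 := by positivity
  have hg : Continuous (fun y => v y 0) := (continuous_coord 0).comp hv.smooth.continuous
  have hgb : ∀ y, |(fun y => v y 0) y| ≤ K := (DB_BL (hK 0)).1
  have hlim := kernel_limit_loc hg hgb (B := x 0 * (C1 * I1 + C2 * J1)) hρ x (by
    intro ε hε
    have h1 := kid_gen hv.smooth hv.div hK (M := LK ε ρ) (LK_smooth hε hρ) (LK_DB hε hρ)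
      (fun i k z => LK_sym hε hρ i k z) x
    have h2 := k1 v K hv hK' hO hOK ε ρ hε hρ x hx0 hx1
    have h3 := k2 v hv hvI ε ρ hε hρ x hx0 hx1
    have hfar : ∀ y : E3, y ∉ Metric.closedBall x ρ → ρ ^ 2 ≤ ‖x - y‖ ^ 2 := by
      intro y hy
      rw [Metric.mem_closedBall, not_le, dist_comm, dist_eq_norm] at hy
      exact pow_le_pow_left₀ hρ.le hy.le 2
    have hA : Integrable (fun y : E3 => v y 0 * (3 * ε ^ 2 * (zt (‖x - y‖ ^ 2 / ρ ^ 2) *
        (‖x - y‖ ^ 2 + ε ^ 2) ^ (-(5/2) : ℝ)))) := by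
      refine Continuous.integrable_of_hasCompactSupport ?_ ?_
      · refine hg.mul (continuous_const.mul (Continuous.mul ?_ ?_))
        · exact zt_smooth.continuous.comp (by fun_prop)
        · refine Continuous.rpow_const (by fun_prop) fun y => Or.inl ?_
          positivity
      · refine HasCompactSupport.intro (isCompact_closedBall x ρ) fun y hy => ?_
        have h4 : 1 ≤ ‖x - y‖ ^ 2 / ρ ^ 2 := by
          rw [le_div_iff₀ (by positivity), one_mul]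
          exact hfar y hy
        rw [(zt_bd _).2.2.2 h4]
        ring
    have hH : Integrable (fun y : E3 => v y 0 * hL ε ρ (‖x - y‖ ^ 2)) := by
      refine Continuous.integrable_of_hasCompactSupport ?_ ?_
      · exact hg.mul ((hL_cont hε hρ).comp (continuous_const.sub continuous_id))
      · refine HasCompactSupport.intro (isCompact_closedBall x ρ) fun y hy => ?_
        obtain ⟨C3, _, h4⟩ := hL_bd
        rw [(h4 ε ρ hε hρ).2.2 _ (hfar y hy), mul_zero]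
    have h5 : ∫ y, v y 0 * (∑ i, pd i (LK ε ρ i) (x - y)) =
        (∫ y, v y 0 * (3 * ε ^ 2 * (zt (‖x - y‖ ^ 2 / ρ ^ 2) *
          (‖x - y‖ ^ 2 + ε ^ 2) ^ (-(5/2) : ℝ)))) + ∫ y, v y 0 * hL ε ρ (‖x - y‖ ^ 2) := by
      rw [← integral_add hA hH]
      refine integral_congr_ae (Eventually.of_forall fun y => ?_)
      change v y 0 * (∑ i, pd i (LK ε ρ i) (x - y)) = v y 0 * (3 * ε ^ 2 * (zt (‖x - y‖ ^ 2 / ρ ^ 2) *
          (‖x - y‖ ^ 2 + ε ^ 2) ^ (-(5/2) : ℝ))) + v y 0 * hL ε ρ (‖x - y‖ ^ 2)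
      rw [LK_div hε hρ]
      ring
    rw [h1] at h5
    rw [abs_le] at h2 h3 ⊢
    constructor
    · nlinarith [h2.1, h2.2, h3.1, h3.2]
    · nlinarith [h2.1, h2.2, h3.1, h3.2])
  have hfl := flux_eq hv x
  have hr : radFlux v x = x 0 * v x 0 := by
    unfold radFlux
    rw [hx1]
    ring
  have hrs : rsq x = x 0 * x 0 := by
    unfold rsq
    rw [hx1]
    ring
  have h3 : v x 0 = x 0 * sW v x := by
    rw [hr, hrs, mul_assoc] at hfl
    exact mul_left_cancel₀ hx0.ne' hfl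
  have hlim' : c0 * |v x 0| ≤ x 0 * (C1 * I1 + C2 * J1) := hlim
  rw [h3, abs_mul, abs_of_pos hx0] at hlim'
  have h4 : c0 * |sW v x| ≤ C1 * I1 + C2 * J1 := by
    have h5 : x 0 * (c0 * |sW v x|) ≤ x 0 * (C1 * I1 + C2 * J1) := by
      calc x 0 * (c0 * |sW v x|) = c0 * (x 0 * |sW v x|) := by ring
        _ ≤ x 0 * (C1 * I1 + C2 * J1) := hlim'
    exact le_of_mul_le_mul_left h5 hx0
  have h6 : (C1 + C2) / c0 * I1 + (C1 + C2) / c0 * J1 = (C1 + C2) * (I1 + J1) / c0 := by ring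
  rw [h6, le_div_iff₀ hc]
  have h7 := mul_nonneg hC1.le hJ0
  have h8 := mul_nonneg hC2.le hI0
  nlinarith

theorem ker_loc : ∃ C : ℝ, 0 < C ∧ ∀ (v : E3 → E3) (K : ℝ), AxF v → (∀ j : Fin 3, DB 1 K (fun x => v x j)) →
    (∀ j : Fin 3, DB 1 K (fun x => curl v x j)) → ContDiff ℝ ∞ (sO v) → BL K (sO v) →
    Integrable (fun x => ‖v x‖ ^ 2) → ∀ ρ : ℝ, 0 < ρ → ∀ x : E3, 0 < rad x →
    |sW v x| ≤ C * (∫ y in Metric.ball x ρ, |sO v y| / ‖x - y‖ ^ 2)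
      + C * (√(1 / ρ ^ 5) * √(∫ y, ‖v y‖ ^ 2)) := by
  obtain ⟨C, hC, hpl⟩ := KL6_plane
  refine ⟨C, hC, ?_⟩
  intro v K hv hK hK' hO hOK hvI ρ hρ x hx
  have hrs := rad_sq x
  have hz : ∃ z : E3, z 0 = rad x ∧ z 1 = 0 ∧ z 2 = x 2 := ⟨!₂[rad x, 0, x 2], rfl, rfl, rfl⟩
  obtain ⟨z, hz0, hz1, hz2⟩ := hz
  obtain ⟨θ, h1, _, _⟩ := KSym_rot (rsq_pos hx) (show rsq z = rsq x by
    unfold rsq
    rw [hz0, hz1, hrs]
    ring) hz2
  have h2 := hpl v K hv hK hK' hO hOK hvI ρ hρ z (by rw [hz0]; exact hx) hz1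
  rw [← h1, sW_rot hv] at h2
  have h4 : ∀ y : E3, ‖rot θ x - rot θ y‖ = ‖x - y‖ := by
    intro y
    have h5 := (rotL θ).norm_map (x - y)
    rw [map_sub] at h5
    exact h5
  have hball : (rotL θ) ⁻¹' (Metric.ball (rot θ x) ρ) = Metric.ball x ρ := by
    ext y
    rw [mem_preimage, Metric.mem_ball, Metric.mem_ball, dist_comm, dist_comm y x, dist_eq_norm,
      dist_eq_norm]
    have h6 : ‖rot θ x - (rotL θ) y‖ = ‖x - y‖ := h4 y
    rw [h6]
  have h3 : ∫ y in Metric.ball (rot θ x) ρ, |sO v y| / ‖rot θ x - y‖ ^ 2 =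
      ∫ y in Metric.ball x ρ, |sO v y| / ‖x - y‖ ^ 2 := by
    rw [← (rotL θ).measurePreserving.setIntegral_preimage_emb
      (rotL θ).toHomeomorph.measurableEmbedding (fun y => |sO v y| / ‖rot θ x - y‖ ^ 2)
      (Metric.ball (rot θ x) ρ), hball]
    refine integral_congr_ae (Eventually.of_forall fun y => ?_)
    change |sO v (rot θ y)| / ‖rot θ x - rot θ y‖ ^ 2 = |sO v y| / ‖x - y‖ ^ 2
    rw [sO_rot hv, h4 y]
  rw [h3] at h2
  exact h2

end Pool.Agent.H87.NS
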