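/-
ROW Off. Bounds off the axis. Let `a = r₁² / 4 > 0`, `η(x) = Real.smoothTransition ((rsq x - a) / (3 a))`: smooth, `0 ≤ η ≤ 1`, `η = 0` for `rsq ≤ a`, `η = 1` for `rsq ≥ 4a = r₁²`,
independent of `x 2`, bounded derivatives, `S = {rsq ≥ a}`; `χ = η^10` is a weight Wg with `|pd i χ| ≤ C η⁹`, `|lap χ| ≤ C η⁸`, `rdr χ ≥ 0`, all zero outside `S`.
On `S`: `|V| ≤ ‖u‖ / rad`, `|W| ≤ ‖u‖ / rad` (circ_eq, flux_eq, Pool.Agent.H16.circ_le, radFlux_le), so `V² ≤ ‖u‖²/a`, `∫ V² 1_S ≤ e₀ / a`, `e₀ = ∫ ‖u 0‖²` (energy1);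
`Om² ≤ ‖curl u‖² / a ≤ (2/a) dsq u` (om_eq; Loc_curl in NS/Loc.lean), and `∫_0^t ∫ dsq u ≤ e₀ / 2` (energy1). Write `U = ∫ ‖u t‖² ≤ e₀`.
off_V. evg for `V` (flow_of), `j = s⁴`, on `[0, b]`: the integrand `evJ` is
`≤ - 12 V² gsq V χ + C ‖u‖ V⁴ η⁹ + C V⁴ η⁸ 1_S` (`-(2/rsq) rdr χ ≤ 0`). Let `g = η⁵ V²` (`DB 1`): `gsq g ≤ 8 η^10 V² gsq V + C V⁴ η⁸ 1_S`, so it is
`≤ - (3/2) gsq g + C ‖u‖ V⁴ η⁹ + C V⁴ η⁸ 1_S`. Hölder and Sobolev (`(∫ g⁶)^(1/3) ≤ SB ∫ gsq g =: SB D`), `X = ∫ V² 1_S ≤ e₀/a`: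
`∫ ‖u‖ V⁴ η⁹ = ∫ ‖u‖ g^(9/5) |V|^(2/5) ≤ (∫ ‖u‖²)^(1/2) (∫ g⁶)^(3/10) (∫ V² 1_S)^(1/5) ≤ C U^(1/2) D^(9/10) X^(1/5) ≤ (1/4) D + C U⁵ X²` (times `C`: adjust constants);
`∫ V⁴ η⁸ 1_S ≤ ∫ g^(6/5) |V|^(8/5) 1_S ≤ (∫ g⁶)^(1/5) (∫ V² 1_S)^(4/5) ≤ C D^(3/5) X^(4/5) ≤ (1/4) D + C X²` (`η⁸ ≤ η⁶`). (Hölder with exponents `2, 10/3, 5` and
`5, 5/4`.) So `∫ V(b)⁴ χ ≤ ∫ V(0)⁴ χ + b C'`, `C'` depending on `e₀, a`.
off_O. evg for `Om`, `j = s²`: `evJ = - 2 gsq Om χ + 2 Om (2 V pd 2 V) χ + Om² (adv u χ + lap χ - (2/rsq) rdr χ)`; `∫ 2 Om pd 2 (V²) χ = - 2 ∫ (pd 2 Om) V² χ ≤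
∫ gsq Om χ + ∫ V⁴ χ` (ibp; `pd 2 χ = 0`). With `g = η⁵ Om`: `gsq g ≤ 2 χ gsq Om + C Om² 1_S`, so
`∫ evJ ≤ - (1/2) D + ∫ V⁴ χ + C ∫ ‖u‖ Om² η⁹ + C ∫ Om² 1_S`, `D = ∫ gsq g`, and
`∫ ‖u‖ Om² η⁹ ≤ ∫ ‖u‖ |g|^(3/2) |Om|^(1/2) 1_S ≤ (∫ ‖u‖²)^(1/2) (∫ g⁶)^(1/4) (∫ Om² 1_S)^(1/4) ≤ C U^(1/2) D^(3/4) (∫ Om² 1_S)^(1/4) ≤ δ D + C_δ U² ∫ Om² 1_S`.
So `∫ Om(b)² χ ≤ ∫ Om(0)² χ + ∫_0^b (∫ V⁴ χ + C (1 + e₀²) ∫ Om² 1_S) dt`, bounded by off_V and `∫_0^b ∫ Om² 1_S ≤ e₀ / a`.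
(If `T ≤ 0` there is nothing to prove. The exponents can be handled by `Real.inner_le_Lp_mul_Lq`-type lemmas or by pointwise Young inequalities
`a^(9/5) b ≤ δ a² ... ` before integrating together with `∫ g⁶ ≤ (SB D)³`: for instance `‖u‖ g^(9/5) |V|^(2/5)` with weights.)
-/
import Pool.Agent.H87.NC.EVg
import Pool.Agent.H87.NS.FlowOf
import Pool.Agent.H87.NS.Sob
import Pool.Agent.H87.NS.JQ
import Pool.Agent.H87.NS.Pig
import Pool.Agent.H87.NS.Loc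

set_option autoImplicit false

open Set Filter Topology MeasureTheory
open scoped ContDiff

namespace Pool.Agent.H87.NS

open Pool.Agent.H16

/-! ### inequalities for real numbers -/

private theorem Off_amgm {A X k : ℝ} (hk : 0 < k) : A * X ≤ (k * A ^ 2 + X ^ 2 / k) / 2 := by
  have h : (k * A ^ 2 + X ^ 2 / k) / 2 - A * X = (k * A - X) ^ 2 / (2 * k) := by
    field_simp
    ring
  have h2 : 0 ≤ (k * A - X) ^ 2 / (2 * k) := by positivity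
  linarith

private theorem Off_pow3 {θ s : ℝ} (hθ : 0 ≤ θ) (hs : 1 ≤ s) : θ ^ 3 ≤ θ ^ 5 / s ^ 4 + s ^ 6 := by
  have hs0 : 0 < s := by linarith
  rcases le_total (s ^ 2) θ with h | h
  · have h1 : s ^ 4 * θ ^ 3 ≤ θ ^ 5 := by
      have h2 : (s ^ 2) ^ 2 ≤ θ ^ 2 := pow_le_pow_left₀ (by positivity) h 2
      calc s ^ 4 * θ ^ 3 = (s ^ 2) ^ 2 * θ ^ 3 := by ring
        _ ≤ θ ^ 2 * θ ^ 3 := by gcongr
        _ = θ ^ 5 := by ring
    have h3 : θ ^ 3 ≤ θ ^ 5 / s ^ 4 := by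
      rw [le_div_iff₀ (by positivity)]
      linarith
    have : 0 ≤ s ^ 6 := by positivity
    linarith
  · have h1 : θ ^ 3 ≤ (s ^ 2) ^ 3 := pow_le_pow_left₀ hθ h 3
    have h2 : 0 ≤ θ ^ 5 / s ^ 4 := by positivity
    calc θ ^ 3 ≤ (s ^ 2) ^ 3 := h1
      _ = s ^ 6 := by ring
      _ ≤ _ := by linarith

private theorem Off_pow1 {θ s : ℝ} (hθ : 0 ≤ θ) (hs : 1 ≤ s) : θ ≤ θ ^ 5 / s ^ 7 + s ^ 3 := by
  have hs0 : 0 < s := by linarith
  rcases le_total (s ^ 2) θ with h | h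
  · have h1 : s ^ 7 * θ ≤ θ ^ 5 := by
      have h2 : (s ^ 2) ^ 4 ≤ θ ^ 4 := pow_le_pow_left₀ (by positivity) h 4
      have h3 : s ^ 7 ≤ s ^ 8 := pow_le_pow_right₀ hs (by norm_num)
      calc s ^ 7 * θ ≤ s ^ 8 * θ := by gcongr
        _ = (s ^ 2) ^ 4 * θ := by ring
        _ ≤ θ ^ 4 * θ := by gcongr
        _ = θ ^ 5 := by ring
    have h3 : θ ≤ θ ^ 5 / s ^ 7 := by
      rw [le_div_iff₀ (by positivity)]
      linarith
    have : 0 ≤ s ^ 3 := by positivity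
    linarith
  · have h2 : 0 ≤ θ ^ 5 / s ^ 7 := by positivity
    have h3 : s ^ 2 ≤ s ^ 3 := pow_le_pow_right₀ hs (by norm_num)
    linarith

private theorem Off_P1 {A η V s : ℝ} (hη : 0 ≤ η) (hs : 1 ≤ s) :
    A * (V ^ 4 * η ^ 9) ≤ s ^ 3 * A ^ 2 + s ^ 3 * V ^ 2 + (η ^ 5 * V ^ 2) ^ 6 / s ^ 7 := by
  have hs0 : 0 < s := by linarith
  have h1 := Off_amgm (A := A) (X := V ^ 4 * η ^ 9) (k := s ^ 3) (by positivity)
  have h2 := Off_pow3 (θ := η ^ 6 * V ^ 2) (by positivity) hs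
  have h3 : (V ^ 4 * η ^ 9) ^ 2 / s ^ 3 ≤ (η ^ 5 * V ^ 2) ^ 6 / s ^ 7 + s ^ 3 * V ^ 2 := by
    have e1 : (V ^ 4 * η ^ 9) ^ 2 / s ^ 3 = V ^ 2 / s ^ 3 * (η ^ 6 * V ^ 2) ^ 3 := by
      ring
    have e2 : (η ^ 5 * V ^ 2) ^ 6 / s ^ 7 + s ^ 3 * V ^ 2 =
        V ^ 2 / s ^ 3 * ((η ^ 6 * V ^ 2) ^ 5 / s ^ 4 + s ^ 6) := by
      field_simp
    rw [e1, e2]
    exact mul_le_mul_of_nonneg_left h2 (by positivity)
  have h4 : 0 ≤ s ^ 3 * A ^ 2 := by positivity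
  have h5 : 0 ≤ s ^ 3 * V ^ 2 := by positivity
  have h6 : 0 ≤ (η ^ 5 * V ^ 2) ^ 6 / s ^ 7 := by positivity
  linarith

private theorem Off_P2 {η V s : ℝ} (hη : 0 ≤ η) (hη1 : η ≤ 1) (hs : 1 ≤ s) :
    V ^ 4 * η ^ 8 ≤ s ^ 3 * V ^ 2 + (η ^ 5 * V ^ 2) ^ 6 / s ^ 7 := by
  have hs0 : 0 < s := by linarith
  have h2 := Off_pow1 (θ := η ^ 6 * V ^ 2) (by positivity) hs
  have h0 : η ^ 8 ≤ η ^ 6 := pow_le_pow_of_le_one hη hη1 (by norm_num)
  have h3 : V ^ 4 * η ^ 8 ≤ V ^ 2 * (η ^ 6 * V ^ 2) := by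
    calc V ^ 4 * η ^ 8 ≤ V ^ 4 * η ^ 6 := by gcongr
      _ = _ := by ring
  have e2 : s ^ 3 * V ^ 2 + (η ^ 5 * V ^ 2) ^ 6 / s ^ 7 =
      V ^ 2 * ((η ^ 6 * V ^ 2) ^ 5 / s ^ 7 + s ^ 3) := by
    field_simp
    ring
  rw [e2]
  exact h3.trans (mul_le_mul_of_nonneg_left h2 (by positivity))

private theorem Off_P3 {A η O y δ : ℝ} (hδ : 0 < δ) (hy : 0 < y) :
    A * (O ^ 2 * η ^ 9) ≤ δ * y * A ^ 2 + δ / y ^ 2 * (η ^ 5 * O) ^ 6 + O ^ 2 * η ^ 6 / δ ^ 3 := by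
  have h1 := Off_amgm (A := A) (X := O ^ 2 * η ^ 9) (k := δ * y) (by positivity)
  have h2 := Off_amgm (A := (η ^ 5 * O) ^ 3) (X := O * η ^ 3) (k := δ ^ 2 / y) (by positivity)
  have h3 : (O ^ 2 * η ^ 9) ^ 2 / (δ * y) ≤
      δ / y ^ 2 * (η ^ 5 * O) ^ 6 + O ^ 2 * η ^ 6 / δ ^ 3 := by
    have e1 : (O ^ 2 * η ^ 9) ^ 2 / (δ * y) = ((η ^ 5 * O) ^ 3 * (O * η ^ 3)) / (δ * y) := by
      ring
    have e2 : δ / y ^ 2 * (η ^ 5 * O) ^ 6 + O ^ 2 * η ^ 6 / δ ^ 3 =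
        (δ ^ 2 / y * ((η ^ 5 * O) ^ 3) ^ 2 + (O * η ^ 3) ^ 2 / (δ ^ 2 / y)) / (δ * y) := by
      field_simp
    rw [e1, e2]
    refine div_le_div_of_nonneg_right ?_ (by positivity)
    have h4 : 0 ≤ δ ^ 2 / y * ((η ^ 5 * O) ^ 3) ^ 2 + (O * η ^ 3) ^ 2 / (δ ^ 2 / y) := by positivity
    linarith
  have h4 : 0 ≤ δ * y * A ^ 2 := by positivity
  have h5 : 0 ≤ (O ^ 2 * η ^ 9) ^ 2 / (δ * y) := by positivity
  have h6 : 0 ≤ δ / y ^ 2 * (η ^ 5 * O) ^ 6 := by positivity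
  have h7 : 0 ≤ O ^ 2 * η ^ 6 / δ ^ 3 := by
    have : 0 ≤ O ^ 2 * η ^ 6 := by positivity
    positivity
  linarith

private theorem Off_opt {C S U : ℝ} (hC : 0 ≤ C) (hS : 0 ≤ S) (hU : 0 ≤ U) :
    ∃ C' : ℝ, ∀ D I : ℝ, 0 ≤ D → (∀ s : ℝ, 1 ≤ s → I ≤ C * (s ^ 3 * U + (S * D) ^ 3 / s ^ 7)) →
      I ≤ D + C' := by
  set k : ℝ := 1 + 2 * C * S ^ 3 with hk
  have hk1 : 1 ≤ k := by
    have : 0 ≤ 2 * C * S ^ 3 := by positivity
    linarith
  set B : ℝ := C * k ^ 3 * U with hB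
  have hB0 : 0 ≤ B := by positivity
  refine ⟨1 / 2 + (2 * B) ^ 6 * B, fun D I hD h => ?_⟩
  set y : ℝ := (1 + D) ^ (1 / 7 : ℝ) with hy
  have hD1 : 1 ≤ 1 + D := by linarith
  have hy1 : 1 ≤ y := Real.one_le_rpow hD1 (by norm_num)
  have hy7 : y ^ 7 = 1 + D := by
    rw [hy, ← Real.rpow_natCast, ← Real.rpow_mul (by linarith)]
    norm_num
  have hs1 : 1 ≤ k * y ^ 2 := by
    have : 1 ≤ y ^ 2 := one_le_pow₀ hy1
    nlinarith only [hk1, this]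
  have h1 := h (k * y ^ 2) hs1
  have e1 : (k * y ^ 2) ^ 7 = k ^ 7 * (1 + D) ^ 2 := by
    rw [← hy7]; ring
  have e2 : C * ((k * y ^ 2) ^ 3 * U) = B * y ^ 6 := by
    rw [hB]; ring
  have hk7 : 2 * C * S ^ 3 ≤ k ^ 7 := by
    have : k ≤ k ^ 7 := le_self_pow₀ hk1 (by norm_num)
    linarith
  have h2 : C * ((S * D) ^ 3 / (k * y ^ 2) ^ 7) ≤ D / 2 := by
    rw [e1, ← mul_div_assoc, div_le_iff₀ (by positivity)]
    have h3 : D ^ 3 ≤ D * (1 + D) ^ 2 := by nlinarith only [hD]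
    have h4 : 0 ≤ D * (1 + D) ^ 2 := by positivity
    calc C * (S * D) ^ 3 = (C * S ^ 3) * D ^ 3 := by ring
      _ ≤ (C * S ^ 3) * (D * (1 + D) ^ 2) := by
          exact mul_le_mul_of_nonneg_left h3 (by positivity)
      _ ≤ (k ^ 7 / 2) * (D * (1 + D) ^ 2) := by
          exact mul_le_mul_of_nonneg_right (by linarith) h4
      _ = D / 2 * (k ^ 7 * (1 + D) ^ 2) := by ring
  have h3 : B * y ^ 6 ≤ y ^ 7 / 2 + (2 * B) ^ 6 * B := by
    rcases le_total (2 * B) y with hc | hc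
    · have h4 : B * y ^ 6 ≤ y / 2 * y ^ 6 := mul_le_mul_of_nonneg_right (by linarith) (by positivity)
      have h5 : 0 ≤ (2 * B) ^ 6 * B := by positivity
      calc B * y ^ 6 ≤ y / 2 * y ^ 6 := h4
        _ = y ^ 7 / 2 := by ring
        _ ≤ _ := by linarith
    · have h4 : y ^ 6 ≤ (2 * B) ^ 6 := pow_le_pow_left₀ (by linarith) hc 6
      have h5 : 0 ≤ y ^ 7 := by positivity
      have h6 : B * y ^ 6 ≤ B * (2 * B) ^ 6 := mul_le_mul_of_nonneg_left h4 hB0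
      linarith only [hD, hy7, h6]
  rw [hy7] at h3
  have h4 : C * ((k * y ^ 2) ^ 3 * U + (S * D) ^ 3 / (k * y ^ 2) ^ 7) =
      B * y ^ 6 + C * ((S * D) ^ 3 / (k * y ^ 2) ^ 7) := by
    rw [mul_add, e2]
  rw [h4] at h1
  linarith

/-! ### the cutoff -/

private theorem Off_ddth : ∃ C : ℝ, 0 ≤ C ∧ ∀ y, |deriv (deriv EVe_th) y| ≤ C := by
  have hs : ContDiff ℝ ∞ (deriv EVe_th) := (contDiff_infty_iff_deriv.1 EVe_th_smooth).2
  have hc : Continuous (deriv (deriv EVe_th)) := hs.continuous_deriv (by simp)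
  obtain ⟨C, hC⟩ := isCompact_Icc.exists_bound_of_continuousOn (hc.continuousOn (s := Icc 1 2))
  refine ⟨|C|, abs_nonneg _, fun y => ?_⟩
  rcases lt_or_ge y 1 with h | h
  · have h1 : deriv EVe_th =ᶠ[𝓝 y] fun _ => (0 : ℝ) := by
      filter_upwards [gt_mem_nhds h] with z hz
      exact EVe_dth0 hz
    rw [h1.deriv_eq, deriv_const, abs_zero]
    exact abs_nonneg _
  · rcases lt_or_ge 2 y with h' | h'
    · have h1 : deriv EVe_th =ᶠ[𝓝 y] fun _ => (0 : ℝ) := by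
        filter_upwards [lt_mem_nhds h'] with z hz
        exact EVe_dth1 hz
      rw [h1.deriv_eq, deriv_const, abs_zero]
      exact abs_nonneg _
    · exact (hC y ⟨h, h'⟩).trans (le_abs_self C)

private theorem Off_ddth1 {y : ℝ} (h : 2 < y) : deriv (deriv EVe_th) y = 0 := by
  have h1 : deriv EVe_th =ᶠ[𝓝 y] fun _ => (0 : ℝ) := by
    filter_upwards [lt_mem_nhds h] with z hz
    exact EVe_dth1 hz
  rw [h1.deriv_eq, deriv_const]

private theorem Off_lap_et {s : ℝ} (hs : 0 < s) (x : E3) :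
    lap (EVe_et s) x = deriv (deriv EVe_th) (rsq x / s ^ 2) * (4 * rsq x / s ^ 4) +
      deriv EVe_th (rsq x / s ^ 2) * (4 / s ^ 2) := by
  have hth : ContDiff ℝ ∞ (deriv EVe_th) := (contDiff_infty_iff_deriv.1 EVe_th_smooth).2
  have hH : ContDiff ℝ ∞ (fun y : ℝ => deriv EVe_th (y / s ^ 2) / s ^ 2) :=
    (hth.comp (contDiff_id.div_const _)).div_const _
  have hD : ContDiff ℝ ∞ (fun y : E3 => deriv EVe_th (rsq y / s ^ 2) / s ^ 2) :=
    hH.comp EVe_rsq_smooth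
  have hL : ∀ i : Fin 3, ContDiff ℝ ∞ (fun y : E3 => 2 * y 0 * e i 0 + 2 * y 1 * e i 1) := by
    intro i
    exact ((contDiff_const.mul (LevX_coord_cd 0)).mul contDiff_const).add
      ((contDiff_const.mul (LevX_coord_cd 1)).mul contDiff_const)
  have hpD : ∀ i : Fin 3, pd i (fun y : E3 => deriv EVe_th (rsq y / s ^ 2) / s ^ 2) x =
      deriv (deriv EVe_th) (rsq x / s ^ 2) / s ^ 4 * (2 * x 0 * e i 0 + 2 * x 1 * e i 1) := by
    intro i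
    have h := comp_pd (f := rsq) (H := fun y : ℝ => deriv EVe_th (y / s ^ 2) / s ^ 2)
      (EVe_rsq_smooth.of_le (by simp)) (hH.of_le (by simp)) i x
    have h1 : deriv (fun y : ℝ => deriv EVe_th (y / s ^ 2) / s ^ 2) (rsq x) =
        deriv (deriv EVe_th) (rsq x / s ^ 2) / s ^ 4 := by
      have h2 : HasDerivAt (deriv EVe_th) (deriv (deriv EVe_th) (rsq x / s ^ 2)) (rsq x / s ^ 2) :=
        (hth.differentiable (by simp)).differentiableAt.hasDerivAt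
      have h3 := (h2.comp (rsq x) ((hasDerivAt_id (rsq x)).div_const (s ^ 2))).div_const (s ^ 2)
      have h4 := h3.deriv
      refine h4.trans ?_
      field_simp
    rw [h1, EVe_pd_rsq] at h
    exact h
  have hpL : ∀ i : Fin 3, pd i (fun y : E3 => 2 * y 0 * e i 0 + 2 * y 1 * e i 1) x =
      2 * e i 0 * e i 0 + 2 * e i 1 * e i 1 := by
    intro i
    unfold pd
    have h0 : ∀ k : Fin 3, HasFDerivAt (fun y : E3 => y k) (EuclideanSpace.proj k : E3 →L[ℝ] ℝ) x :=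
      fun k => (EuclideanSpace.proj k : E3 →L[ℝ] ℝ).hasFDerivAt
    have h := (((h0 0).const_mul 2).mul_const (e i 0)).add (((h0 1).const_mul 2).mul_const (e i 1))
    have h1 := congrArg (fun A : E3 →L[ℝ] ℝ => A (e i)) h.fderiv
    refine h1.trans ?_
    simp
    ring
  unfold lap
  have hk : ∀ i : Fin 3, pd i (pd i (EVe_et s)) x =
      deriv (deriv EVe_th) (rsq x / s ^ 2) / s ^ 4 * (2 * x 0 * e i 0 + 2 * x 1 * e i 1) ^ 2 +
      deriv EVe_th (rsq x / s ^ 2) / s ^ 2 * (2 * e i 0 * e i 0 + 2 * e i 1 * e i 1) := by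
    intro i
    have e1 : pd i (EVe_et s) = fun y : E3 => (deriv EVe_th (rsq y / s ^ 2) / s ^ 2) *
        (2 * y 0 * e i 0 + 2 * y 1 * e i 1) := by
      funext y
      exact EVe_pd_et s i y
    rw [e1, EVe_pd_mul hD (hL i), hpD, hpL]
    ring
  simp only [hk, Fin.sum_univ_three, e_apply]
  unfold rsq
  simp
  ring

/-- the properties of the cutoff -/
private theorem Off_cut {s : ℝ} (hs : 0 < s) : ∃ η : E3 → ℝ, ContDiff ℝ ∞ η ∧ (∀ x, 0 ≤ η x) ∧ (∀ x, η x ≤ 1) ∧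
    (∀ x, rsq x ≤ s ^ 2 → η x = 0) ∧ (∀ x, 2 * s ^ 2 ≤ rsq x → η x = 1) ∧ (∀ x, pd 2 η x = 0) ∧
    (∀ x, 0 ≤ rdr η x) ∧ ∃ C : ℝ, 0 ≤ C ∧ ∀ x, (∀ i, |pd i η x| ≤ C) ∧ |lap η x| ≤ C ∧
      |rdr η x| ≤ C * rsq x := by
  obtain ⟨C1, hC10, hC1⟩ := EVe_dthb
  obtain ⟨C2, hC20, hC2⟩ := Off_ddth
  have hr : ∀ x : E3, 0 ≤ rsq x := EVe_rsq_nonneg
  refine ⟨EVe_et s, EVe_et_smooth s, fun x => EVe_thn _, fun x => EVe_thl _, fun x hx => ?_, fun x hx => ?_,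
    fun x => ?_, fun x => ?_, 4 * C1 / s + (C2 * (8 / s ^ 2) + C1 * (4 / s ^ 2)) + C1 / s ^ 2 * 2, ?_,
    fun x => ⟨fun i => ?_, ?_, ?_⟩⟩
  · exact EVe_th0 (by rw [div_le_one (by positivity)]; exact hx)
  · exact EVe_th1 (by rw [le_div_iff₀ (by positivity)]; exact hx)
  · rw [EVe_pd_et]
    simp [e_apply]
  · rw [EVe_rdr_et]
    have h1 := EVe_dthn (rsq x / s ^ 2)
    have h2 := hr x
    positivity
  · positivity
  · have h1 := EVe_pd_et_bd hC1 hs i x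
    have h2 : 0 ≤ (C2 * (8 / s ^ 2) + C1 * (4 / s ^ 2)) + C1 / s ^ 2 * 2 := by positivity
    linarith
  · have h0 : 0 ≤ 4 * C1 / s := by positivity
    have h3 : 0 ≤ C1 / s ^ 2 * 2 := by positivity
    have h1 : |lap (EVe_et s) x| ≤ C2 * (8 / s ^ 2) + C1 * (4 / s ^ 2) := by
      rw [Off_lap_et hs]
      refine (abs_add_le _ _).trans (add_le_add ?_ ?_)
      · rcases lt_or_ge (2 * s ^ 2) (rsq x) with h | h
        · have h1 : 2 < rsq x / s ^ 2 := by rw [lt_div_iff₀ (by positivity)]; exact h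
          rw [Off_ddth1 h1, zero_mul, abs_zero]
          positivity
        · have hx := hr x
          rw [abs_mul, abs_of_nonneg (show 0 ≤ 4 * rsq x / s ^ 4 by positivity)]
          have h4 : 4 * rsq x / s ^ 4 ≤ 8 / s ^ 2 := by
            rw [div_le_div_iff₀ (by positivity) (by positivity)]
            nlinarith [sq_nonneg s, pow_pos hs 2]
          exact mul_le_mul (hC2 _) h4 (by positivity) hC20
      · rw [abs_mul, abs_of_nonneg (show 0 ≤ 4 / s ^ 2 by positivity)]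
        exact mul_le_mul_of_nonneg_right (hC1 _) (by positivity)
    linarith
  · have hx := hr x
    rw [EVe_rdr_et, abs_mul, abs_div, abs_of_pos (show 0 < s ^ 2 by positivity),
      abs_of_nonneg (show 0 ≤ 2 * rsq x by positivity)]
    have h1 : |deriv EVe_th (rsq x / s ^ 2)| / s ^ 2 * (2 * rsq x) ≤ C1 / s ^ 2 * (2 * rsq x) := by
      gcongr
      exact hC1 _
    have h2 : 0 ≤ (4 * C1 / s + (C2 * (8 / s ^ 2) + C1 * (4 / s ^ 2))) * rsq x := by positivity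
    calc _ ≤ C1 / s ^ 2 * (2 * rsq x) := h1
      _ ≤ _ := by nlinarith


/-! ### the weight -/

private structure Off_C (s : ℝ) (η : E3 → ℝ) (C : ℝ) : Prop where
  sm : ContDiff ℝ ∞ η
  nn : ∀ x, 0 ≤ η x
  le : ∀ x, η x ≤ 1
  zero : ∀ x, rsq x ≤ s ^ 2 → η x = 0
  one : ∀ x, 2 * s ^ 2 ≤ rsq x → η x = 1
  p2 : ∀ x, pd 2 η x = 0
  rd : ∀ x, 0 ≤ rdr η x
  C0 : 0 ≤ C
  bd : ∀ x, (∀ i, |pd i η x| ≤ C) ∧ |lap η x| ≤ C ∧ |rdr η x| ≤ C * rsq x

private theorem Off_ex {s : ℝ} (hs : 0 < s) : ∃ η C, Off_C s η C := by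
  obtain ⟨η, h1, h2, h3, h4, h5, h6, h7, C, hC, h8⟩ := Off_cut hs
  exact ⟨η, C, h1, h2, h3, h4, h5, h6, h7, hC, h8⟩

variable {s C : ℝ} {η : E3 → ℝ}

private theorem Off_pw (H : Off_C s η C) (n : ℕ) (i : Fin 3) (x : E3) :
    pd i (fun y => η y ^ (n + 1)) x = ((n : ℝ) + 1) * η x ^ n * pd i η x := by
  have h := comp_pd (f := η) (H := fun s : ℝ => s ^ (n + 1)) (H.sm.of_le (by simp))
    (contDiff_id.pow _) i x
  have h1 : deriv (fun s : ℝ => s ^ (n + 1)) (η x) = ((n : ℝ) + 1) * η x ^ n := by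
    rw [(hasDerivAt_pow (n + 1) (η x)).deriv]
    push_cast
    simp
  rw [h1] at h
  exact h

private theorem Off_gsq_le (H : Off_C s η C) (x : E3) : gsq η x ≤ 3 * C ^ 2 := by
  unfold gsq
  calc ∑ i, pd i η x ^ 2 ≤ ∑ _i : Fin 3, C ^ 2 := Finset.sum_le_sum fun i _ => by
        rw [← sq_abs]
        exact pow_le_pow_left₀ (abs_nonneg _) ((H.bd x).1 i) 2
    _ = 3 * C ^ 2 := by simp

private theorem Off_lap10 (H : Off_C s η C) (x : E3) :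
    lap (fun y => η y ^ 10) x = 90 * η x ^ 8 * gsq η x + 10 * η x ^ 9 * lap η x := by
  unfold lap gsq
  rw [Finset.mul_sum, Finset.mul_sum, ← Finset.sum_add_distrib]
  refine Finset.sum_congr rfl fun i _ => ?_
  have e1 : pd i (fun y => η y ^ 10) = fun y => (10 * η y ^ 9) * pd i η y := by
    funext y
    have := Off_pw H 9 i y
    norm_num at this
    rw [this]
  have hs1 : ContDiff ℝ ∞ (fun y => 10 * η y ^ 9) := contDiff_const.mul (H.sm.pow 9)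
  rw [e1, EVe_pd_mul hs1 (pd_smooth H.sm i)]
  have e2 : pd i (fun y => 10 * η y ^ 9) x = 90 * η x ^ 8 * pd i η x := by
    have hc : ContDiff ℝ ∞ (fun _ : E3 => (10 : ℝ)) := contDiff_const
    have h9 : ContDiff ℝ ∞ (fun y => η y ^ 9) := H.sm.pow 9
    rw [EVe_pd_mul hc h9]
    have h3 := Off_pw H 8 i x
    norm_num at h3
    rw [h3]
    have h4 : pd i (fun _ : E3 => (10 : ℝ)) x = 0 := by
      unfold pd
      simp
    rw [h4]
    ring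
  rw [e2]
  ring

private theorem Off_rdr10 (H : Off_C s η C) (x : E3) :
    rdr (fun y => η y ^ 10) x = 10 * η x ^ 9 * rdr η x := by
  unfold rdr
  have h0 := Off_pw H 9 0 x
  have h1 := Off_pw H 9 1 x
  norm_num at h0 h1
  rw [h0, h1]
  ring

private theorem Off_adv10 (H : Off_C s η C) (w : E3) (x : E3) :
    adv w (fun y => η y ^ 10) x ≤ 30 * C * (‖w‖ * η x ^ 9) := by
  have hC := H.C0
  have hη := H.nn x
  have hw : ∀ i : Fin 3, |w i| ≤ ‖w‖ := fun i => by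
    have := PiLp.norm_apply_le w i
    rwa [Real.norm_eq_abs] at this
  unfold adv
  calc ∑ i, w i * pd i (fun y => η y ^ 10) x ≤ ∑ _i : Fin 3, 10 * C * (‖w‖ * η x ^ 9) := by
        refine Finset.sum_le_sum fun i _ => ?_
        have h0 := Off_pw H 9 i x
        norm_num at h0
        rw [h0]
        have h1 : w i * pd i η x ≤ ‖w‖ * C := by
          calc w i * pd i η x ≤ |w i * pd i η x| := le_abs_self _
            _ = |w i| * |pd i η x| := abs_mul _ _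
            _ ≤ ‖w‖ * C := mul_le_mul (hw i) ((H.bd x).1 i) (abs_nonneg _) (norm_nonneg _)
        calc w i * (10 * η x ^ 9 * pd i η x) = 10 * η x ^ 9 * (w i * pd i η x) := by ring
          _ ≤ 10 * η x ^ 9 * (‖w‖ * C) := by gcongr
          _ = _ := by ring
    _ = 30 * C * (‖w‖ * η x ^ 9) := by
        simp
        ring

private theorem Off_R (H : Off_C s η C) (w : E3) (x : E3) :
    adv w (fun y => η y ^ 10) x + lap (fun y => η y ^ 10) x - 2 / rsq x * rdr (fun y => η y ^ 10) x ≤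
      (270 * C ^ 2 + 40 * C) * (‖w‖ * η x ^ 9 + η x ^ 8) := by
  have hC := H.C0
  have hη := H.nn x
  have hη1 := H.le x
  have h1 := Off_adv10 H w x
  have h2 := Off_lap10 H x
  have h3 := Off_rdr10 H x
  have h4 := Off_gsq_le H x
  have h5 := (abs_le.1 (H.bd x).2.1).2
  have h6 := H.rd x
  have h7 := EVe_rsq_nonneg x
  have h8 : 0 ≤ 2 / rsq x * rdr (fun y => η y ^ 10) x := by
    rw [h3]
    positivity
  have h9 : η x ^ 9 ≤ η x ^ 8 := pow_le_pow_of_le_one hη hη1 (by norm_num)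
  have h10 : 90 * η x ^ 8 * gsq η x ≤ 90 * η x ^ 8 * (3 * C ^ 2) := by gcongr
  have h11 : 10 * η x ^ 9 * lap η x ≤ 10 * η x ^ 8 * C := by
    calc 10 * η x ^ 9 * lap η x ≤ 10 * η x ^ 9 * C := by gcongr
      _ ≤ 10 * η x ^ 8 * C := by gcongr
  rw [h2]
  have h12 : 0 ≤ ‖w‖ * η x ^ 9 := by positivity
  have h13 : 0 ≤ η x ^ 8 := by positivity
  have h14 : (270 * C ^ 2 + 40 * C) * (‖w‖ * η x ^ 9 + η x ^ 8) =
      30 * C * (‖w‖ * η x ^ 9) + (90 * η x ^ 8 * (3 * C ^ 2) + 10 * η x ^ 8 * C) +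
      ((270 * C ^ 2 + 10 * C) * (‖w‖ * η x ^ 9) + 30 * C * η x ^ 8) := by ring
  rw [h14]
  have h15 : 0 ≤ (270 * C ^ 2 + 10 * C) * (‖w‖ * η x ^ 9) + 30 * C * η x ^ 8 := by positivity
  linarith

private theorem Off_Wg (H : Off_C s η C) : Wg (fun y => η y ^ 10) := by
  have hC := H.C0
  refine ⟨H.sm.pow 10, fun x => by have := H.nn x; positivity, fun x => pow_le_one₀ (H.nn x) (H.le x),
    270 * C ^ 2 + 10 * C, fun x => ?_⟩
  have hη := H.nn x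
  have hη1 := H.le x
  have h9 : η x ^ 9 ≤ 1 := pow_le_one₀ hη hη1
  have h8 : η x ^ 8 ≤ 1 := pow_le_one₀ hη hη1
  refine ⟨fun i => ?_, ?_, ?_⟩
  · have h0 := Off_pw H 9 i x
    norm_num at h0
    rw [h0, abs_mul, abs_of_nonneg (show 0 ≤ 10 * η x ^ 9 by positivity)]
    have h1 : 10 * η x ^ 9 * |pd i η x| ≤ 10 * 1 * C := by
      gcongr
      exact (H.bd x).1 i
    have h2 : 0 ≤ 270 * C ^ 2 := by positivity
    linarith
  · rw [Off_lap10 H]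
    refine (abs_add_le _ _).trans (add_le_add ?_ ?_)
    · have h4 := Off_gsq_le H x
      have h5 := gsq_nonneg η x
      rw [abs_of_nonneg (by positivity)]
      calc 90 * η x ^ 8 * gsq η x ≤ 90 * 1 * (3 * C ^ 2) := by gcongr
        _ = _ := by ring
    · rw [abs_mul, abs_of_nonneg (show 0 ≤ 10 * η x ^ 9 by positivity)]
      calc 10 * η x ^ 9 * |lap η x| ≤ 10 * 1 * C := by
            gcongr
            exact (H.bd x).2.1
        _ = _ := by ring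
  · rw [Off_rdr10 H, abs_mul, abs_of_nonneg (show 0 ≤ 10 * η x ^ 9 by positivity)]
    have hr := EVe_rsq_nonneg x
    calc 10 * η x ^ 9 * |rdr η x| ≤ 10 * 1 * (C * rsq x) := by
          gcongr
          exact (H.bd x).2.2
      _ ≤ _ := by
          have h2 : 0 ≤ 270 * C ^ 2 * rsq x := by positivity
          linarith

/-! ### the product with the fifth power -/

private theorem Off_pd5 (H : Off_C s η C) {F : E3 → ℝ} (hF : ContDiff ℝ ∞ F) (i : Fin 3) (x : E3) :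
    pd i (fun y => η y ^ 5 * F y) x = (5 * η x ^ 4 * pd i η x) * F x + η x ^ 5 * pd i F x := by
  have h5 : ContDiff ℝ ∞ (fun y => η y ^ 5) := H.sm.pow 5
  rw [EVe_pd_mul h5 hF]
  have h3 := Off_pw H 4 i x
  norm_num at h3
  rw [h3]

private theorem Off_gsq5 (H : Off_C s η C) {F : E3 → ℝ} (hF : ContDiff ℝ ∞ F) (x : E3) :
    gsq (fun y => η y ^ 5 * F y) x ≤ 2 * (η x ^ 10 * gsq F x) + 150 * C ^ 2 * (η x ^ 8 * F x ^ 2) := by
  have hη := H.nn x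
  have hk : ∀ i : Fin 3, pd i (fun y => η y ^ 5 * F y) x ^ 2 ≤
      2 * (η x ^ 10 * pd i F x ^ 2) + 50 * C ^ 2 * (η x ^ 8 * F x ^ 2) := by
    intro i
    rw [Off_pd5 H hF]
    have h1 : ((5 * η x ^ 4 * pd i η x) * F x + η x ^ 5 * pd i F x) ^ 2 ≤
        2 * ((5 * η x ^ 4 * pd i η x) * F x) ^ 2 + 2 * (η x ^ 5 * pd i F x) ^ 2 := by
      nlinarith [sq_nonneg ((5 * η x ^ 4 * pd i η x) * F x - η x ^ 5 * pd i F x)]
    have h2 : pd i η x ^ 2 ≤ C ^ 2 := by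
      rw [← sq_abs]
      exact pow_le_pow_left₀ (abs_nonneg _) ((H.bd x).1 i) 2
    have h3 : 2 * ((5 * η x ^ 4 * pd i η x) * F x) ^ 2 ≤ 50 * C ^ 2 * (η x ^ 8 * F x ^ 2) := by
      calc 2 * ((5 * η x ^ 4 * pd i η x) * F x) ^ 2 = 50 * (pd i η x ^ 2) * (η x ^ 8 * F x ^ 2) := by ring
        _ ≤ _ := by gcongr
    have h4 : 2 * (η x ^ 5 * pd i F x) ^ 2 = 2 * (η x ^ 10 * pd i F x ^ 2) := by ring
    linarith
  unfold gsq
  calc ∑ i, pd i (fun y => η y ^ 5 * F y) x ^ 2 ≤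
      ∑ i, (2 * (η x ^ 10 * pd i F x ^ 2) + 50 * C ^ 2 * (η x ^ 8 * F x ^ 2)) :=
        Finset.sum_le_sum fun i _ => hk i
    _ = _ := by
      rw [Finset.sum_add_distrib, ← Finset.mul_sum, ← Finset.mul_sum]
      simp
      ring

private theorem Off_DB {w F : E3 → ℝ} {K A : ℝ} (hw : ContDiff ℝ ∞ w) (hw1 : ∀ x, |w x| ≤ A)
    (hw2 : ∀ i x, |pd i w x| ≤ A) (hF : ContDiff ℝ ∞ F) (h : DB 1 K F) :
    ∃ K', DB 1 K' (fun y => w y * F y) := by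
  have hA : 0 ≤ A := (abs_nonneg _).trans (hw1 0)
  have hK := BL_nonneg (DB_BL h)
  set B : ℝ := A * K + A ^ 2 * K with hB
  have hB0 : 0 ≤ B := by positivity
  refine ⟨2 * (B + B), ?_, fun i => ?_⟩
  · exact BL_mono (mul_BL hF.continuous hw.continuous (DB_BL h) hw1) (by linarith)
  · have e1 : pd i (fun y => w y * F y) = fun y => pd i w y * F y + w y * pd i F y := by
      funext y
      exact EVe_pd_mul hw hF i y
    show BL _ _
    rw [e1]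
    exact add_BL ((pd_smooth hw i).continuous.mul hF.continuous) (hw.continuous.mul (pd_smooth hF i).continuous)
      (mul_BL hF.continuous (pd_smooth hw i).continuous (DB_BL h) (hw2 i))
      (mul_BL (pd_smooth hF i).continuous hw.continuous (h.2 i) hw1)

private theorem Off_DB5 (H : Off_C s η C) {F : E3 → ℝ} {K : ℝ} (hF : ContDiff ℝ ∞ F) (h : DB 1 K F) (n : ℕ) :
    ∃ K', DB 1 K' (fun y => η y ^ (n + 1) * F y) := by
  have hC := H.C0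
  refine Off_DB (A := 1 + ((n : ℝ) + 1) * C) (H.sm.pow (n + 1)) (fun x => ?_) (fun i x => ?_) hF h
  · have hη := H.nn x
    have h1 : η x ^ (n + 1) ≤ 1 := pow_le_one₀ hη (H.le x)
    rw [abs_of_nonneg (by positivity)]
    have : 0 ≤ ((n : ℝ) + 1) * C := by positivity
    linarith
  · have hη := H.nn x
    have h1 : η x ^ n ≤ 1 := pow_le_one₀ hη (H.le x)
    rw [Off_pw H, abs_mul, abs_of_nonneg (by positivity)]
    have h2 : ((n : ℝ) + 1) * η x ^ n * |pd i η x| ≤ ((n : ℝ) + 1) * 1 * C := by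
      gcongr
      exact (H.bd x).1 i
    linarith

/-! ### bounds away from the axis -/

private theorem Off_q {s r a b : ℝ} (hs : 0 < s) (hr0 : 0 ≤ r) (hr : s ^ 2 ≤ r ^ 2)
    (h : |r ^ 2 * a| ≤ r * b) : a ^ 2 ≤ b ^ 2 / s ^ 2 ∧ |a| ≤ b / s := by
  have h1 : s ≤ r := le_of_sq_le_sq hr hr0
  have h2 : 0 < r := by linarith
  have h3 : r * |a| ≤ b := by
    rw [abs_mul, abs_of_nonneg (show 0 ≤ r ^ 2 by positivity)] at h
    have : r * (r * |a|) ≤ r * b := by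
      calc r * (r * |a|) = r ^ 2 * |a| := by ring
        _ ≤ _ := h
    exact le_of_mul_le_mul_left this h2
  have h4 : s * |a| ≤ b := (mul_le_mul_of_nonneg_right h1 (abs_nonneg _)).trans h3
  have h5 : |a| ≤ b / s := by
    rw [le_div_iff₀ hs]
    linarith
  refine ⟨?_, h5⟩
  calc a ^ 2 = |a| ^ 2 := (sq_abs a).symm
    _ ≤ (b / s) ^ 2 := pow_le_pow_left₀ (abs_nonneg _) h5 2
    _ = _ := by rw [div_pow]

private theorem Off_bV {v : E3 → E3} (hv : AxF v) (hs : 0 < s) {x : E3} (hx : s ^ 2 ≤ rsq x) :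
    sV v x ^ 2 ≤ ‖v x‖ ^ 2 / s ^ 2 := by
  have h4 := circ_le v x
  rw [circ_eq hv x, ← rad_sq'] at h4
  rw [← rad_sq'] at hx
  exact (Off_q hs (rad_nonneg x) hx h4).1

private theorem Off_bW {v : E3 → E3} (hv : AxF v) (hs : 0 < s) {x : E3} (hx : s ^ 2 ≤ rsq x) :
    |sW v x| ≤ ‖v x‖ / s := by
  have h4 := radFlux_le v x
  rw [flux_eq hv x, ← rad_sq'] at h4
  rw [← rad_sq'] at hx
  exact (Off_q hs (rad_nonneg x) hx h4).2

private theorem Off_bO {v : E3 → E3} (hv : AxF v) (hs : 0 < s) {x : E3} (hx : s ^ 2 ≤ rsq x) :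
    sO v x ^ 2 ≤ 2 * dsq v x / s ^ 2 := by
  have h4 := circ_le (curl v) x
  rw [om_eq hv x, ← rad_sq'] at h4
  rw [← rad_sq'] at hx
  refine (Off_q hs (rad_nonneg x) hx h4).1.trans ?_
  exact div_le_div_of_nonneg_right (Loc_curl v x) (by positivity)


/-! ### the estimate for the swirl -/

private theorem Off_evJV (H : Off_C s η C) {V W : E3 → ℝ} (v : E3 → E3) (x : E3) :
    evJ (fun s : ℝ => s ^ (2 * 2)) v V (fun y => -2 * W y * V y) (fun y => η y ^ 10) x ≤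
      -12 * (η x ^ 10 * (V x ^ 2 * gsq V x)) + 8 * (|W x| * (V x ^ 4 * η x ^ 10)) +
      (270 * C ^ 2 + 40 * C) * (‖v x‖ * (V x ^ 4 * η x ^ 9) + V x ^ 4 * η x ^ 8) := by
  have hη := H.nn x
  unfold evJ
  simp only [pow_deriv, pow_deriv2]
  have h1 := Off_R H (v x) x
  have h2 : V x ^ 4 * (adv (v x) (fun y => η y ^ 10) x + lap (fun y => η y ^ 10) x -
      2 / rsq x * rdr (fun y => η y ^ 10) x) ≤
      V x ^ 4 * ((270 * C ^ 2 + 40 * C) * (‖v x‖ * η x ^ 9 + η x ^ 8)) :=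
    mul_le_mul_of_nonneg_left h1 (by positivity)
  have h3 : -(W x) * (V x ^ 4 * η x ^ 10) ≤ |W x| * (V x ^ 4 * η x ^ 10) :=
    mul_le_mul_of_nonneg_right (neg_le_abs _) (by positivity)
  norm_num
  have e1 : 4 * V x ^ 3 * (-(2 * W x * V x)) * η x ^ 10 = 8 * (-(W x) * (V x ^ 4 * η x ^ 10)) := by ring
  have e2 : 12 * V x ^ 2 * gsq V x * η x ^ 10 = 12 * (η x ^ 10 * (V x ^ 2 * gsq V x)) := by ring
  linarith

private theorem Off_Vpt (H : Off_C s η C) (hs : 0 < s) : ∃ K : ℝ, 0 ≤ K ∧ ∀ v : E3 → E3, AxF v →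
    ContDiff ℝ ∞ (sV v) → ∀ (x : E3) (σ : ℝ), 1 ≤ σ →
    evJ (fun s : ℝ => s ^ (2 * 2)) v (sV v) (fun y => -2 * sW v y * sV v y) (fun y => η y ^ 10) x +
      3 / 2 * gsq (fun y => η y ^ 5 * sV v y ^ 2) x ≤
      K * (σ ^ 3 * ‖v x‖ ^ 2 + (η x ^ 5 * sV v x ^ 2) ^ 6 / σ ^ 7) := by
  have hC := H.C0
  set K2 : ℝ := (270 * C ^ 2 + 40 * C) + 8 / s + 225 * C ^ 2 with hK2
  have hK20 : 0 ≤ K2 := by positivity
  refine ⟨K2 * (2 + 2 / s ^ 2), by positivity, fun v hv hV x σ hσ => ?_⟩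
  have hσ0 : 0 < σ := by linarith
  have hη := H.nn x
  have hη1 := H.le x
  have h1 := Off_evJV H (V := sV v) (W := sW v) v x
  have hV2 : ContDiff ℝ ∞ (fun y => sV v y ^ 2) := hV.pow 2
  have h2 := Off_gsq5 H hV2 x
  have h3 : gsq (fun y => sV v y ^ 2) x = 4 * (sV v x ^ 2 * gsq (sV v) x) := by
    have h1 := comp_gsq (f := sV v) (H := fun s : ℝ => s ^ 2) (hV.of_le (by simp)) (contDiff_id.pow 2) x
    have h2 : deriv (fun s : ℝ => s ^ 2) (sV v x) = 2 * sV v x := by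
      simp
    rw [h2] at h1
    rw [h1]
    ring
  rw [h3] at h2
  have h4 : (sV v x ^ 2) ^ 2 = sV v x ^ 4 := by ring
  rw [h4] at h2
  -- the key quantities
  set A : ℝ := ‖v x‖ * (sV v x ^ 4 * η x ^ 9) with hA
  set B : ℝ := sV v x ^ 4 * η x ^ 8 with hB
  have hA0 : 0 ≤ A := by positivity
  have hB0 : 0 ≤ B := by positivity
  have h5 : 8 * (|sW v x| * (sV v x ^ 4 * η x ^ 10)) ≤ 8 / s * A := by
    rcases lt_or_ge (s ^ 2) (rsq x) with h | h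
    · have hW := Off_bW hv hs h.le
      have h6 : η x ^ 10 ≤ η x ^ 9 := pow_le_pow_of_le_one hη hη1 (by norm_num)
      calc 8 * (|sW v x| * (sV v x ^ 4 * η x ^ 10)) ≤ 8 * (‖v x‖ / s * (sV v x ^ 4 * η x ^ 9)) := by
            gcongr
        _ = _ := by rw [hA]; ring
    · rw [H.zero x h]
      simp
      positivity
  have h6 : A + B ≤ (2 + 2 / s ^ 2) * (σ ^ 3 * ‖v x‖ ^ 2 + (η x ^ 5 * sV v x ^ 2) ^ 6 / σ ^ 7) := by
    rcases lt_or_ge (s ^ 2) (rsq x) with h | h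
    · have hVb := Off_bV hv hs h.le
      have h7 := Off_P1 (A := ‖v x‖) (V := sV v x) hη hσ
      have h8 := Off_P2 (V := sV v x) hη hη1 hσ
      have h9 : σ ^ 3 * sV v x ^ 2 ≤ σ ^ 3 * (‖v x‖ ^ 2 / s ^ 2) := by gcongr
      have h10 : 0 ≤ σ ^ 3 * ‖v x‖ ^ 2 := by positivity
      have h11 : 0 ≤ (η x ^ 5 * sV v x ^ 2) ^ 6 / σ ^ 7 := by positivity
      have e1 : (2 + 2 / s ^ 2) * (σ ^ 3 * ‖v x‖ ^ 2 + (η x ^ 5 * sV v x ^ 2) ^ 6 / σ ^ 7) =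
          2 * (σ ^ 3 * ‖v x‖ ^ 2) + 2 * ((η x ^ 5 * sV v x ^ 2) ^ 6 / σ ^ 7) +
          2 * (σ ^ 3 * (‖v x‖ ^ 2 / s ^ 2)) + 2 / s ^ 2 * ((η x ^ 5 * sV v x ^ 2) ^ 6 / σ ^ 7) := by
        ring
      have h12 : 0 ≤ 2 / s ^ 2 * ((η x ^ 5 * sV v x ^ 2) ^ 6 / σ ^ 7) := by positivity
      rw [e1]
      linarith only [h7, h8, h9, h10, h12]
    · have : A + B = 0 := by
        rw [hA, hB, H.zero x h]
        simp
      rw [this]
      positivity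
  have h7 : (270 * C ^ 2 + 40 * C) * (A + B) + 8 / s * A + 225 * C ^ 2 * B ≤ K2 * (A + B) := by
    have h8 : 0 ≤ 8 / s * B := by positivity
    have h9 : 0 ≤ 225 * C ^ 2 * A := by positivity
    rw [hK2]
    linarith only [h8, h9]
  have h8 : K2 * (A + B) ≤ K2 * ((2 + 2 / s ^ 2) * (σ ^ 3 * ‖v x‖ ^ 2 + (η x ^ 5 * sV v x ^ 2) ^ 6 / σ ^ 7)) :=
    mul_le_mul_of_nonneg_left h6 hK20
  have e3 : 150 * C ^ 2 * (η x ^ 8 * sV v x ^ 4) = 150 * C ^ 2 * B := by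
    rw [hB]; ring
  rw [e3] at h2
  rw [mul_assoc]
  linarith

variable {T : ℝ} {u : ℝ → E3 → E3} {p : ℝ → E3 → ℝ}

private theorem Off_g (h : IsHInfAxisymNS T u p) (H : Off_C s η C) {t : ℝ} (ht : t ∈ Ico 0 T) :
    (∃ K', DB 1 K' (fun y => η y ^ 5 * sV (u t) y ^ 2)) ∧ (∃ K', DB 1 K' (fun y => η y ^ 5 * sO (u t) y)) ∧
    (∃ K', DB 1 K' (fun y => η y ^ 10 * sO (u t) y)) := by
  obtain ⟨K, hK⟩ := svwDB h ht.2
  obtain ⟨hV, -, hO⟩ := hK t ⟨ht.1, le_rfl⟩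
  obtain ⟨sV', -, sO'⟩ := svw_smooth h.ns ht
  have hV1 : DB 1 K (sV (u t)) := DB_mono hV (by norm_num) le_rfl
  have hO1 : DB 1 K (sO (u t)) := DB_mono hO (by norm_num) le_rfl
  have hH : ContDiff ℝ 1 (fun s : ℝ => s ^ 2) := contDiff_id.pow 2
  obtain ⟨K', hK'⟩ := comp_DB hH (by norm_num) K
  have hD : DB 1 K' (fun y => sV (u t) y ^ 2) := hK' _ (sV'.of_le (by simp)) hV1
  exact ⟨Off_DB5 H (sV'.pow 2) hD 4, Off_DB5 H sO' hO1 4, Off_DB5 H sO' hO1 9⟩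

private theorem Off_sob {g : E3 → ℝ} {K : ℝ} (hg : ContDiff ℝ ∞ g) (h : DB 1 K g) :
    Integrable (fun y => g y ^ 6) ∧ ∫ y, g y ^ 6 ≤ (SB * ∫ y, gsq g y) ^ 3 := by
  obtain ⟨h1, h2⟩ := SB_spec (hg.of_le (by simp)) h
  refine ⟨h1, ?_⟩
  have h0 : 0 ≤ ∫ y, g y ^ 6 := integral_nonneg fun y => by positivity
  have h3 := pow_le_pow_left₀ (Real.rpow_nonneg h0 _) h2 3
  rw [← Real.rpow_natCast, ← Real.rpow_mul h0] at h3
  norm_num at h3
  exact h3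

private theorem Off_Vsl (h : IsHInfAxisymNS T u p) (H : Off_C s η C) (hs : 0 < s) : ∃ C' : ℝ, 0 ≤ C' ∧
    ∀ t ∈ Ico 0 T, ∫ x, evJ (fun s : ℝ => s ^ (2 * 2)) (u t) (sV (u t))
      (fun y => -2 * sW (u t) y * sV (u t) y) (fun y => η y ^ 10) x ≤ C' := by
  obtain ⟨K, hK, hpt⟩ := Off_Vpt H hs
  set e0 : ℝ := ∫ x, ‖u 0 x‖ ^ 2 with he0
  have he : 0 ≤ e0 := integral_nonneg fun x => by positivity
  obtain ⟨C', hC'⟩ := Off_opt hK SB_pos.le he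
  refine ⟨max C' 0, le_max_right _ _, fun t ht => ?_⟩
  have hj : JFun (fun s : ℝ => s ^ (2 * 2)) := pow_jfun (m := 2) (by norm_num)
  have F := flow_of h
  have hev := (evg_ii F.drift F.evV hj (Off_Wg H) ht.1 (le_refl t) ht.2).2 t ⟨le_rfl, le_rfl⟩
  obtain ⟨⟨K1, hg⟩, -, -⟩ := Off_g h H ht
  obtain ⟨sV', -, -⟩ := svw_smooth h.ns ht
  have hgs : ContDiff ℝ ∞ (fun y => η y ^ 5 * sV (u t) y ^ 2) := (H.sm.pow 5).mul (sV'.pow 2)
  obtain ⟨h6, h6'⟩ := Off_sob hgs hg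
  have hgi := (gsq_int hg).1
  obtain ⟨-, hui⟩ := dsq_int h ht
  have hE := (energy1 h ht).2
  set D : ℝ := ∫ y, gsq (fun y => η y ^ 5 * sV (u t) y ^ 2) y with hD
  have hD0 : 0 ≤ D := integral_nonneg fun y => gsq_nonneg _ _
  set I : ℝ := ∫ x, evJ (fun s : ℝ => s ^ (2 * 2)) (u t) (sV (u t))
      (fun y => -2 * sW (u t) y * sV (u t) y) (fun y => η y ^ 10) x with hI
  have hmain : ∀ σ : ℝ, 1 ≤ σ → I + 3 / 2 * D ≤ K * (σ ^ 3 * e0 + (SB * D) ^ 3 / σ ^ 7) := by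
    intro σ hσ
    have hσ0 : 0 < σ := by linarith
    have h1 : I + 3 / 2 * D = ∫ x, (evJ (fun s : ℝ => s ^ (2 * 2)) (u t) (sV (u t))
      (fun y => -2 * sW (u t) y * sV (u t) y) (fun y => η y ^ 10) x +
      3 / 2 * gsq (fun y => η y ^ 5 * sV (u t) y ^ 2) x) := by
      rw [integral_add hev (hgi.const_mul _), integral_const_mul]
    have h2 : ∫ x, (evJ (fun s : ℝ => s ^ (2 * 2)) (u t) (sV (u t))
      (fun y => -2 * sW (u t) y * sV (u t) y) (fun y => η y ^ 10) x +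
      3 / 2 * gsq (fun y => η y ^ 5 * sV (u t) y ^ 2) x) ≤
      ∫ x, K * (σ ^ 3 * ‖u t x‖ ^ 2 + (η x ^ 5 * sV (u t) x ^ 2) ^ 6 / σ ^ 7) := by
      refine integral_mono (hev.add (hgi.const_mul _)) (((hui.const_mul _).add (h6.div_const _)).const_mul _)
        fun x => ?_
      exact hpt (u t) (axF_of h.ns ht) sV' x σ hσ
    have h3 : ∫ x, K * (σ ^ 3 * ‖u t x‖ ^ 2 + (η x ^ 5 * sV (u t) x ^ 2) ^ 6 / σ ^ 7) =
        K * (σ ^ 3 * (∫ x, ‖u t x‖ ^ 2) + (∫ x, (η x ^ 5 * sV (u t) x ^ 2) ^ 6) / σ ^ 7) := by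
      rw [integral_const_mul, integral_add (hui.const_mul _) (h6.div_const _), integral_const_mul,
        integral_div]
    rw [h1]
    refine h2.trans ?_
    rw [h3]
    gcongr
  have h4 := hC' D (I + 3 / 2 * D) hD0 hmain
  have h5 : C' ≤ max C' 0 := le_max_left _ _
  linarith

private theorem Off_Vc (h : IsHInfAxisymNS T u p) (H : Off_C s η C) (hs : 0 < s) : ∃ C' : ℝ, 0 ≤ C' ∧
    ∀ t ∈ Ico 0 T, ∫ x, sV (u t) x ^ 4 * η x ^ 10 ≤ C' := by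
  obtain ⟨K, hK, hsl⟩ := Off_Vsl h H hs
  have hj : JFun (fun s : ℝ => s ^ (2 * 2)) := pow_jfun (m := 2) (by norm_num)
  have F := flow_of h
  set B : ℝ := ∫ x, sV (u 0) x ^ 4 * η x ^ 10 with hB
  have hB0 : 0 ≤ B := integral_nonneg fun x => by
    have := H.nn x
    positivity
  refine ⟨B + |T| * K, by positivity, fun t ht => ?_⟩
  have h1 := evg F.drift F.evV hj (Off_Wg H) le_rfl ht.1 ht.2
  have h2 := (evg_ii F.drift F.evV hj (Off_Wg H) le_rfl ht.1 ht.2).1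
  have h3 : ∫ r in (0 : ℝ)..t, ∫ x, evJ (fun s : ℝ => s ^ (2 * 2)) (u r) (sV (u r))
      (fun y => -2 * sW (u r) y * sV (u r) y) (fun y => η y ^ 10) x ≤ ∫ r in (0 : ℝ)..t, K := by
    refine intervalIntegral.integral_mono_on ht.1 h2 intervalIntegrable_const fun r hr => ?_
    exact hsl r ⟨hr.1, hr.2.trans_lt ht.2⟩
  rw [intervalIntegral.integral_const, smul_eq_mul, sub_zero] at h3
  have h4 : t * K ≤ |T| * K := mul_le_mul_of_nonneg_right (ht.2.le.trans (le_abs_self T)) hK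
  have e1 : (2 * 2 : ℕ) = 4 := by norm_num
  simp only [e1] at h1 h3
  linarith

private theorem Off_set {r₁ : ℝ} (hr : 0 < r₁) {η : E3 → ℝ} {C : ℝ} (H : Off_C (r₁ / 2) η C) {f : E3 → ℝ}
    (hf0 : ∀ x, 0 ≤ f x) (hf : Integrable f) : ∫ x in {x | r₁ ≤ rad x}, f x ≤ ∫ x, f x * η x ^ 10 := by
  have hm : MeasurableSet {x : E3 | r₁ ≤ rad x} := (isClosed_le continuous_const continuous_rad).measurableSet
  have hη10 : Integrable (fun x => f x * η x ^ 10) := by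
    refine hf.mono' (hf.aestronglyMeasurable.mul (H.sm.continuous.pow 10).aestronglyMeasurable)
      (Eventually.of_forall fun x => ?_)
    have hη := H.nn x
    have h1 : η x ^ 10 ≤ 1 := pow_le_one₀ hη (H.le x)
    rw [Real.norm_of_nonneg (mul_nonneg (hf0 x) (by positivity))]
    have := mul_le_mul_of_nonneg_left h1 (hf0 x)
    linarith
  rw [← integral_indicator hm]
  refine integral_mono (hf.indicator hm) hη10 fun x => ?_
  simp only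
  have hη := H.nn x
  by_cases hx : x ∈ {x : E3 | r₁ ≤ rad x}
  · rw [indicator_of_mem hx]
    have h2 : η x = 1 := H.one x (by
      rw [← rad_sq']
      have h3 : r₁ ≤ rad x := hx
      nlinarith)
    rw [h2]
    simp
  · rw [indicator_of_notMem hx]
    exact mul_nonneg (hf0 x) (by positivity)

theorem off_V {T : ℝ} {u : ℝ → E3 → E3} {p : ℝ → E3 → ℝ} (h : IsHInfAxisymNS T u p) {r₁ : ℝ} (hr : 0 < r₁) :
    ∃ C : ℝ, ∀ t ∈ Ico 0 T, ∫ x in {x | r₁ ≤ rad x}, sV (u t) x ^ 4 ≤ C := by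
  obtain ⟨η, C, H⟩ := Off_ex (s := r₁ / 2) (by positivity)
  obtain ⟨C', -, hC'⟩ := Off_Vc h H (by positivity)
  refine ⟨C', fun t ht => ?_⟩
  have hj : JFun (fun s : ℝ => s ^ (2 * 2)) := pow_jfun (m := 2) (by norm_num)
  have hi := (evo_int (flow_of h).evV hj ht).1
  exact (Off_set (f := fun x => sV (u t) x ^ 4) hr H (fun x => by positivity) hi).trans (hC' t ht)


/-! ### the estimate for the vorticity -/

private theorem Off_evJO (H : Off_C s η C) {V O : E3 → ℝ} (v : E3 → E3) (x : E3) :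
    evJ (fun s : ℝ => s ^ (2 * 1)) v O (fun y => 2 * V y * pd 2 V y) (fun y => η y ^ 10) x -
      2 * (η x ^ 10 * O x) * (2 * V x * pd 2 V x) ≤
      -2 * (η x ^ 10 * gsq O x) +
      (270 * C ^ 2 + 40 * C) * (‖v x‖ * (O x ^ 2 * η x ^ 9) + O x ^ 2 * η x ^ 8) := by
  have hη := H.nn x
  unfold evJ
  simp only [pow_deriv, pow_deriv2]
  have h1 := Off_R H (v x) x
  have h2 : O x ^ 2 * (adv (v x) (fun y => η y ^ 10) x + lap (fun y => η y ^ 10) x -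
      2 / rsq x * rdr (fun y => η y ^ 10) x) ≤
      O x ^ 2 * ((270 * C ^ 2 + 40 * C) * (‖v x‖ * η x ^ 9 + η x ^ 8)) :=
    mul_le_mul_of_nonneg_left h1 (by positivity)
  norm_num
  linarith

/-- the production term -/
private theorem Off_prod (h : IsHInfAxisymNS T u p) (H : Off_C s η C) {t : ℝ} (ht : t ∈ Ico 0 T) :
    Integrable (fun x => 2 * (η x ^ 10 * sO (u t) x) * (2 * sV (u t) x * pd 2 (sV (u t)) x)) ∧
    Integrable (fun x => η x ^ 10 * gsq (sO (u t)) x) ∧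
    ∫ x, 2 * (η x ^ 10 * sO (u t) x) * (2 * sV (u t) x * pd 2 (sV (u t)) x) ≤
      (∫ x, η x ^ 10 * gsq (sO (u t)) x) + ∫ x, sV (u t) x ^ 4 * η x ^ 10 := by
  obtain ⟨K, hK⟩ := svwDB h ht.2
  obtain ⟨hV2, -, hO2⟩ := hK t ⟨ht.1, le_rfl⟩
  obtain ⟨sV', -, sO'⟩ := svw_smooth h.ns ht
  obtain ⟨-, -, K3, hg10⟩ := Off_g h H ht
  set V := sV (u t) with hVdef
  set O := sO (u t) with hOdef
  have hV1 : DB 1 K V := DB_mono hV2 (by norm_num) le_rfl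
  have hO1 : DB 1 K O := DB_mono hO2 (by norm_num) le_rfl
  have hH : ContDiff ℝ 1 (fun s : ℝ => s ^ 2) := contDiff_id.pow 2
  obtain ⟨K', hK'⟩ := comp_DB hH (by norm_num) K
  have hVc : ContDiff ℝ 1 V := sV'.of_le (by simp)
  have hD : DB 1 K' (fun y => V y ^ 2) := hK' _ hVc hV1
  have hG : ContDiff ℝ 1 (fun y => V y ^ 2) := hVc.pow 2
  have hχ : ContDiff ℝ ∞ (fun y => η y ^ 10) := H.sm.pow 10
  have hf : ContDiff ℝ 1 (fun y => η y ^ 10 * O y) := (hχ.mul sO').of_le (by simp)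
  have hp : ∀ x, pd 2 (fun y => V y ^ 2) x = 2 * V x * pd 2 V x := by
    intro x
    have h1 := comp_pd hVc hH 2 x
    have h2 : deriv (fun s : ℝ => s ^ 2) (V x) = 2 * V x := by
      simp
    rw [h2] at h1
    exact h1
  have hp2 : ∀ x, pd 2 (fun y => η y ^ 10 * O y) x = η x ^ 10 * pd 2 O x := by
    intro x
    rw [EVe_pd_mul hχ sO']
    have h0 := Off_pw H 9 2 x
    norm_num at h0
    rw [h0, H.p2]
    ring
  have h1 := ibp hf hG hg10 hD 2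
  simp only [hp, hp2] at h1
  have hBO := DB_BL hg10
  have hBV := DB_BL hD
  have hint : Integrable (fun x => (η x ^ 10 * O x) * (2 * V x * pd 2 V x)) := by
    have h2 := BL_mul hf.continuous (pd_cont hG 2) hBO (hD.2 2)
    refine h2.congr (Eventually.of_forall fun x => ?_)
    simp only [hp]
  have e2 : (fun x => 2 * (η x ^ 10 * O x) * (2 * V x * pd 2 V x)) =
      fun x => 2 * ((η x ^ 10 * O x) * (2 * V x * pd 2 V x)) := by
    funext x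
    ring
  have hi4 : Integrable (fun x => V x ^ 4) := by
    refine hBV.2.1.congr (Eventually.of_forall fun x => ?_)
    simp only
    ring
  have hb10 : ∀ x, 0 ≤ η x ^ 10 ∧ η x ^ 10 ≤ 1 := fun x =>
    ⟨pow_nonneg (H.nn x) _, pow_le_one₀ (H.nn x) (H.le x)⟩
  have hi5 : Integrable (fun x => V x ^ 4 * η x ^ 10) := by
    refine hi4.mono' ((sV'.continuous.pow 4).mul hχ.continuous).aestronglyMeasurable
      (Eventually.of_forall fun x => ?_)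
    obtain ⟨ha, hb⟩ := hb10 x
    rw [Real.norm_of_nonneg (by positivity)]
    have := mul_le_mul_of_nonneg_left hb (show 0 ≤ V x ^ 4 by positivity)
    linarith
  have hgc : Continuous (gsq O) := by
    unfold gsq
    exact continuous_finset_sum _ fun i _ => (pd_smooth sO' i).continuous.pow 2
  have hi6 : Integrable (fun x => η x ^ 10 * gsq O x) := by
    refine (gsq_int hO1).1.mono' (hχ.continuous.mul hgc).aestronglyMeasurable
      (Eventually.of_forall fun x => ?_)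
    obtain ⟨ha, hb⟩ := hb10 x
    have h3 := gsq_nonneg O x
    rw [Real.norm_of_nonneg (by positivity)]
    have := mul_le_mul_of_nonneg_right hb h3
    linarith
  have hi7 : Integrable (fun x => (η x ^ 10 * pd 2 O x) * V x ^ 2) := by
    have hc : Continuous (fun x => η x ^ 10 * pd 2 O x) := hχ.continuous.mul (pd_smooth sO' 2).continuous
    refine BL_mul hc hG.continuous (K := 1 * K + 1 ^ 2 * K) ?_ hBV
    refine mul_BL (pd_smooth sO' 2).continuous hχ.continuous (hO1.2 2) fun x => ?_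
    obtain ⟨ha, hb⟩ := hb10 x
    rw [abs_of_nonneg ha]
    exact hb
  refine ⟨?_, hi6, ?_⟩
  · rw [e2]
    exact hint.const_mul 2
  · rw [e2, integral_const_mul, h1, mul_neg, ← integral_const_mul, ← integral_neg, ← integral_add hi6 hi5]
    refine integral_mono (hi7.const_mul 2).neg (hi6.add hi5) fun x => ?_
    simp only
    obtain ⟨ha, hb⟩ := hb10 x
    have h4 : pd 2 O x ^ 2 ≤ gsq O x := by
      unfold gsq
      exact Finset.single_le_sum (f := fun i => pd i O x ^ 2) (fun _ _ => sq_nonneg _)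
        (Finset.mem_univ 2)
    have h5 : η x ^ 10 * pd 2 O x ^ 2 ≤ η x ^ 10 * gsq O x := mul_le_mul_of_nonneg_left h4 ha
    have h6 : 0 ≤ η x ^ 10 * (pd 2 O x + V x ^ 2) ^ 2 := by positivity
    nlinarith

private theorem Off_Opt (H : Off_C s η C) (hs : 0 < s) {δ : ℝ} (hδ : 0 < δ) : ∃ K : ℝ, 0 ≤ K ∧
    ∀ v : E3 → E3, AxF v → ∀ (x : E3) (y : ℝ), 0 < y →
    (270 * C ^ 2 + 40 * C) * (‖v x‖ * (sO v x ^ 2 * η x ^ 9) + sO v x ^ 2 * η x ^ 8) +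
      75 * C ^ 2 * (η x ^ 8 * sO v x ^ 2) ≤
      (270 * C ^ 2 + 40 * C) * (δ * y * ‖v x‖ ^ 2 + δ / y ^ 2 * (η x ^ 5 * sO v x) ^ 6) + K * dsq v x := by
  have hC := H.C0
  set K1 : ℝ := 270 * C ^ 2 + 40 * C with hK1
  have hK10 : 0 ≤ K1 := by positivity
  refine ⟨(K1 * (1 / δ ^ 3 + 1) + 75 * C ^ 2) * (2 / s ^ 2), by positivity, fun v hv x y hy => ?_⟩
  have hη := H.nn x
  have hη1 := H.le x
  have hd0 : 0 ≤ dsq v x := by
    unfold dsq
    exact Finset.sum_nonneg fun _ _ => sq_nonneg _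
  rcases lt_or_ge (s ^ 2) (rsq x) with h | h
  · have hO := Off_bO hv hs h.le
    have h1 := Off_P3 (A := ‖v x‖) (η := η x) (O := sO v x) hδ hy
    have h6 : sO v x ^ 2 * η x ^ 6 ≤ 2 * dsq v x / s ^ 2 := by
      have h2 : η x ^ 6 ≤ 1 := pow_le_one₀ hη hη1
      have := mul_le_mul_of_nonneg_left h2 (sq_nonneg (sO v x))
      linarith
    have h8 : sO v x ^ 2 * η x ^ 8 ≤ 2 * dsq v x / s ^ 2 := by
      have h2 : η x ^ 8 ≤ 1 := pow_le_one₀ hη hη1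
      have := mul_le_mul_of_nonneg_left h2 (sq_nonneg (sO v x))
      linarith
    have h7 : sO v x ^ 2 * η x ^ 6 / δ ^ 3 ≤ 2 * dsq v x / s ^ 2 / δ ^ 3 :=
      div_le_div_of_nonneg_right h6 (by positivity)
    have h9 : ‖v x‖ * (sO v x ^ 2 * η x ^ 9) + sO v x ^ 2 * η x ^ 8 ≤
        (δ * y * ‖v x‖ ^ 2 + δ / y ^ 2 * (η x ^ 5 * sO v x) ^ 6) +
        (2 * dsq v x / s ^ 2 / δ ^ 3 + 2 * dsq v x / s ^ 2) := by linarith
    have h10 := mul_le_mul_of_nonneg_left h9 hK10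
    have h11 : 75 * C ^ 2 * (η x ^ 8 * sO v x ^ 2) ≤ 75 * C ^ 2 * (2 * dsq v x / s ^ 2) := by
      rw [mul_comm (η x ^ 8)]
      gcongr
    have e1 : (K1 * (1 / δ ^ 3 + 1) + 75 * C ^ 2) * (2 / s ^ 2) * dsq v x =
        K1 * (2 * dsq v x / s ^ 2 / δ ^ 3 + 2 * dsq v x / s ^ 2) + 75 * C ^ 2 * (2 * dsq v x / s ^ 2) := by
      ring
    rw [e1]
    linarith
  · rw [H.zero x h]
    have h1 : 0 ≤ (K1 * (1 / δ ^ 3 + 1) + 75 * C ^ 2) * (2 / s ^ 2) * dsq v x := by positivity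
    have h2 : 0 ≤ K1 * (δ * y * ‖v x‖ ^ 2 + δ / y ^ 2 * (0 ^ 5 * sO v x) ^ 6) := by positivity
    norm_num at h1 h2 ⊢
    linarith

private theorem Off_Osl (h : IsHInfAxisymNS T u p) (H : Off_C s η C) (hs : 0 < s) : ∃ A K : ℝ, 0 ≤ A ∧ 0 ≤ K ∧
    ∀ t ∈ Ico 0 T, ∫ x, evJ (fun s : ℝ => s ^ (2 * 1)) (u t) (sO (u t))
      (fun y => 2 * sV (u t) y * pd 2 (sV (u t)) y) (fun y => η y ^ 10) x ≤ A + K * ∫ x, dsq (u t) x := by
  have hC := H.C0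
  set K1 : ℝ := 270 * C ^ 2 + 40 * C with hK1
  have hK10 : 0 ≤ K1 := by positivity
  set e0 : ℝ := ∫ x, ‖u 0 x‖ ^ 2 with he0
  have he : 0 ≤ e0 := integral_nonneg fun x => by positivity
  have hS := SB_pos
  set δ : ℝ := 1 / (4 * (K1 + 1) * (e0 + SB ^ 3 + 1)) with hδd
  have hδ : 0 < δ := by positivity
  obtain ⟨K, hK, hpt⟩ := Off_Opt H hs hδ
  obtain ⟨CV, hCV, hV⟩ := Off_Vc h H hs
  refine ⟨CV + 1 / 4, K, by positivity, hK, fun t ht => ?_⟩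
  have hj : JFun (fun s : ℝ => s ^ (2 * 1)) := pow_jfun (m := 1) le_rfl
  have F := flow_of h
  have hev := (evg_ii F.drift F.evO hj (Off_Wg H) ht.1 (le_refl t) ht.2).2 t ⟨le_rfl, le_rfl⟩
  obtain ⟨-, ⟨K2, hg⟩, -⟩ := Off_g h H ht
  obtain ⟨-, -, sO'⟩ := svw_smooth h.ns ht
  have hgs : ContDiff ℝ ∞ (fun y => η y ^ 5 * sO (u t) y) := (H.sm.pow 5).mul sO'
  obtain ⟨h6, h6'⟩ := Off_sob hgs hg
  have hgi := (gsq_int hg).1
  obtain ⟨hdi, hui⟩ := dsq_int h ht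
  have hE := (energy1 h ht).2
  obtain ⟨hn, hχg, hprod⟩ := Off_prod h H ht
  set D : ℝ := ∫ y, gsq (fun y => η y ^ 5 * sO (u t) y) y with hD
  have hD0 : 0 ≤ D := integral_nonneg fun y => gsq_nonneg _ _
  set y : ℝ := 1 + D with hy
  have hy0 : 0 < y := by linarith
  set R : E3 → ℝ := fun x => K1 * (δ * y * ‖u t x‖ ^ 2 + δ / y ^ 2 * (η x ^ 5 * sO (u t) x) ^ 6) + K * dsq (u t) x
    with hR
  have hRi : Integrable R :=
    (((hui.const_mul _).add (h6.const_mul _)).const_mul _).add (hdi.const_mul _)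
  have hRI : ∫ x, R x = K1 * (δ * y * (∫ x, ‖u t x‖ ^ 2) + δ / y ^ 2 * ∫ x, (η x ^ 5 * sO (u t) x) ^ 6) +
      K * ∫ x, dsq (u t) x := by
    have hi1 : Integrable (fun x => K1 * (δ * y * ‖u t x‖ ^ 2 + δ / y ^ 2 * (η x ^ 5 * sO (u t) x) ^ 6)) :=
      ((hui.const_mul _).add (h6.const_mul _)).const_mul _
    simp only [hR]
    rw [integral_add hi1 (hdi.const_mul _),
      integral_const_mul, integral_add (hui.const_mul _) (h6.const_mul _), integral_const_mul,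
      integral_const_mul, integral_const_mul]
  -- pointwise
  have hpw : ∀ x, evJ (fun s : ℝ => s ^ (2 * 1)) (u t) (sO (u t))
      (fun y => 2 * sV (u t) y * pd 2 (sV (u t)) y) (fun y => η y ^ 10) x -
      2 * (η x ^ 10 * sO (u t) x) * (2 * sV (u t) x * pd 2 (sV (u t)) x) ≤
      (-1) * (η x ^ 10 * gsq (sO (u t)) x) + (-(1 / 2)) * gsq (fun y => η y ^ 5 * sO (u t) y) x + R x := by
    intro x
    have h1 := Off_evJO H (V := sV (u t)) (O := sO (u t)) (u t) x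
    have h2 := hpt (u t) (axF_of h.ns ht) x y hy0
    have h3 := Off_gsq5 H sO' x
    simp only [hR]
    linarith
  have hint : ∫ x, (evJ (fun s : ℝ => s ^ (2 * 1)) (u t) (sO (u t))
      (fun y => 2 * sV (u t) y * pd 2 (sV (u t)) y) (fun y => η y ^ 10) x -
      2 * (η x ^ 10 * sO (u t) x) * (2 * sV (u t) x * pd 2 (sV (u t)) x)) ≤
      ∫ x, ((-1) * (η x ^ 10 * gsq (sO (u t)) x) + (-(1 / 2)) * gsq (fun y => η y ^ 5 * sO (u t) y) x + R x) :=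
    integral_mono (hev.sub hn) (((hχg.const_mul _).add (hgi.const_mul _)).add hRi) hpw
  have hi2 : Integrable (fun x => (-1) * (η x ^ 10 * gsq (sO (u t)) x) +
      (-(1 / 2)) * gsq (fun y => η y ^ 5 * sO (u t) y) x) := (hχg.const_mul _).add (hgi.const_mul _)
  rw [integral_sub hev hn, integral_add hi2 hRi,
    integral_add (hχg.const_mul _) (hgi.const_mul _), integral_const_mul, integral_const_mul, hRI] at hint
  have hVt := hV t ht
  have h7 : δ * y * (∫ x, ‖u t x‖ ^ 2) ≤ δ * y * e0 := by gcongr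
  have h8 : δ / y ^ 2 * ∫ x, (η x ^ 5 * sO (u t) x) ^ 6 ≤ δ * y * SB ^ 3 := by
    calc δ / y ^ 2 * ∫ x, (η x ^ 5 * sO (u t) x) ^ 6 ≤ δ / y ^ 2 * (SB * D) ^ 3 := by gcongr
      _ ≤ δ / y ^ 2 * (SB * y) ^ 3 := by
          gcongr
          linarith
      _ = δ * y * SB ^ 3 := by
          field_simp
  have h9 : K1 * (δ * y * (∫ x, ‖u t x‖ ^ 2) + δ / y ^ 2 * ∫ x, (η x ^ 5 * sO (u t) x) ^ 6) ≤ y / 4 := by
    have h10 : K1 * (δ * y * (∫ x, ‖u t x‖ ^ 2) + δ / y ^ 2 * ∫ x, (η x ^ 5 * sO (u t) x) ^ 6) ≤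
        K1 * (δ * y * e0 + δ * y * SB ^ 3) := by
      gcongr
    have h11 : K1 * (δ * y * e0 + δ * y * SB ^ 3) ≤ (K1 + 1) * (e0 + SB ^ 3 + 1) * δ * y := by
      have : K1 * (e0 + SB ^ 3) ≤ (K1 + 1) * (e0 + SB ^ 3 + 1) := by
        have h3 : 0 ≤ e0 + SB ^ 3 := by positivity
        nlinarith only [hC, h3]
      have h4 := mul_le_mul_of_nonneg_right this (show 0 ≤ δ * y by positivity)
      linarith only [h4]
    have h12 : (K1 + 1) * (e0 + SB ^ 3 + 1) * δ * y = y / 4 := by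
      rw [hδd]
      field_simp
    linarith only [h10, h11, h12]
  linarith

theorem off_O {T : ℝ} {u : ℝ → E3 → E3} {p : ℝ → E3 → ℝ} (h : IsHInfAxisymNS T u p) {r₁ : ℝ} (hr : 0 < r₁) :
    ∃ C : ℝ, ∀ t ∈ Ico 0 T, ∫ x in {x | r₁ ≤ rad x}, sO (u t) x ^ 2 ≤ C := by
  obtain ⟨η, C, H⟩ := Off_ex (s := r₁ / 2) (by positivity)
  obtain ⟨A, K, hA, hK, hsl⟩ := Off_Osl h H (by positivity)
  have hj : JFun (fun s : ℝ => s ^ (2 * 1)) := pow_jfun (m := 1) le_rfl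
  have F := flow_of h
  set B : ℝ := ∫ x, sO (u 0) x ^ 2 * η x ^ 10 with hB
  set e0 : ℝ := ∫ x, ‖u 0 x‖ ^ 2 with he0
  refine ⟨B + (|T| * A + K * (e0 / 2)), fun t ht => ?_⟩
  have hi := (evo_int F.evO hj ht).1
  have e1 : (2 * 1 : ℕ) = 2 := by norm_num
  simp only [e1] at hi
  refine (Off_set (f := fun x => sO (u t) x ^ 2) hr H (fun x => by positivity) hi).trans ?_
  have h1 := evg F.drift F.evO hj (Off_Wg H) le_rfl ht.1 ht.2
  have h2 := (evg_ii F.drift F.evO hj (Off_Wg H) le_rfl ht.1 ht.2).1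
  have hdi := dsq_ii h le_rfl ht.1 ht.2
  have h3 : ∫ r in (0 : ℝ)..t, ∫ x, evJ (fun s : ℝ => s ^ (2 * 1)) (u r) (sO (u r))
      (fun y => 2 * sV (u r) y * pd 2 (sV (u r)) y) (fun y => η y ^ 10) x ≤
      ∫ r in (0 : ℝ)..t, (A + K * ∫ x, dsq (u r) x) := by
    refine intervalIntegral.integral_mono_on ht.1 h2 (intervalIntegrable_const.add (hdi.const_mul _))
      fun r hr => ?_
    exact hsl r ⟨hr.1, hr.2.trans_lt ht.2⟩
  rw [intervalIntegral.integral_add intervalIntegrable_const (hdi.const_mul _),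
    intervalIntegral.integral_const, smul_eq_mul, sub_zero, intervalIntegral.integral_const_mul] at h3
  have h4 : t * A ≤ |T| * A := mul_le_mul_of_nonneg_right (ht.2.le.trans (le_abs_self T)) hA
  have h5 := (energy1 h ht).1
  have h6 := mul_le_mul_of_nonneg_left h5 hK
  simp only [e1] at h1 h3
  linarith

end Pool.Agent.H87.NS
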