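/-
ROW Crit. The concentration criterion. PROOF. Let `Ck` be the constant of ker_loc, `Ch` that of S1_loc, `c = 12 / (32 Ch Ck)`. Let `F = flow_of h`, `e₀ = ∫ ‖u 0‖²`.
If `T ≤ 0` nothing to prove; we may assume `0 ≤ t₀ < T`.
(1) There is `ρ' > 0` with `∫_{ball x (2ρ')} |sO (u t)| ≤ c` for all `x`, `t ∈ [t₀, T)`: take `2 ρ' ≤ ρ/4`; if `rad x < ρ/2` the ball is contained in `ball (axp (x 2)) ρ`
(`‖x - axp (x 2)‖ = rad x`); if `rad x ≥ ρ/2` it is contained in `{rad ≥ ρ/4}` (`rad` is 1-Lipschitz) and by Cauchy-Schwarz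
`∫_{ball} |sO| ≤ (vol (ball x (2ρ')))^(1/2) (C_O)^(1/2)`, `C_O` from off_O with `r₁ = ρ/4`; small for small `ρ'`.
(2) With `B = Ck √(1/ρ'⁵) √e₀` (`∫ ‖u t‖² ≤ e₀`, energy1), ker_loc and S1_loc with `G = V²` (`gsq (V²) = 4 V² gsq V`):
`8 ∫ |W| V⁴ ≤ 8 Ch Ck c (4 ∫ V² gsq V + ρ'⁻² ∫ V⁴) + 8 B ∫ V⁴ ≤ 12 ∫ V² gsq V + λ ∫ V⁴`, `λ = 8 Ch Ck c / ρ'² + 8 B`. ev1 with `j = s⁴` (as in step_V4):
`∫ V(t)⁴ ≤ ∫ V(s)⁴ + λ ∫_s^t ∫ V⁴` for `t₀ ≤ s ≤ t < T`; gron with `w = 1`: `∫ V(t)⁴ ≤ M₄` on `[t₀, T)` (`M₄ = ∫ V(t₀)⁴ exp(2 λ (T - t₀) + 1)`).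
(3) step_O2 on `[t₀, b]`: `∫ Om(b)² + ∫_{t₀}^b ∫ gsq Om ≤ Q₂`, and as in ThmA `∫_{t₀}^b ww(Om) ≤ Q`; bounded_of_int.
crit_circ: `circ = rsq * sV`.
-/
import Pool.Agent.H87.NC.Off
import Pool.Agent.H87.NC.KL6
import Pool.Agent.H87.NC.HLoc
import Pool.Agent.H87.NS.ThmA

set_option autoImplicit false

open Set Filter Topology MeasureTheory
open scoped ContDiff Real

namespace Pool.Agent.H87.NS

open Pool.Agent.H16

theorem Crit_P (z : E3) : ‖(!₂[z 0, z 1, 0] : E3)‖ = rad z := by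
  have h := norm_sq_eq (!₂[z 0, z 1, 0] : E3)
  rw [← Real.sqrt_sq (norm_nonneg _), h]
  unfold rad
  congr 1
  simp

/-- The distance to the axis is 1-Lipschitz. -/
theorem Crit_dist (x y : E3) : rad x ≤ rad y + ‖x - y‖ := by
  have h1 : (!₂[x 0, x 1, 0] : E3) = !₂[y 0, y 1, 0] + !₂[(x - y) 0, (x - y) 1, 0] := by
    apply ext3 <;> simp
  rw [← Crit_P x, ← Crit_P y, h1]
  refine (norm_add_le _ _).trans ?_
  rw [Crit_P (x - y)]
  have := rad_le_norm (x - y)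
  linarith

theorem Crit_axp (x : E3) : ‖x - axp (x 2)‖ = rad x := by
  have h := norm_sq_eq (x - axp (x 2))
  rw [← Real.sqrt_sq (norm_nonneg _), h]
  unfold rad axp
  congr 1
  simp

theorem Crit_ball {f : E3 → ℝ} (hf : Continuous f) (x : E3) (r : ℝ) :
    IntegrableOn f (Metric.ball x r) :=
  (hf.continuousOn.integrableOn_compact (isCompact_closedBall x r)).mono_set
    Metric.ball_subset_closedBall

theorem Crit_vol (x : E3) {s : ℝ} (h0 : 0 < s) (h1 : s ≤ 1) :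
    (volume : Measure E3).real (Metric.ball x s) ≤ 5 * s := by
  have h := EuclideanSpace.volume_ball_fin_three x s
  rw [Measure.real, h, ENNReal.toReal_mul, ENNReal.toReal_pow, ENNReal.toReal_ofReal h0.le,
    ENNReal.toReal_ofReal (by positivity)]
  have h3 : s ^ 3 ≤ s := by
    have : s ^ 2 ≤ 1 := pow_le_one₀ h0.le h1
    nlinarith
  have h4 : π * 4 / 3 ≤ 5 := by
    have := Real.pi_lt_d2
    linarith
  have h5 : (0 : ℝ) ≤ π * 4 / 3 := by positivity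
  nlinarith [mul_le_mul h3 h4 h5 h0.le]

/-- Uniform smallness on all balls of a small radius. -/
theorem Crit_small {T : ℝ} {u : ℝ → E3 → E3} {p : ℝ → E3 → ℝ} (h : IsHInfAxisymNS T u p) {c ρ a : ℝ}
    (hc : 0 < c) (hρ : 0 < ρ) (ha : 0 ≤ a) (haT : a < T)
    (hs : ∀ t ∈ Ico a T, ∀ z : ℝ, ∫ x in Metric.ball (axp z) ρ, |sO (u t) x| ≤ c) :
    ∃ ρ' > 0, ∀ t ∈ Ico a T, ∀ x, ∫ y in Metric.ball x (2 * ρ'), |sO (u t) y| ≤ c := by
  obtain ⟨C, hC⟩ := off_O h (r₁ := ρ / 4) (by positivity)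
  have hC0 : 0 ≤ C :=
    (integral_nonneg fun x => sq_nonneg _).trans (hC a ⟨ha, haT⟩)
  set l := c / (C + 1) with hl
  have hl0 : 0 < l := by positivity
  set s := min (min (ρ / 4) 1) (c * l / 5) with hsd
  have hs0 : 0 < s := by positivity
  have hs1 : s ≤ ρ / 4 := (min_le_left _ _).trans (min_le_left _ _)
  have hs2 : s ≤ 1 := (min_le_left _ _).trans (min_le_right _ _)
  have hs3 : s ≤ c * l / 5 := min_le_right _ _
  refine ⟨s / 2, by positivity, fun t ht x => ?_⟩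
  have ht' : t ∈ Ico 0 T := ⟨ha.trans ht.1, ht.2⟩
  have hcO : Continuous (sO (u t)) := (svw_smooth h.ns ht').2.2.continuous
  rw [show 2 * (s / 2) = s by ring]
  rcases lt_or_ge (rad x) (ρ / 2) with hx | hx
  · refine le_trans ?_ (hs t ht (x 2))
    refine setIntegral_mono_set (Crit_ball hcO.abs _ _) (ae_of_all _ fun y => abs_nonneg _)
      (LE.le.eventuallyLE ?_)
    intro y hy
    rw [Metric.mem_ball] at hy ⊢
    have h1 := dist_triangle y x (axp (x 2))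
    rw [dist_eq_norm x, Crit_axp] at h1
    linarith
  · have hsub : Metric.ball x s ⊆ {y | ρ / 4 ≤ rad y} := by
      intro y hy
      rw [Metric.mem_ball, dist_comm, dist_eq_norm] at hy
      have := Crit_dist x y
      change ρ / 4 ≤ rad y
      linarith
    obtain ⟨K, hK⟩ := svwDB h ht'.2
    have hO2 : Integrable (fun y => sO (u t) y ^ 2) :=
      (DB_BL (hK t ⟨ht'.1, le_rfl⟩).2.2).2.1
    have h1 : ∫ y in Metric.ball x s, |sO (u t) y| ≤
        ∫ y in Metric.ball x s, (l / 2 * sO (u t) y ^ 2 + 1 / (2 * l)) := by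
      refine setIntegral_mono (Crit_ball hcO.abs _ _) (Crit_ball (by fun_prop) _ _) fun y => ?_
      have h2 : 0 ≤ (l * |sO (u t) y| - 1) ^ 2 / (2 * l) := by positivity
      have h3 : (l * |sO (u t) y| - 1) ^ 2 / (2 * l) =
          l / 2 * |sO (u t) y| ^ 2 + 1 / (2 * l) - |sO (u t) y| := by
        field_simp
        ring
      rw [h3, sq_abs] at h2
      change |sO (u t) y| ≤ l / 2 * sO (u t) y ^ 2 + 1 / (2 * l)
      linarith
    have h4 : ∫ y in Metric.ball x s, (l / 2 * sO (u t) y ^ 2 + 1 / (2 * l)) =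
        l / 2 * (∫ y in Metric.ball x s, sO (u t) y ^ 2) +
        (volume : Measure E3).real (Metric.ball x s) * (1 / (2 * l)) := by
      rw [integral_add ((hO2.integrableOn).const_mul _) (Crit_ball continuous_const _ _),
        integral_const_mul, setIntegral_const, smul_eq_mul]
    have h5 : ∫ y in Metric.ball x s, sO (u t) y ^ 2 ≤ C := by
      refine le_trans ?_ (hC t ht')
      exact setIntegral_mono_set hO2.integrableOn (ae_of_all _ fun y => sq_nonneg _)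
        (LE.le.eventuallyLE hsub)
    have h6 := Crit_vol x hs0 hs2
    have h7 : l / 2 * (∫ y in Metric.ball x s, sO (u t) y ^ 2) ≤ c / 2 := by
      have e1 : l / 2 * (∫ y in Metric.ball x s, sO (u t) y ^ 2) ≤ l / 2 * C :=
        mul_le_mul_of_nonneg_left h5 (by positivity)
      have e2 : l * C ≤ c := by
        rw [hl, div_mul_eq_mul_div, div_le_iff₀ (by positivity)]
        nlinarith
      linarith
    have h8 : (volume : Measure E3).real (Metric.ball x s) * (1 / (2 * l)) ≤ c / 2 := by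
      have e1 : (volume : Measure E3).real (Metric.ball x s) * (1 / (2 * l)) ≤
          (c * l) * (1 / (2 * l)) :=
        mul_le_mul_of_nonneg_right (h6.trans (by linarith)) (by positivity)
      have e2 : (c * l) * (1 / (2 * l)) = c / 2 := by field_simp
      linarith
    linarith

/-- A bound of the integral of `V ^ 4` implies a bound of `V`. -/
theorem Crit_of_V4 {T : ℝ} {u : ℝ → E3 → E3} {V W Om : ℝ → E3 → ℝ} (F : Flow T u V W Om) {t₁ M₄ : ℝ}
    (h0 : 0 ≤ t₁) (hT : t₁ < T) (hV4 : ∀ t ∈ Ico t₁ T, ∫ x, V t x ^ 4 ≤ M₄) :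
    ∃ C : ℝ, ∀ t ∈ Ico 0 T, ∀ x, |V t x| ≤ C := by
  have hM₄0 : 0 ≤ M₄ := (integral_nonneg fun x => by positivity).trans (hV4 t₁ ⟨le_rfl, hT⟩)
  set Q₂ : ℝ := (∫ x, Om t₁ x ^ 2) + (T - t₁) * M₄ with hQ₂
  have hO0 : 0 ≤ ∫ x, Om t₁ x ^ 2 := integral_nonneg fun x => sq_nonneg _
  have hTt : 0 < T - t₁ := by linarith
  have hQ₂0 : 0 ≤ Q₂ := by positivity
  have hO2 : ∀ t ∈ Ico t₁ T,
      (∫ x, Om t x ^ 2) + ∫ s in t₁..t, ∫ x, gsq (Om s) x ≤ Q₂ := by
    intro t ht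
    refine (step_O2 F h0 ht.1 ht.2).trans ?_
    have h3 : ∫ s in t₁..t, ∫ x, V s x ^ 4 ≤ M₄ * |t - t₁| := by
      refine (le_abs_self _).trans ?_
      rw [← Real.norm_eq_abs]
      refine intervalIntegral.norm_integral_le_of_norm_le_const (E := ℝ) fun s hs => ?_
      rw [uIoc_of_le ht.1] at hs
      rw [Real.norm_eq_abs, abs_of_nonneg (integral_nonneg fun x => by positivity)]
      exact hV4 s ⟨hs.1.le, hs.2.trans_lt ht.2⟩
    rw [abs_of_nonneg (by linarith [ht.1] : (0:ℝ) ≤ t - t₁)] at h3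
    have h4 : M₄ * (t - t₁) ≤ (T - t₁) * M₄ := by nlinarith [ht.2]
    linarith
  have hG0 : ∀ t ∈ Ico t₁ T, 0 ≤ ∫ s in t₁..t, ∫ x, gsq (Om s) x := fun t ht =>
    intervalIntegral.integral_nonneg ht.1 fun s _ => integral_nonneg fun x => gsq_nonneg _ x
  have hww : ∀ f : E3 → ℝ, ww f ≤ CW * (2 + (∫ x, f x ^ 2) + ∫ x, gsq f x) := by
    intro f
    have hsq : ∀ z : ℝ, 0 ≤ z → √z ≤ 1 + z := fun z hz => by
      rw [Real.sqrt_le_left (by linarith)]
      nlinarith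
    unfold ww
    refine mul_le_mul_of_nonneg_left ?_ CW_pos.le
    have h1 := hsq (∫ x, f x ^ 2) (integral_nonneg fun x => sq_nonneg _)
    have h2 := hsq (∫ x, gsq f x) (integral_nonneg fun x => gsq_nonneg f x)
    linarith
  have hgii : ∀ b ∈ Ico t₁ T, IntervalIntegrable (fun t => ∫ x, gsq (Om t) x) volume t₁ b := by
    intro b hb
    obtain ⟨K, hK⟩ := F.evO.bd b hb.2
    have hJ := (evo_jc F.evO (pow_jfun (m := 1) le_rfl)).2.2.2
    refine ti_int hJ hb.2 (K := 3 * K) (fun t ht => ?_) h0 hb.1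
    have h1 := gsq_int (hK t ht).1
    refine ⟨h1.1, ?_⟩
    have h2 : ∫ x, |gsq (Om t) x| = ∫ x, gsq (Om t) x :=
      integral_congr_ae (Filter.Eventually.of_forall fun x => abs_of_nonneg (gsq_nonneg _ x))
    rw [h2]
    exact h1.2
  refine bounded_of_int F (Q := CW * ((2 + Q₂) * (T - t₁) + Q₂)) h0 hT fun b hb' => ?_
  have hii := hgii b hb'
  have h5 : ∫ t in t₁..b, ww (Om t) ≤
      ∫ t in t₁..b, CW * ((2 + Q₂) + ∫ x, gsq (Om t) x) := by
    refine intervalIntegral.integral_mono_on hb'.1 (ww_ii F h0 hb'.1 hb'.2)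
      ((intervalIntegrable_const.add hii).const_mul CW) fun t ht => ?_
    have ht' : t ∈ Ico t₁ T := ⟨ht.1, ht.2.trans_lt hb'.2⟩
    refine (hww _).trans (mul_le_mul_of_nonneg_left ?_ CW_pos.le)
    have h6 := hO2 t ht'
    have h7 := hG0 t ht'
    linarith
  refine h5.trans ?_
  rw [intervalIntegral.integral_const_mul,
    intervalIntegral.integral_add intervalIntegrable_const hii, intervalIntegral.integral_const,
    smul_eq_mul]
  refine mul_le_mul_of_nonneg_left ?_ CW_pos.le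
  have h8 := hO2 b hb'
  have h9 : 0 ≤ ∫ x, Om b x ^ 2 := integral_nonneg fun x => sq_nonneg _
  have h10 : (b - t₁) * (2 + Q₂) ≤ (2 + Q₂) * (T - t₁) := by
    rw [mul_comm]
    exact mul_le_mul_of_nonneg_left (by linarith [hb'.2]) (by linarith)
  linarith

/-- The growth of the integral of `V ^ 4` under a form bound of `W`. -/
theorem Crit_grow {T : ℝ} {u : ℝ → E3 → E3} {V W Om : ℝ → E3 → ℝ} (F : Flow T u V W Om) {a l : ℝ}
    (ha : 0 ≤ a) (hl : 0 ≤ l)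
    (hs : ∀ t ∈ Ico a T, 8 * (∫ x, |W t x| * (V t x ^ 2) ^ 2) ≤
      12 * (∫ x, V t x ^ 2 * gsq (V t) x) + l * ∫ x, V t x ^ 4) {b : ℝ} (hab : a ≤ b) (hb : b < T) :
    ∫ x, V b x ^ 4 ≤ (∫ x, V a x ^ 4) * Real.exp (2 * l * (T - a) + 1) := by
  have hj : JFun (fun s : ℝ => s ^ (2 * 2)) := pow_jfun (m := 2) (by norm_num)
  have e1 : (2 * 2 : ℕ) = 4 := by norm_num
  have key : ∀ s t, a ≤ s → s ≤ t → t ≤ b →
      ∫ x, V t x ^ 4 ≤ (∫ x, V s x ^ 4) + l * ∫ r in s..t, 1 * ∫ x, V r x ^ 4 := by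
    intro s t has hst htb
    have htT : t < T := htb.trans_lt hb
    have h := ev1 F.drift F.evV hj (ha.trans has) hst htT
    obtain ⟨hi1, hi2, hi3⟩ := evo_ii F.evV hj (ha.trans has) hst htT
    have hmono : ∫ t in s..t, ∫ x, deriv (fun s : ℝ => s ^ (2 * 2)) (V t x) * (-2 * W t x * V t x) ≤
        ∫ t in s..t, ((∫ x, deriv (deriv (fun s : ℝ => s ^ (2 * 2))) (V t x) * gsq (V t) x)
          + l * ∫ x, V t x ^ (2 * 2)) := by
      refine intervalIntegral.integral_mono_on hst hi3 (hi2.add (hi1.const_mul l)) (fun r hr => ?_)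
      have hrT : r ∈ Ico 0 T := ⟨(ha.trans has).trans hr.1, hr.2.trans_lt htT⟩
      have h1 := hs r ⟨has.trans hr.1, hrT.2⟩
      obtain ⟨-, -, h3⟩ := evo_int F.evV hj hrT
      have h2 : ∫ x, deriv (fun s : ℝ => s ^ (2 * 2)) (V r x) * (-2 * W r x * V r x) ≤
          ∫ x, 8 * (|W r x| * (V r x ^ 2) ^ 2) := by
        refine integral_mono h3 ((StepV4_abs F hrT).const_mul 8) (fun x => ?_)
        simp only [pow_deriv]
        have h4 : 2 * ((2 : ℕ) : ℝ) * V r x ^ (2 * 2 - 1) * (-2 * W r x * V r x) =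
            -(8 * (W r x * (V r x ^ 2) ^ 2)) := by
          norm_num
          ring
        rw [h4]
        have h5 : -(W r x) ≤ |W r x| := neg_le_abs _
        have h6 : (0 : ℝ) ≤ (V r x ^ 2) ^ 2 := by positivity
        nlinarith [mul_le_mul_of_nonneg_right h5 h6]
      rw [integral_const_mul] at h2
      refine (h2.trans h1).trans (le_of_eq ?_)
      refine congrArg₂ (· + ·) ?_ rfl
      rw [← integral_const_mul]
      refine integral_congr_ae (Eventually.of_forall fun x => ?_)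
      simp only [pow_deriv2]
      norm_num
      ring
    rw [intervalIntegral.integral_add hi2 (hi1.const_mul l), intervalIntegral.integral_const_mul] at hmono
    simp only [e1] at h hmono
    simp only [one_mul]
    linarith
  obtain ⟨K', hK'⟩ := evo_bd F.evV hj hb
  have hi := (evo_ii F.evV hj ha hab hb).1
  simp only [e1] at hi hK'
  refine gron (a := a) (b := b) (l := l) (Q := T - a) (Y := K') (y := fun t => ∫ x, V t x ^ 4)
    (w := fun _ => 1) hab intervalIntegrable_const (fun t _ => zero_le_one) ?_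
    (fun t _ => integral_nonneg fun x => by positivity) (fun t ht => ?_) ?_ hl key
  · rw [intervalIntegral.integral_const, smul_eq_mul]
    linarith
  · have h1 := (hK' t ⟨ha.trans ht.1, ht.2⟩).1.2
    refine le_trans (le_of_eq ?_) h1
    refine integral_congr_ae (Eventually.of_forall fun x => ?_)
    exact (abs_of_nonneg (by positivity)).symm
  · simpa only [one_mul] using hi

theorem crit_V : ∃ c : ℝ, 0 < c ∧ ∀ (T : ℝ) (u : ℝ → E3 → E3) (p : ℝ → E3 → ℝ), IsHInfAxisymNS T u p →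
    ∀ (ρ t₀ : ℝ), 0 < ρ → t₀ < T →
    (∀ t ∈ Ico 0 T, t₀ ≤ t → ∀ z : ℝ, ∫ x in Metric.ball (axp z) ρ, |sO (u t) x| ≤ c) →
    ∃ C : ℝ, ∀ t ∈ Ico 0 T, ∀ x, |sV (u t) x| ≤ C := by
  obtain ⟨Ck, hCk, hker⟩ := ker_loc
  obtain ⟨Ch, hCh, hS1⟩ := S1_loc
  refine ⟨12 / (32 * Ch * Ck), by positivity, fun T u p h ρ t₀ hρ ht₀ hsm => ?_⟩
  set c := 12 / (32 * Ch * Ck) with hc
  have hc0 : 0 < c := by positivity
  rcases le_or_gt T 0 with hT | hT
  · exact ⟨0, fun t ht => absurd (ht.1.trans_lt ht.2) (not_lt.2 hT)⟩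
  set a := max t₀ 0 with ha
  have ha0 : 0 ≤ a := le_max_right _ _
  have haT : a < T := max_lt ht₀ hT
  have F := flow_of h
  obtain ⟨r, hr, hsr⟩ := Crit_small h hc0 hρ ha0 haT fun t ht z =>
    hsm t ⟨ha0.trans ht.1, ht.2⟩ ((le_max_left _ _).trans ht.1) z
  set e₀ := ∫ x, ‖u 0 x‖ ^ 2 with he₀
  set B := Ck * (√(1 / r ^ 5) * √e₀) with hB
  have hB0 : 0 ≤ B := by positivity
  set l := 8 * Ch * Ck * c / r ^ 2 + 8 * B with hl
  have hl0 : 0 ≤ l := by positivity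
  refine Crit_of_V4 F ha0 haT (M₄ := (∫ x, sV (u a) x ^ 4) * Real.exp (2 * l * (T - a) + 1))
    fun b hb => Crit_grow F ha0 hl0 (fun t ht => ?_) hb.1 hb.2
  have ht' : t ∈ Ico 0 T := ⟨ha0.trans ht.1, ht.2⟩
  have htt : t ∈ Icc 0 t := ⟨ht'.1, le_rfl⟩
  obtain ⟨K1, hK1⟩ := uDB h ht'.2
  obtain ⟨K2, hK2⟩ := curlDB h ht'.2
  obtain ⟨K3, hK3⟩ := svwDB h ht'.2
  obtain ⟨sV', sW', sO'⟩ := svw_smooth h.ns ht'
  have hV1 : ContDiff ℝ 1 (sV (u t)) := sV'.of_le (by exact_mod_cast le_top)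
  have hH : ContDiff ℝ 1 (fun s : ℝ => s ^ 2) := contDiff_id.pow 2
  obtain ⟨K', hK'⟩ := comp_DB hH (by norm_num) K3
  have hD : DB 1 K' (fun y => sV (u t) y ^ 2) :=
    hK' (sV (u t)) hV1 (DB_mono (hK3 t htt).1 (by norm_num) le_rfl)
  have hG : ContDiff ℝ 1 (fun y => sV (u t) y ^ 2) := hV1.pow 2
  have hk : ∀ x, 0 < rad x → |sW (u t) x| ≤
      Ck * (∫ y in Metric.ball x r, |sO (u t) y| / ‖x - y‖ ^ 2) + B := by
    intro x hx
    have h1 := hker (u t) (max K1 (max K2 K3)) (axF_of h.ns ht')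
      (fun j => DB_mono (hK1 t htt j) (by norm_num) (le_max_left _ _))
      (fun j => DB_mono (hK2 t htt j).1 (by norm_num) ((le_max_left _ _).trans (le_max_right _ _)))
      sO' (BL_mono (DB_BL (hK3 t htt).2.2) ((le_max_right _ _).trans (le_max_right _ _)))
      (dsq_int h ht').2 r hr x hx
    refine h1.trans ?_
    have h2 : √(∫ y, ‖u t y‖ ^ 2) ≤ √e₀ := Real.sqrt_le_sqrt (energy1 h ht').2
    have h3 : Ck * (√(1 / r ^ 5) * √(∫ y, ‖u t y‖ ^ 2)) ≤ B := by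
      rw [hB]
      gcongr
    linarith
  have h1 := hS1 (sW (u t)) (sO (u t)) (fun y => sV (u t) y ^ 2) K3 K3 K' Ck B c r sW'.continuous
    (DB_BL (hK3 t htt).2.1).1 sO'.continuous (DB_BL (hK3 t htt).2.2).1 hG hD hCk.le hB0 hr hk
    (hsr t ht)
  have hg : ∀ x, gsq (fun y => sV (u t) y ^ 2) x = 4 * (sV (u t) x ^ 2 * gsq (sV (u t)) x) := by
    intro x
    have h1 := comp_gsq hV1 hH x
    have h2 : deriv (fun s : ℝ => s ^ 2) (sV (u t) x) = 2 * sV (u t) x := by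
      simp
    rw [h2] at h1
    rw [h1]
    ring
  have h44 : ∫ x, (sV (u t) x ^ 2) ^ 2 = ∫ x, sV (u t) x ^ 4 :=
    integral_congr_ae (Eventually.of_forall fun x => by ring)
  simp only [hg] at h1
  rw [integral_const_mul, h44] at h1
  have h5 : Ch * Ck * c * (4 * (∫ x, sV (u t) x ^ 2 * gsq (sV (u t)) x)) =
      12 / 8 * (∫ x, sV (u t) x ^ 2 * gsq (sV (u t)) x) := by
    have e0 : Ch * Ck * c = 12 / 32 := by
      rw [hc]
      field_simp
    rw [e0]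
    ring
  have h6 : l * (∫ x, sV (u t) x ^ 4) =
      8 * (Ch * Ck * c * ((∫ x, sV (u t) x ^ 4) / r ^ 2) + B * ∫ x, sV (u t) x ^ 4) := by
    rw [hl]
    ring
  change 8 * (∫ x, |sW (u t) x| * (sV (u t) x ^ 2) ^ 2) ≤
      12 * (∫ x, sV (u t) x ^ 2 * gsq (sV (u t)) x) + l * ∫ x, sV (u t) x ^ 4
  rw [h6]
  rw [mul_add, h5] at h1
  linarith

theorem crit_circ : ∃ c : ℝ, 0 < c ∧ ∀ (T : ℝ) (u : ℝ → E3 → E3) (p : ℝ → E3 → ℝ), IsHInfAxisymNS T u p →
    ∀ (ρ t₀ : ℝ), 0 < ρ → t₀ < T →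
    (∀ t ∈ Ico 0 T, t₀ ≤ t → ∀ z : ℝ, ∫ x in Metric.ball (axp z) ρ, |circ (curl (u t)) x| / rad x ^ 2 ≤ c) →
    ∃ C : ℝ, ∀ t ∈ Ico 0 T, ∀ x, |circ (u t) x| ≤ C * rad x ^ 2 := by
  obtain ⟨c, hc, hV⟩ := crit_V
  refine ⟨c, hc, fun T u p h ρ t₀ hρ ht₀ hsm => ?_⟩
  obtain ⟨C, hC⟩ := hV T u p h ρ t₀ hρ ht₀ fun t ht htt z => by
    refine le_trans (le_of_eq ?_) (hsm t ht htt z)
    refine setIntegral_congr_ae measurableSet_ball ?_
    filter_upwards [axis_null] with x hx _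
    rw [om_eq (axF_of h.ns ht) x, ← rad_sq', abs_mul, abs_of_nonneg (sq_nonneg (rad x)),
      mul_div_cancel_left₀ _ (pow_ne_zero 2 hx.ne')]
  refine ⟨C, fun t ht x => ?_⟩
  rw [circ_eq (axF_of h.ns ht) x, ← rad_sq', abs_mul, abs_of_nonneg (sq_nonneg (rad x)), mul_comm]
  exact mul_le_mul_of_nonneg_right (hC t ht x) (sq_nonneg _)

end Pool.Agent.H87.NS
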